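import Pool.Agent.Lib.MP_572a3e_an.Model

namespace Pool.Agent.Lib.MP_572a3e_an

open Classical Finset Filter Topology Real

lemma log_fact_ge (k : ℕ) : k * log k - k ≤ log k.factorial := by
  rcases Nat.eq_zero_or_pos k with rfl | hk
  · simp
  have h := pow_div_factorial_le_exp (k : ℝ) (by positivity) k
  have h1 := log_le_log (by positivity) h
  rw [log_div (by positivity) (by positivity), log_pow, log_exp] at h1
  linarith

lemma log_fact_le (k : ℕ) : log k.factorial ≤ k * log k - k + 1 + log k := by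
  rcases Nat.eq_zero_or_pos k with rfl | hk
  · simp
  induction k, hk using Nat.le_induction with
  | base => simp
  | succ k hk ih =>
    have hk' : (0 : ℝ) < k := by exact_mod_cast hk
    rw [Nat.factorial_succ, Nat.cast_mul, log_mul (by positivity) (by positivity)]
    push_cast
    have h := one_sub_inv_le_log_of_pos (x := ((k : ℝ) + 1) / k) (by positivity)
    rw [log_div (by positivity) (by positivity), inv_div] at h
    have h2 : ((k : ℝ) + 1) * (1 - k / (k + 1)) = 1 := by field_simp; ring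
    have h3 := mul_le_mul_of_nonneg_left h (by positivity : (0 : ℝ) ≤ k + 1)
    rw [h2] at h3
    nlinarith

noncomputable def DD (k N : ℕ) : ℝ := (log k.factorial - k * log N + k) / N

lemma tendsto_DD {k N : ℕ → ℕ} {q : ℝ} (hN : Tendsto N atTop atTop)
    (hk : Tendsto (fun n => (k n : ℝ) / N n) atTop (𝓝 q)) :
    Tendsto (fun n => DD (k n) (N n)) atTop (𝓝 (-negMulLog q)) := by
  have hN' : Tendsto (fun n => (N n : ℝ)) atTop atTop := tendsto_natCast_atTop_atTop.comp hN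
  have h1 : Tendsto (fun n => -negMulLog ((k n : ℝ) / N n)) atTop (𝓝 (-negMulLog q)) :=
    ((continuous_negMulLog.tendsto q).comp hk).neg
  have h2 : Tendsto (fun n => -negMulLog ((k n : ℝ) / N n) +
      ((1 + k n / N n) * (N n : ℝ)⁻¹ + log (N n) / N n)) atTop
      (𝓝 (-negMulLog q + ((1 + q) * 0 + 0))) := by
    refine h1.add (((hk.const_add 1).mul hN'.inv_tendsto_atTop).add ?_)
    exact (isLittleO_log_id_atTop.tendsto_div_nhds_zero).comp hN'
  simp only [mul_zero, add_zero] at h2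
  have key : ∀ k N : ℕ, 0 < N → DD k N = -negMulLog ((k : ℝ) / N) +
      (log k.factorial - k * log k + k) / N := by
    intro k N hN
    have hN : (0 : ℝ) < N := by exact_mod_cast hN
    rcases Nat.eq_zero_or_pos k with rfl | hk
    · simp [DD]
    have hk : (0 : ℝ) < k := by exact_mod_cast hk
    rw [DD, negMulLog, log_div hk.ne' hN.ne']
    field_simp
    ring
  refine tendsto_of_tendsto_of_tendsto_of_le_of_le' h1 h2 ?_ ?_
  · filter_upwards [hN.eventually_gt_atTop 0] with n hn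
    rw [key _ _ hn]
    have := log_fact_ge (k n)
    have : 0 ≤ (log (k n).factorial - k n * log (k n) + k n) / N n :=
      div_nonneg (by linarith) (by positivity)
    linarith
  · filter_upwards [hN.eventually_gt_atTop 0] with n hn
    rw [key _ _ hn]
    have hn' : (1 : ℝ) ≤ N n := by exact_mod_cast hn
    have h3 := log_fact_le (k n)
    have h4 : log (k n) ≤ k n / N n + log (N n) := by
      rcases Nat.eq_zero_or_pos (k n) with h | h
      · simpa [h] using log_nonneg hn'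
      have h : (0 : ℝ) < k n := by exact_mod_cast h
      have := log_le_sub_one_of_pos (x := (k n : ℝ) / N n) (by positivity)
      rw [log_div h.ne' (by positivity)] at this
      linarith
    rw [← div_eq_mul_inv, ← add_div]
    exact add_le_add le_rfl (div_le_div_of_nonneg_right (by linarith) (by positivity))

lemma exists_rat_functional : ∃ L : ℕ → (ℝ →ₗ[ℚ] ℚ), ∀ x : ℝ,
    Tendsto (fun n => (L n x : ℝ)) atTop (𝓝 x) := by
  let b := Module.Basis.ofVectorSpace ℚ ℝ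
  have : ∀ x : ℝ, ∃ q : ℕ → ℚ, Tendsto (fun n => (q n : ℝ)) atTop (𝓝 x) := fun x => by
    obtain ⟨u, -, -, h⟩ := Real.exists_seq_rat_strictMono_tendsto x
    exact ⟨u, h⟩
  choose q hq using this
  refine ⟨fun n => b.constr ℚ fun j => q (b j) n, fun x => ?_⟩
  have h1 : x = (b.repr x).sum fun j c => (c : ℝ) * b j := by
    conv_lhs => rw [← b.linearCombination_repr x, Finsupp.linearCombination_apply]
    simp only [Rat.smul_def]
  conv => rhs; rw [h1]
  simp only [Module.Basis.constr_apply, Finsupp.sum, smul_eq_mul, Rat.cast_sum, Rat.cast_mul]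
  exact tendsto_finsetSum _ fun j _ => (hq _).const_mul _

lemma exists_int_approx {Ω : Type*} [Fintype Ω] (w : Ω → ℝ) (hw : ∀ ω, 0 ≤ w ω)
    (h1 : ∑ ω, w ω = 1) : ∃ m : ℕ → Ω → ℕ, Tendsto (fun n => ∑ ω, m n ω) atTop atTop ∧
      (∀ ω, Tendsto (fun n => (m n ω : ℝ) / (∑ ω, m n ω : ℕ)) atTop (𝓝 (w ω))) ∧
      (∀ n ω, w ω = 0 → m n ω = 0) ∧
      ∀ᶠ n in atTop, ∀ P Q : Finset Ω, ∑ ω ∈ P, w ω = ∑ ω ∈ Q, w ω →
        ∑ ω ∈ P, m n ω = ∑ ω ∈ Q, m n ω := by
  obtain ⟨L, hL⟩ := exists_rat_functional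
  let D : ℕ → ℕ := fun n => (n + 1) * ∏ ω, (L n (w ω)).den
  let m : ℕ → Ω → ℕ := fun n ω => ⌊(D n : ℚ) * L n (w ω)⌋₊
  have hpos : ∀ᶠ n in atTop, ∀ ω, 0 ≤ L n (w ω) := by
    refine eventually_all.2 fun ω => ?_
    rcases (hw ω).eq_or_lt with h | h
    · simp [← h]
    · filter_upwards [(hL (w ω)).eventually_const_lt h] with n hn
      exact_mod_cast hn.le
  have hm : ∀ᶠ n in atTop, ∀ ω, (m n ω : ℚ) = D n * L n (w ω) := by
    filter_upwards [hpos] with n hn ω
    obtain ⟨c, hc⟩ : (L n (w ω)).den ∣ D n :=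
      Dvd.dvd.mul_left (dvd_prod_of_mem (fun ω => (L n (w ω)).den) (mem_univ ω)) _
    obtain ⟨k, hk⟩ := Int.eq_ofNat_of_zero_le (Rat.num_nonneg.2 (hn ω))
    have e : (D n : ℚ) * L n (w ω) = (c * k : ℕ) := by
      have := Rat.mul_den_eq_num (L n (w ω))
      rw [hk] at this
      rw [hc]
      push_cast at this ⊢
      rw [← this]; ring
    simp only [m]
    rw [e, Nat.floor_natCast]
  have hm' : ∀ᶠ n in atTop, ∀ ω, (m n ω : ℝ) = D n * L n (w ω) := by
    filter_upwards [hm] with n hn ω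
    exact_mod_cast hn ω
  have hS : Tendsto (fun n => ∑ ω, (L n (w ω) : ℝ)) atTop (𝓝 1) :=
    h1 ▸ tendsto_finsetSum _ fun ω _ => hL _
  have hD : Tendsto (fun n => (D n : ℝ)) atTop atTop := by
    refine tendsto_natCast_atTop_atTop.comp (tendsto_atTop_mono (fun n => ?_) tendsto_id)
    have : 0 < ∏ ω, (L n (w ω)).den := prod_pos fun _ _ => Rat.den_pos _
    simp only [D, id]
    nlinarith
  refine ⟨m, ?_, fun ω => ?_, fun n ω h => by simp [m, h], ?_⟩
  · rw [← tendsto_natCast_atTop_iff (R := ℝ)]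
    refine (hD.atTop_mul_pos one_pos hS).congr' ?_
    filter_upwards [hm'] with n hn
    simp [hn, mul_sum]
  · have := (hL (w ω)).div hS one_ne_zero
    rw [div_one] at this
    refine this.congr' ?_
    filter_upwards [hm', hD.eventually_gt_atTop 0] with n hn hn'
    simp only [Pi.div_apply, Nat.cast_sum, hn, ← mul_sum]
    rw [mul_div_mul_left _ _ hn'.ne']
  · filter_upwards [hm] with n hn P Q h
    have := congrArg (L n) h
    rw [map_sum, map_sum] at this
    have e : ((∑ ω ∈ P, m n ω : ℕ) : ℚ) = (∑ ω ∈ Q, m n ω : ℕ) := by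
      simp only [Nat.cast_sum, hn, ← mul_sum, this]
    exact_mod_cast e

noncomputable def mass {Ω B : Type*} [Fintype Ω] (w : Ω → ℝ) (f : Ω → B) (b : B) : ℝ :=
  ∑ ω with f ω = b, w ω

noncomputable def Hw {Ω B : Type*} [Fintype Ω] [Fintype B] (w : Ω → ℝ) (f : Ω → B) : ℝ :=
  ∑ b, negMulLog (mass w f b)

lemma cnt_sigma {Ω B : Type*} [Fintype Ω] (m : Ω → ℕ) (f : Ω → B) (b : B) :
    cnt (fun v : Σ ω, Fin (m ω) => f v.1) b = ∑ ω with f ω = b, m ω := by
  rw [cnt, card_filter, Fintype.sum_sigma, sum_filter]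
  refine sum_congr rfl fun ω _ => ?_
  split_ifs <;> simp [*]

lemma log_PiF {B : Type*} [Fintype B] (k : B → ℕ) {N : ℕ} (hN : 0 < N) :
    log (PiF k) = N * ∑ b, DD (k b) N + (∑ b, k b : ℕ) * (log N - 1) := by
  have hN : (0 : ℝ) < N := by exact_mod_cast hN
  rw [PiF, Nat.cast_prod, log_prod fun _ _ => by positivity, mul_sum, Nat.cast_sum, sum_mul,
    ← sum_add_distrib]
  refine sum_congr rfl fun b _ => ?_
  rw [DD]
  field_simp
  ring

lemma sum_cnt_one {V B : Type*} [Fintype V] [Fintype B] (f : V → B) :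
    ∑ b, cnt f b = Fintype.card V := by
  simpa using sum_cnt f fun _ => (1 : ℕ)

lemma cast_sub_max (a b : ℕ) : ((a - b : ℕ) : ℝ) = max ((a : ℝ) - b) 0 := by
  rcases le_total b a with h | h
  · rw [Nat.cast_sub h, max_eq_left (sub_nonneg.2 (by exact_mod_cast h))]
  · rw [Nat.sub_eq_zero_of_le h, max_eq_right (sub_nonpos.2 (by exact_mod_cast h))]; simp

lemma tendsto_cnt {Ω C : Type*} [Fintype Ω] {m : ℕ → Ω → ℕ} {w : Ω → ℝ}
    (hm2 : ∀ ω, Tendsto (fun n => (m n ω : ℝ) / (∑ ω, m n ω : ℕ)) atTop (𝓝 (w ω)))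
    (f : Ω → C) (p : C) :
    Tendsto (fun n => (cnt (fun v : Σ ω, Fin (m n ω) => f v.1) p : ℝ) / (∑ ω, m n ω : ℕ)) atTop
      (𝓝 (mass w f p)) := by
  simp only [cnt_sigma, Nat.cast_sum (s := filter _ _), sum_div]
  exact tendsto_finsetSum _ fun ω _ => hm2 ω

lemma tendsto_H {Ω C : Type*} [Fintype Ω] [Fintype C] {m : ℕ → Ω → ℕ} {w : Ω → ℝ}
    (hm1 : Tendsto (fun n => ∑ ω, m n ω) atTop atTop)
    (hm2 : ∀ ω, Tendsto (fun n => (m n ω : ℝ) / (∑ ω, m n ω : ℕ)) atTop (𝓝 (w ω)))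
    (f : Ω → C) : Tendsto (fun n => ∑ p,
      DD (cnt (fun v : Σ ω, Fin (m n ω) => f v.1) p) (∑ ω, m n ω)) atTop (𝓝 (-Hw w f)) := by
  rw [Hw, ← sum_neg_distrib]
  exact tendsto_finsetSum _ fun p _ => tendsto_DD hm1 (tendsto_cnt hm2 f p)

variable {S : Type*} [DecidableEq S] [Fintype S] {A : Type*} [Fintype A] {ρ : ℕ}
  (a : S → A → FreeGroup S) (b : S × Bool → A → FreeGroup S)
  (z : S → (Ball S ρ → A) → Option A) (ℓ : S → (Ball S ρ → A) → ℕ)
  (hz : ∀ u ω c, z u (res ρ ω) = some c → (cfg a b).g4 u ω ∧ (cfg a b).step (u, true) ω 1 = c)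
  (hℓ : ∀ s ω, ¬ (cfg a b).g5 s ω → (a s (ω 1)).norm ≤ ℓ s (res ρ ω))

include hz hℓ in
theorem fin_log {V : Type*} [Fintype V] [Nonempty V] [Nonempty S] (x0 : V → Ball S ρ → A)
    (B : S → V → Ball S ρ → A)
    (hB : ∀ s, cnt (B s) = cnt x0) (hC : ∀ s v, Cons s (x0 v) (B s v))
    (N m0 : ℕ) (hN : Fintype.card V = N) (hm : ∑ s, ∑ v, ℓ s (x0 v) = m0) (hm0 : m0 ≤ N)
    (q : S → A → ℕ) (hq : ∀ u c, cnt (fun v => x0 v (ctr ρ)) c - cnt (z u ∘ x0) (some c) = q u c)
    {l : ℝ} (hl0 : 0 < l) (hl1 : l ≤ 1) :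
    (2 * Fintype.card S - 1) * ∑ p, DD (cnt x0 p) N - ∑ s, ∑ p, DD (cnt (pair x0 (B s)) p) N ≤
    (2 * Fintype.card S - 1) * ∑ p, DD (cnt (fun v => x0 v (ctr ρ)) p) N -
      ∑ u, ∑ p, DD (cnt (pair (fun v => x0 v (ctr ρ)) (z u ∘ x0)) p) N -
      ∑ u, ∑ c, DD (q u c) N + (∑ u, ∑ c, (q u c : ℝ) / N) * (1 + log (5 * Fintype.card S / l))
      + m0 / N * log (5 * Fintype.card S / l ^ 2) + 2 * l := by
  have h := fin_count a b z ℓ hz hℓ x0 B hB hC m0 _ hm (hN ▸ hm0) rfl hl0 hl1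
  have hN0 : 0 < N := hN ▸ Fintype.card_pos
  have hN0' : (0 : ℝ) < N := by exact_mod_cast hN0
  have hr : (0 : ℝ) < Fintype.card S := by exact_mod_cast Fintype.card_pos
  simp only [hq, hN] at h
  have p1 : ∀ k : (Ball S ρ → A) → ℕ, (0 : ℝ) < PiF k := fun k => by exact_mod_cast PiF_pos k
  have p2 : ∀ k : (Ball S ρ → A) × (Ball S ρ → A) → ℕ, (0 : ℝ) < PiF k :=
    fun k => by exact_mod_cast PiF_pos k
  have p3 : ∀ k : A → ℕ, (0 : ℝ) < PiF k := fun k => by exact_mod_cast PiF_pos k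
  have p4 : ∀ k : A × Option A → ℕ, (0 : ℝ) < PiF k := fun k => by exact_mod_cast PiF_pos k
  have h1 := log_le_log (mul_pos (div_pos (by positivity) (p1 _))
    (prod_pos fun s _ => div_pos (pow_pos (p1 _) 2) (p2 _))) h
  rw [log_mul (div_pos (by positivity) (p1 _)).ne'
      (prod_pos fun s _ => div_pos (pow_pos (p1 _) 2) (p2 _)).ne',
    log_mul (mul_pos (div_pos (by positivity) (p3 _)) (prod_pos fun s _ =>
      mul_pos (div_pos (p3 _) (p4 _)) (div_pos (p3 _) (p3 _)))).ne' (by positivity),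
    log_mul (div_pos (by positivity) (p3 _)).ne' (prod_pos fun s _ =>
      mul_pos (div_pos (p3 _) (p4 _)) (div_pos (p3 _) (p3 _))).ne',
    log_prod fun s _ => (div_pos (pow_pos (p1 _) 2) (p2 _)).ne',
    log_prod fun s _ => (mul_pos (div_pos (p3 _) (p4 _)) (div_pos (p3 _) (p3 _))).ne',
    log_mul (by positivity) (by positivity), log_mul (by positivity) (by positivity),
    log_exp, log_pow, log_pow, mul_div_right_comm, log_mul (by positivity) (by positivity)] at h1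
  simp only [log_mul (div_pos (p3 _) (p4 _)).ne' (div_pos (p3 _) (p3 _)).ne',
    log_div (pow_pos (p1 _) 2).ne' (p2 _).ne', log_div (p3 _).ne' (p4 _).ne',
    log_div (p3 _).ne' (p3 _).ne', log_pow,
    log_div (by positivity : (N.factorial : ℝ) ≠ 0) (p1 _).ne',
    log_div (by positivity : (N.factorial : ℝ) ≠ 0) (p3 _).ne', log_PiF _ hN0, sum_cnt_one, hN,
    sum_add_distrib, sum_sub_distrib, sum_const, card_univ, nsmul_eq_mul, ← mul_sum,
    ← sum_mul] at h1
  simp only [← sum_div]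
  refine le_of_mul_le_mul_left ?_ hN0'
  push_cast at h1
  have e1 : ∀ x y : ℝ, N * (x / N * y) = x * y := fun x y => by field_simp
  simp only [mul_add, e1]
  linarith

include hz hℓ in
theorem weight_ineq [Nonempty S] {Ω : Type*} [Fintype Ω] (w : Ω → ℝ) (hw : ∀ ω, 0 ≤ w ω)
    (h1 : ∑ ω, w ω = 1) (x : Ω → Ball S ρ → A) (B : S → Ω → Ball S ρ → A)
    (hB : ∀ s, mass w (B s) = mass w x) (hC : ∀ s ω, w ω ≠ 0 → Cons s (x ω) (B s ω))
    (hm : ∑ s, ∑ ω, w ω * ℓ s (x ω) < 1) {l : ℝ} (hl0 : 0 < l) (hl1 : l ≤ 1) :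
    (1 - 2 * Fintype.card S) * Hw w x + ∑ s, Hw w (pair x (B s)) ≤
    (1 - 2 * Fintype.card S) * Hw w (fun ω => x ω (ctr ρ)) +
      ∑ u, Hw w (pair (fun ω => x ω (ctr ρ)) (z u ∘ x)) +
      ∑ u, ∑ c, negMulLog (max (mass w (fun ω => x ω (ctr ρ)) c - mass w (z u ∘ x) (some c)) 0)
      + (∑ u, ∑ c, max (mass w (fun ω => x ω (ctr ρ)) c - mass w (z u ∘ x) (some c)) 0) *
        (1 + log (5 * Fintype.card S / l))
      + (∑ s, ∑ ω, w ω * ℓ s (x ω)) * log (5 * Fintype.card S / l ^ 2) + 2 * l := by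
  obtain ⟨m, hm1, hm2, hm3, hm4⟩ := exists_int_approx w hw h1
  set N : ℕ → ℕ := fun n => ∑ ω, m n ω with hN
  have tq : ∀ u c, Tendsto (fun n => ((cnt (fun v : Σ ω, Fin (m n ω) => x v.1 (ctr ρ)) c -
      cnt (z u ∘ fun v : Σ ω, Fin (m n ω) => x v.1) (some c) : ℕ) : ℝ) / N n) atTop
      (𝓝 (max (mass w (fun ω => x ω (ctr ρ)) c - mass w (z u ∘ x) (some c)) 0)) := by
    intro u c
    have := ((tendsto_cnt hm2 (fun ω => x ω (ctr ρ)) c).sub
      (tendsto_cnt hm2 (z u ∘ x) (some c))).max (tendsto_const_nhds (x := (0 : ℝ)))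
    refine this.congr fun n => ?_
    rw [← sub_div, cast_sub_max, ← max_div_div_right (by positivity), zero_div]
    rfl
  have tm : Tendsto (fun n => ((∑ s, ∑ v : Σ ω, Fin (m n ω), ℓ s (x v.1) : ℕ) : ℝ) / N n) atTop
      (𝓝 (∑ s, ∑ ω, w ω * ℓ s (x ω))) := by
    simp only [Fintype.sum_sigma, sum_const, card_univ, Fintype.card_fin, smul_eq_mul,
      Nat.cast_sum, Nat.cast_mul, sum_div, mul_div_right_comm]
    exact tendsto_finsetSum _ fun s _ => tendsto_finsetSum _ fun ω _ => (hm2 ω).mul_const _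
  have L := ((tendsto_H hm1 hm2 x).const_mul (2 * Fintype.card S - 1 : ℝ)).sub
    (tendsto_finsetSum univ fun s _ => tendsto_H hm1 hm2 (pair x (B s)))
  have R := ((((((tendsto_H hm1 hm2 (fun ω => x ω (ctr ρ))).const_mul
    (2 * Fintype.card S - 1 : ℝ)).sub
    (tendsto_finsetSum univ fun u _ => tendsto_H hm1 hm2
      (pair (fun ω => x ω (ctr ρ)) (z u ∘ x)))).sub (tendsto_finsetSum univ fun u _ =>
      tendsto_finsetSum univ fun c _ => tendsto_DD hm1 (tq u c))).add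
      ((tendsto_finsetSum univ fun u _ => tendsto_finsetSum univ fun c _ => tq u c).mul_const
        (1 + log (5 * Fintype.card S / l)))).add
        (tm.mul_const (log (5 * Fintype.card S / l ^ 2)))).add_const (2 * l)
  have := le_of_tendsto_of_tendsto L R (by
    filter_upwards [hm4, hm1.eventually_gt_atTop 0, tm.eventually_lt_const hm] with n h4 h5 h6
    have hc : Fintype.card (Σ ω, Fin (m n ω)) = N n := by simp [hN]
    have : Nonempty (Σ ω, Fin (m n ω)) := Fintype.card_pos_iff.1 (hc ▸ h5)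
    rw [div_lt_one (by exact_mod_cast h5)] at h6
    refine fin_log a b z ℓ hz hℓ (fun v : Σ ω, Fin (m n ω) => x v.1) (fun s v => B s v.1)
      (fun s => ?_) (fun s v => hC s _ fun h => ?_) (N n) _ hc rfl (by exact_mod_cast h6.le) _
      (fun _ _ => rfl) hl0 hl1
    · funext p
      rw [cnt_sigma, cnt_sigma]
      exact h4 _ _ (congrFun (hB s) p)
    · exact (Fin.pos v.2).ne' (hm3 n _ h))
  simp only [sum_neg_distrib] at this
  linarith

end Pool.Agent.Lib.MP_572a3e_an
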