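import Mathlib

namespace Pool.Agent.Lib.MP_572a3e_an

open Classical Finset

variable {V A B C : Type*} [Fintype V]

/-- number of points with a given value -/
noncomputable def cnt (f : V → A) (b : A) : ℕ := #{v | f v = b}

lemma cnt_eq (f : V → A) (b : A) (p : V → Prop) [DecidablePred p] (h : ∀ v, f v = b ↔ p v) :
    cnt f b = #{v | p v} := by
  unfold cnt
  congr 1
  ext v
  simp [h]

def pair {X : Type*} (f : X → A) (g : X → B) : X → A × B := fun v => (f v, g v)

noncomputable def PiF [Fintype A] (k : A → ℕ) : ℕ := ∏ b, (k b).factorial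

lemma PiF_pos [Fintype A] (k : A → ℕ) : 0 < PiF k := prod_pos fun _ _ => Nat.factorial_pos _

lemma cnt_comp_perm (f : V → A) (σ : Equiv.Perm V) : cnt (f ∘ σ) = cnt f := by
  funext b
  unfold cnt
  exact card_equiv σ (by simp)

lemma exists_perm {f g : V → A} (h : cnt g = cnt f) : ∃ σ : Equiv.Perm V, g = f ∘ σ := by
  have e : ∀ c, {a // g a = c} ≃ {b // f b = c} := fun c => Fintype.equivOfCardEq (by
    rw [Fintype.card_subtype, Fintype.card_subtype]
    exact congrFun h c)
  exact ⟨Equiv.ofFiberEquiv e, funext fun a => (Equiv.ofFiberEquiv_map e a).symm⟩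

lemma cnt_comp {f g : V → A} (h : cnt g = cnt f) (k : A → B) : cnt (k ∘ g) = cnt (k ∘ f) := by
  obtain ⟨σ, rfl⟩ := exists_perm h
  exact cnt_comp_perm (k ∘ f) σ

lemma sum_cnt [Fintype A] {M : Type*} [Semiring M] (f : V → A) (F : A → M) :
    ∑ b, (cnt f b : M) * F b = ∑ v, F (f v) := by
  rw [← sum_fiberwise' univ f F]
  exact sum_congr rfl fun b _ => by rw [sum_const, nsmul_eq_mul]; rfl

lemma exists_of_cnt {f g : V → A} (h : cnt g = cnt f) (v : V) : ∃ w, f w = g v := by
  obtain ⟨σ, rfl⟩ := exists_perm h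
  exact ⟨σ v, rfl⟩

lemma card_perm_eq [Fintype A] {h g : V → A} (e : cnt g = cnt h) (p : Equiv.Perm V → Prop)
    [DecidablePred p] (hp : ∀ τ, p τ ↔ h ∘ τ = g) : #{τ | p τ} = PiF (cnt h) := by
  obtain ⟨σ, rfl⟩ := exists_perm e
  have h1 := DomMulAct.stabilizer_card h
  rw [Fintype.card_subtype] at h1
  have h2 : PiF (cnt h) = ∏ i, (Fintype.card {a // h a = i}).factorial :=
    prod_congr rfl fun i _ => by rw [Fintype.card_subtype]; rfl
  rw [h2, ← h1]
  refine card_equiv (Equiv.mulRight σ⁻¹) fun τ => ?_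
  simp only [mem_filter, mem_univ, true_and, hp, Equiv.coe_mulRight, Equiv.Perm.coe_mul]
  constructor
  · intro e1
    rw [← Function.comp_assoc, e1]
    ext v; simp
  · intro e1
    conv_rhs => rw [← e1]
    ext v; simp

/-- functions of given type -/
noncomputable def Ty [Fintype A] (k : A → ℕ) : Finset (V → A) := {x | cnt x = k}

@[simp] lemma mem_Ty [Fintype A] {k : A → ℕ} {x : V → A} : x ∈ Ty k ↔ cnt x = k := by simp [Ty]

lemma card_Ty [Fintype A] (x0 : V → A) :
    #(Ty (V := V) (cnt x0)) * PiF (cnt x0) = (Fintype.card V).factorial := by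
  rw [← Fintype.card_perm, ← card_univ, card_eq_sum_card_fiberwise
    (f := fun σ : Equiv.Perm V => x0 ∘ σ) (t := Ty (cnt x0))
    (fun σ _ => by simp [cnt_comp_perm])]
  rw [sum_congr rfl fun g hg => card_perm_eq (mem_Ty.1 hg) _ (fun _ => Iff.rfl)]
  simp

/-- functions of given joint type -/
noncomputable def Sk [Fintype B] (f : V → A) (k : A × B → ℕ) : Finset (V → B) :=
  {g | cnt (pair f g) = k}

@[simp] lemma mem_Sk [Fintype B] {f : V → A} {k : A × B → ℕ} {g : V → B} :
    g ∈ Sk f k ↔ cnt (pair f g) = k := by simp [Sk]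

lemma card_Sk [Fintype A] [Fintype B] {f : V → A} {k : A × B → ℕ} {g1 : V → B}
    (h : g1 ∈ Sk f k) : #(Sk f k) * PiF k = PiF (cnt f) := by
  rw [mem_Sk] at h
  rw [← card_perm_eq (h := f) (g := f) rfl _ (fun _ => Iff.rfl), card_eq_sum_card_fiberwise
    (f := fun σ : Equiv.Perm V => g1 ∘ σ) (t := Sk f k) ?_]
  · rw [sum_congr rfl fun g hg => ?_, sum_const, smul_eq_mul]
    rw [filter_filter, ← h]
    refine card_perm_eq ((mem_Sk.1 hg).trans h.symm) _ fun τ => ?_
    simp only [funext_iff, pair, Function.comp, Prod.mk.injEq, forall_and]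
  · intro σ hσ
    simp only [coe_filter, mem_univ, true_and, Set.mem_ofPred_eq] at hσ
    rw [mem_coe, mem_Sk, ← h, ← cnt_comp_perm (pair f g1) σ]
    congr 1
    funext v
    simp only [pair, Function.comp]
    rw [← congrFun hσ v]
    rfl

lemma card_Sk_le [Fintype A] [Fintype B] (f : V → A) (k : A × B → ℕ) :
    (#(Sk f k) : ℝ) ≤ PiF (cnt f) / PiF k := by
  rw [le_div_iff₀ (by exact_mod_cast PiF_pos k)]
  rcases (Sk f k).eq_empty_or_nonempty with h | ⟨g, h⟩
  · simp [h]
  · exact_mod_cast (card_Sk h).le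

/-- permutations of given edge type -/
noncomputable def Tk [Fintype A] (x : V → A) (k : A × A → ℕ) : Finset (Equiv.Perm V) :=
  {τ | cnt (pair x (x ∘ τ)) = k}

@[simp] lemma mem_Tk [Fintype A] {x : V → A} {k : A × A → ℕ} {τ : Equiv.Perm V} :
    τ ∈ Tk x k ↔ cnt (pair x (x ∘ τ)) = k := by simp [Tk]

lemma card_Tk [Fintype A] {x x0 B0 : V → A} (hx : cnt x = cnt x0) (hB : cnt B0 = cnt x0) :
    #(Tk x (cnt (pair x0 B0))) * PiF (cnt (pair x0 B0)) = PiF (cnt x0) ^ 2 := by
  obtain ⟨σ, rfl⟩ := exists_perm hx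
  have h1 : B0 ∘ σ ∈ Sk (x0 ∘ σ) (cnt (pair x0 B0)) := by
    rw [mem_Sk]; exact cnt_comp_perm (pair x0 B0) σ
  rw [card_eq_sum_card_fiberwise (f := fun τ : Equiv.Perm V => (x0 ∘ σ) ∘ τ)
    (t := Sk (x0 ∘ σ) (cnt (pair x0 B0))) (fun τ hτ => by simpa using hτ)]
  rw [sum_congr rfl (g := fun _ => PiF (cnt x0)) fun g hg => ?_, sum_const, smul_eq_mul,
    mul_right_comm, card_Sk h1, hx, sq]
  rw [Tk, filter_filter, ← hx]
  refine card_perm_eq (g := g) ?_ _ fun τ => ⟨fun h => h.2, fun h => ⟨h ▸ mem_Sk.1 hg, h⟩⟩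
  have := cnt_comp (mem_Sk.1 hg) Prod.snd
  rw [hx, ← hB]
  exact this

/-- joint type of a partial injection -/
noncomputable def kk (y : V → A) (z : V → Option A) : A × Option V → ℕ
  | (c, none) => cnt y c - cnt z (some c)
  | (c, some v) => if z v = some c then 1 else 0

lemma PiF_kk [Fintype A] (y : V → A) (z : V → Option A) :
    PiF (kk y z) = PiF fun c => cnt y c - cnt z (some c) := by
  unfold PiF
  rw [Fintype.prod_prod_type]
  refine prod_congr rfl fun c _ => ?_
  rw [Fintype.prod_option, prod_eq_one, mul_one]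
  · rfl
  · intro v _
    simp only [kk]
    split_ifs <;> rfl

lemma exists_pinj (y : V → A) (z : V → Option A) (st : V → V)
    (hinj : ∀ v v', z v ≠ none → z v' ≠ none → st v = st v' → v = v')
    (hy : ∀ v c, z v = some c → y (st v) = c) :
    ∃ g : V → Option V, g ∈ Sk y (kk y z) ∧ ∀ w v, g w = some v → z v ≠ none ∧ st v = w := by
  let g : V → Option V := fun w => if h : ∃ v, z v ≠ none ∧ st v = w then some h.choose else none
  have hg : ∀ w v, g w = some v ↔ z v ≠ none ∧ st v = w := by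
    intro w v
    simp only [g]
    split_ifs with h
    · have := h.choose_spec
      constructor
      · intro e; rw [← Option.some.inj e]; exact this
      · intro e; rw [hinj _ _ this.1 e.1 (this.2.trans e.2.symm)]
    · constructor
      · intro e; cases e
      · intro e; exact absurd ⟨v, e⟩ h
  refine ⟨g, mem_Sk.2 ?_, fun w v => (hg w v).1⟩
  funext ⟨c, o⟩
  cases o with
  | some v =>
    simp only [kk]
    rw [cnt_eq _ _ (fun w => y w = c ∧ z v ≠ none ∧ st v = w) (by simp [pair, hg])]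
    split_ifs with h
    · rw [card_eq_one]
      refine ⟨st v, ?_⟩
      ext w
      simp only [mem_filter, mem_univ, true_and, mem_singleton]
      exact ⟨fun h => h.2.2.symm, fun e => by rw [e]; exact ⟨hy _ _ h, by simp [h], rfl⟩⟩
    · rw [card_eq_zero, filter_eq_empty_iff]
      rintro w - ⟨h1, h2, rfl⟩
      obtain ⟨c', hc'⟩ := Option.ne_none_iff_exists'.1 h2
      rw [hy _ _ hc'] at h1
      exact h (h1 ▸ hc')
  | none =>
    simp only [kk]
    rw [cnt_eq _ _ (fun w => y w = c ∧ g w = none) (by simp [pair])]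
    have h1 := card_filter_add_card_filter_not (s := ({w | y w = c} : Finset V))
      (fun w => g w = none)
    rw [filter_filter, filter_filter] at h1
    have h2 : cnt z (some c) = #{w | y w = c ∧ ¬ g w = none} := by
      rw [cnt_eq z (some c) (fun v => z v = some c) fun _ => Iff.rfl]
      refine card_bij (fun v _ => st v) (fun v hv => ?_) (fun v hv v' hv' e => ?_) fun w hw => ?_
      · have hv := (mem_filter.1 hv).2
        refine mem_filter.2 ⟨mem_univ _, hy _ _ hv, ?_⟩
        rw [(hg _ v).2 ⟨by simp [hv], rfl⟩]; simp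
      · exact hinj _ _ (by simp [(mem_filter.1 hv).2]) (by simp [(mem_filter.1 hv').2]) e
      · obtain ⟨h3, h4⟩ := (mem_filter.1 hw).2
        obtain ⟨v, hv⟩ := Option.ne_none_iff_exists'.1 h4
        obtain ⟨h5, rfl⟩ := (hg _ _).1 hv
        obtain ⟨c', hc'⟩ := Option.ne_none_iff_exists'.1 h5
        rw [hy _ _ hc'] at h3
        exact ⟨v, mem_filter.2 ⟨mem_univ _, h3 ▸ hc'⟩, rfl⟩
    rw [h2]
    unfold cnt
    omega

lemma cnt_none [Fintype A] {y : V → A} {z : V → Option A} {g : V → Option V}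
    (h : g ∈ Sk y (kk y z)) : cnt g none = ∑ c, (cnt y c - cnt z (some c)) := by
  rw [mem_Sk] at h
  rw [cnt_eq g none (fun v => g v = none) fun _ => Iff.rfl, card_eq_sum_card_fiberwise (f := y) (t := univ) (fun _ _ => by simp)]
  refine sum_congr rfl fun c _ => ?_
  have := congrFun h (c, none)
  simp only [kk] at this
  rw [← this, filter_filter]
  exact (cnt_eq _ _ _ (by simp [pair, and_comm])).symm

end Pool.Agent.Lib.MP_572a3e_an
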