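import Pool.Agent.Lib.MP_572a3e_an.Extra
import Pool.Agent.Lib.MP_572a3e_an.Count

namespace Pool.Agent.Lib.MP_572a3e_an

open FreeGroup Classical Finset

variable {S : Type*} [DecidableEq S]

abbrev Ball (S : Type*) [DecidableEq S] (ρ : ℕ) := {g : FreeGroup S // g.norm ≤ ρ}

lemma finite_ball [Finite S] (ρ : ℕ) : {g : FreeGroup S | g.norm ≤ ρ}.Finite :=
  (List.finite_length_le (S × Bool) ρ).preimage (f := toWord) toWord_injective.injOn

noncomputable instance [Finite S] (ρ : ℕ) : Fintype (Ball S ρ) := (finite_ball ρ).fintype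

def ctr (ρ : ℕ) : Ball S ρ := ⟨1, by simp⟩

lemma decomp {g : FreeGroup S} (h : g ≠ 1) : ∃ g' l, g = g' * lt l ∧ g'.norm < g.norm := by
  have h1 : g.toWord ≠ [] := by simpa using h
  obtain ⟨w, l, hw⟩ := (List.eq_nil_or_concat g.toWord).resolve_left h1
  refine ⟨FreeGroup.mk w, l, ?_, ?_⟩
  · rw [lt, mul_mk, ← List.concat_eq_append, ← hw, mk_toWord]
  · have : g.norm = w.length + 1 := by simp [FreeGroup.norm, hw]
    have := norm_mk_le (L₁ := w)
    omega

def Cons {A : Type*} {ρ : ℕ} (s : S) (p p' : Ball S ρ → A) : Prop :=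
  ∀ g g' : Ball S ρ, g'.1 = g.1 * of s → p' g = p g'

def res {A : Type*} (ρ : ℕ) (ω : FreeGroup S → A) : Ball S ρ → A := fun g => ω g.1

lemma model_eq {A V : Type*} {ρ : ℕ} {x : V → Ball S ρ → A} {τ : S → Equiv.Perm V}
    (h : ∀ s v, Cons s (x v) (x (τ s v))) (g : Ball S ρ) (v : V) :
    x v g = x (FreeGroup.lift τ g.1 v) (ctr ρ) := by
  obtain ⟨g, hg⟩ := g
  induction hn : g.norm using Nat.strong_induction_on generalizing g v with
  | _ n ih =>
    by_cases h1 : g = 1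
    · subst h1; simp [ctr]
    · obtain ⟨g', l, e, hlt⟩ := decomp h1
      have hg' : g'.norm ≤ ρ := by omega
      have := ih _ (hn ▸ hlt) (FreeGroup.lift τ (lt l) v) g' hg' rfl
      simp only [e, _root_.map_mul, Equiv.Perm.mul_apply] at this ⊢
      rw [← this]
      rcases l with ⟨s, _ | _⟩
      · have h2 := h s (FreeGroup.lift τ (lt (s, false)) v) ⟨g' * lt (s, false), e ▸ hg⟩ ⟨g', hg'⟩
          (by simp [lt_false])
        rw [← h2]
        simp [lt_false]
      · have h2 := h s v ⟨g', hg'⟩ ⟨g' * lt (s, true), e ▸ hg⟩ rfl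
        rw [← h2]
        simp [lt_true]

variable [Fintype S] {V A : Type*} [Fintype V] [Fintype A] {ρ : ℕ}
  (a : S → A → FreeGroup S) (b : S × Bool → A → FreeGroup S)
  (z : S → (Ball S ρ → A) → Option A) (ℓ : S → (Ball S ρ → A) → ℕ)
  (hz : ∀ u ω c, z u (res ρ ω) = some c → (cfg a b).g4 u ω ∧ (cfg a b).step (u, true) ω 1 = c)
  (hℓ : ∀ s ω, ¬ (cfg a b).g5 s ω → (a s (ω 1)).norm ≤ ℓ s (res ρ ω))

omit [Fintype A] in
include hz hℓ in
lemma model_struct {x : V → Ball S ρ → A} {τ : S → Equiv.Perm V}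
    (h : ∀ s v, Cons s (x v) (x (τ s v))) :
    ∃ g : S → V → Option V, (∀ u, g u ∈ Sk (fun v => x v (ctr ρ))
      (kk (fun v => x v (ctr ρ)) (z u ∘ x))) ∧
      (∀ u w v, g u w = some v →
        (sysOf (fun s v => a s (x v (ctr ρ))) (fun l v => b l (x v (ctr ρ))) τ).g4 u v ∧
        (sysOf (fun s v => a s (x v (ctr ρ))) (fun l v => b l (x v (ctr ρ))) τ).step
          (u, true) v = w) ∧
      (sysOf (fun s v => a s (x v (ctr ρ))) (fun l v => b l (x v (ctr ρ))) τ).cost ≤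
        ∑ s, ∑ v, ℓ s (x v) := by
  set Z := sysOf (fun s v => a s (x v (ctr ρ))) (fun l v => b l (x v (ctr ρ))) τ with hZ
  let π : V → FreeGroup S → A := fun v g => x (FreeGroup.lift τ g v) (ctr ρ)
  have hom : Z.Hom (cfg a b) π :=
    ⟨fun g v => by funext k; simp [π, hZ, sysOf, cfg], fun s v => by simp [π, hZ, sysOf, cfg],
      fun s v => by simp [π, hZ, sysOf, cfg]⟩
  have hres : ∀ v, res ρ (π v) = x v := fun v => by
    funext g; exact (model_eq h g v).symm
  have h4 : ∀ u v c, z u (x v) = some c → Z.g4 u v ∧ x (Z.step (u, true) v) (ctr ρ) = c := by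
    intro u v c hc
    rw [← hres] at hc
    obtain ⟨h1, h2⟩ := hz u _ c hc
    rw [← hom.g4] at h1
    rw [← hom.step] at h2
    exact ⟨h1, by simpa [π] using h2⟩
  have h4' : ∀ u v, z u (x v) ≠ none → Z.g4 u v := fun u v hv => by
    obtain ⟨c, hc⟩ := Option.ne_none_iff_exists'.1 hv
    exact (h4 u v c hc).1
  have := fun u => exists_pinj (fun v => x v (ctr ρ)) (z u ∘ x) (Z.step (u, true))
    (fun v v' hv hv' e => by
      rw [← Z.g1_step (h4' u v hv).1, e, Z.g1_step (h4' u v' hv').1])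
    (fun v c hc => (h4 u v c hc).2)
  choose g hg1 hg2 using this
  refine ⟨g, hg1, fun u w v e => ⟨h4' u v (hg2 u w v e).1, (hg2 u w v e).2⟩, ?_⟩
  rw [Sys.cost, Fintype.sum_prod_type]
  refine sum_le_sum fun s _ => sum_le_sum fun v _ => ?_
  split_ifs with h5
  · exact Nat.zero_le _
  · rw [hom.g5] at h5
    have := hℓ s _ h5
    rw [hres] at this
    simpa [π, hZ, sysOf] using this

include hz hℓ in
theorem fin_count [Nonempty V] [Nonempty S] (x0 : V → Ball S ρ → A) (B : S → V → Ball S ρ → A)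
    (hB : ∀ s, cnt (B s) = cnt x0) (hC : ∀ s v, Cons s (x0 v) (B s v))
    (m0 J : ℕ) (hm : ∑ s, ∑ v, ℓ s (x0 v) = m0) (hm0 : m0 ≤ Fintype.card V)
    (hJ : ∑ u, ∑ c, (cnt (fun v => x0 v (ctr ρ)) c - cnt (z u ∘ x0) (some c)) = J)
    {l : ℝ} (hl0 : 0 < l) (hl1 : l ≤ 1) :
    ((Fintype.card V).factorial / PiF (cnt x0) : ℝ) *
      ∏ s, (PiF (cnt x0) ^ 2 / PiF (cnt (pair x0 (B s))) : ℝ) ≤
    ((Fintype.card V).factorial / PiF (cnt fun v => x0 v (ctr ρ)) : ℝ) *
      (∏ u, (PiF (cnt fun v => x0 v (ctr ρ)) /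
        PiF (cnt (pair (fun v => x0 v (ctr ρ)) (z u ∘ x0))) : ℝ) *
        (PiF (cnt fun v => x0 v (ctr ρ)) /
          PiF (fun c => cnt (fun v => x0 v (ctr ρ)) c - cnt (z u ∘ x0) (some c)) : ℝ)) *
      ((5 * Fintype.card S * Fintype.card V / l) ^ J *
        (5 * Fintype.card S / l ^ 2) ^ m0 * Real.exp (2 * l * Fintype.card V)) := by
  set y0 : V → A := fun v => x0 v (ctr ρ) with hy0
  set Xb : ℝ := (5 * Fintype.card S * Fintype.card V / l) ^ J *
        (5 * Fintype.card S / l ^ 2) ^ m0 * Real.exp (2 * l * Fintype.card V) with hXb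
  let 𝓜 : Finset (Σ _ : V → Ball S ρ → A, S → Equiv.Perm V) :=
    (Ty (cnt x0)).sigma fun x => Fintype.piFinset fun s => Tk x (cnt (pair x0 (B s)))
  let 𝒩 : Finset (Σ _ : V → A, S → Σ _ : V → Option A, V → Option V) :=
    (Ty (cnt y0)).sigma fun y => Fintype.piFinset fun u =>
      (Sk y (cnt (pair y0 (z u ∘ x0)))).sigma fun zz => Sk y (kk y zz)
  have e1 : (#𝓜 : ℝ) = ((Fintype.card V).factorial / PiF (cnt x0) : ℝ) *
      ∏ s, (PiF (cnt x0) ^ 2 / PiF (cnt (pair x0 (B s))) : ℝ) := by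
    rw [card_sigma, Nat.cast_sum, sum_congr rfl (g := fun _ =>
      ∏ s, (PiF (cnt x0) ^ 2 / PiF (cnt (pair x0 (B s))) : ℝ)) fun x hx => ?_, sum_const,
      nsmul_eq_mul]
    · congr 1
      rw [eq_div_iff (by exact_mod_cast (PiF_pos _).ne')]
      exact_mod_cast card_Ty x0
    · rw [Fintype.card_piFinset, Nat.cast_prod]
      refine prod_congr rfl fun s _ => ?_
      rw [eq_div_iff (by exact_mod_cast (PiF_pos _).ne')]
      exact_mod_cast card_Tk (mem_Ty.1 hx) (hB s)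
  have hq : ∀ u (y : V → A) (zz : V → Option A), cnt (pair y zz) = cnt (pair y0 (z u ∘ x0)) →
      (fun c => cnt y c - cnt zz (some c)) = fun c => cnt y0 c - cnt (z u ∘ x0) (some c) := by
    intro u y zz h
    have k1 : cnt y = cnt y0 := cnt_comp h Prod.fst
    have k2 : cnt zz = cnt (z u ∘ x0) := cnt_comp h Prod.snd
    rw [k1, k2]
  have e2 : (#𝒩 : ℝ) ≤ ((Fintype.card V).factorial / PiF (cnt y0) : ℝ) *
      (∏ u, (PiF (cnt y0) / PiF (cnt (pair y0 (z u ∘ x0))) : ℝ) *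
        (PiF (cnt y0) / PiF (fun c => cnt y0 c - cnt (z u ∘ x0) (some c)) : ℝ)) := by
    rw [card_sigma, Nat.cast_sum]
    refine (sum_le_card_nsmul _ _ (∏ u, (PiF (cnt y0) / PiF (cnt (pair y0 (z u ∘ x0))) : ℝ) *
        (PiF (cnt y0) / PiF (fun c => cnt y0 c - cnt (z u ∘ x0) (some c)) : ℝ))
        fun y hy => ?_).trans (le_of_eq ?_)
    · rw [Fintype.card_piFinset, Nat.cast_prod]
      refine prod_le_prod (fun _ _ => by positivity) fun u _ => ?_
      rw [card_sigma, Nat.cast_sum]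
      refine (sum_le_card_nsmul _ _
        (PiF (cnt y0) / PiF (fun c => cnt y0 c - cnt (z u ∘ x0) (some c)) : ℝ)
        fun zz hzz => ?_).trans ?_
      · have := card_Sk_le y (kk y zz)
        rwa [PiF_kk, hq u y zz (mem_Sk.1 hzz), mem_Ty.1 hy] at this
      · rw [nsmul_eq_mul]
        have := card_Sk_le y (cnt (pair y0 (z u ∘ x0)))
        rw [mem_Ty.1 hy] at this
        gcongr
    · rw [nsmul_eq_mul]
      congr 1
      rw [eq_div_iff (by exact_mod_cast (PiF_pos _).ne')]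
      exact_mod_cast card_Ty y0
  have hcons : ∀ p ∈ 𝓜, ∀ s v, Cons s (p.1 v) (p.1 (p.2 s v)) := by
    rintro ⟨x, τ⟩ hp s v
    have := mem_Tk.1 (Fintype.mem_piFinset.1 (mem_sigma.1 hp).2 s)
    obtain ⟨w, hw⟩ := exists_of_cnt this v
    simp only [pair, Function.comp, Prod.mk.injEq] at hw
    have := hC s w
    rwa [hw.1, hw.2] at this
  have := fun p : 𝓜 => model_struct a b z ℓ hz hℓ (hcons p.1 p.2)
  choose g hg1 hg2 hg3 using this
  let F : 𝓜 → (Σ _ : V → A, S → Σ _ : V → Option A, V → Option V) :=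
    fun p => ⟨fun v => p.1.1 v (ctr ρ), fun u => ⟨z u ∘ p.1.1, g p u⟩⟩
  have hF : ∀ p, F p ∈ 𝒩 := by
    intro p
    have hx := mem_Ty.1 (mem_sigma.1 p.2).1
    refine mem_sigma.2 ⟨mem_Ty.2 (cnt_comp hx fun q => q (ctr ρ)),
      Fintype.mem_piFinset.2 fun u => mem_sigma.2 ⟨mem_Sk.2 ?_, hg1 p u⟩⟩
    exact cnt_comp hx fun q => (q (ctr ρ), z u q)
  have e3 : (#𝓜 : ℝ) ≤ #𝒩 * Xb := by
    rw [← Fintype.card_coe, ← card_univ, card_eq_sum_card_fiberwise (f := F) (t := 𝒩)
      (fun p _ => hF p), Nat.cast_sum, ← nsmul_eq_mul]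
    refine sum_le_card_nsmul _ _ _ fun d hd => ?_
    obtain ⟨y, d⟩ := d
    have hJ' : Jn (fun u => (d u).2) = J := by
      rw [← hJ, Jn, card_eq_sum_card_fiberwise (f := Prod.fst) (t := univ) (fun _ _ => by simp)]
      refine sum_congr rfl fun u _ => ?_
      have k := mem_sigma.1 (Fintype.mem_piFinset.1 (mem_sigma.1 hd).2 u)
      have k1 := cnt_none k.2
      have k2 := hq u _ _ (mem_Sk.1 k.1)
      simp only at k1 k2
      rw [← k2, ← k1, cnt_eq _ _ (fun v => (d u).2 v = none) fun _ => Iff.rfl]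
      refine card_bij (fun t _ => t.2) (fun t ht => ?_) (fun t ht t' ht' e => ?_) fun v hv => ?_
      · simp only [mem_filter, mem_univ, true_and] at ht ⊢
        rw [← ht.2]; exact ht.1
      · simp only [mem_filter, mem_univ, true_and] at ht ht'
        exact Prod.ext (ht.2.trans ht'.2.symm) e
      · exact ⟨(u, v), by simpa using hv, rfl⟩
    have k := extra (fun s v => a s (y v)) (fun l v => b l (y v)) (fun u => (d u).2) m0 hm0 hl0 hl1
      (({p | F p = ⟨y, d⟩} : Finset 𝓜).image fun p => p.1.2) (by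
        intro τ hτ
        obtain ⟨p, hp, rfl⟩ := mem_image.1 hτ
        have hp := (mem_filter.1 hp).2
        simp only [F, Sigma.mk.injEq, heq_eq_eq] at hp
        obtain ⟨rfl, rfl⟩ := hp
        refine ⟨hg2 p, (hg3 p).trans (le_of_eq ?_)⟩
        rw [← hm]
        refine sum_congr rfl fun s _ => ?_
        rw [← sum_cnt p.1.1 (ℓ s), ← sum_cnt x0 (ℓ s), mem_Ty.1 (mem_sigma.1 p.2).1])
    rw [hJ', card_image_of_injOn] at k
    · exact k
    · intro p hp p' hp' e
      have hp := (mem_filter.1 hp).2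
      have hp' := (mem_filter.1 hp').2
      have k1 := congrArg Sigma.fst (hp.trans hp'.symm)
      simp only [F] at k1 e
      refine Subtype.ext (Sigma.ext ?_ (heq_of_eq e))
      funext v g
      rw [model_eq (hcons p.1 p.2) g v, model_eq (hcons p'.1 p'.2) g v, e]
      exact congrFun k1 _
  rw [← e1]
  refine e3.trans ?_
  gcongr

end Pool.Agent.Lib.MP_572a3e_an
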