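import Pool.Agent.Lib.MP_572a3e_an.Ent
import Pool.Agent.Lib.MP_572a3e_an.Model

namespace Pool.Agent.Lib.MP_572a3e_an

open MeasureTheory Filter Topology Real ENNReal Classical FreeGroup

variable {X Y A B C : Type*} [MeasurableSpace X] [MeasurableSpace Y] {μ : Measure X}
  {ν : Measure Y} [IsProbabilityMeasure μ] [IsProbabilityMeasure ν]
  [Countable A] [Countable B] [Countable C]

structure FE (μ : Measure X) (ξ : X → A) : Prop where
  meas : Meas ξ
  fin : He μ ξ ≠ ∞

lemma FE.pair {ξ : X → A} {η : X → B} (h : FE μ ξ) (h' : FE μ η) : FE μ (pair ξ η) :=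
  ⟨h.meas.pair h'.meas, ne_top_of_le_ne_top (add_ne_top.2 ⟨h.fin, h'.fin⟩)
    (He_pair_le h.meas h'.meas)⟩

omit [Countable A] in
lemma FE.of_le {ξ : X → A} {η : X → B} (h : FE μ η) (h' : Le ξ η) : FE μ ξ :=
  ⟨h.meas.of_le h', ne_top_of_le_ne_top h.fin (He_mono h')⟩

lemma FE.comp {ξ : X → A} (h : FE μ ξ) {f : Y → X} (hf : MeasurePreserving f ν μ) :
    FE ν fun y => ξ (f y) := ⟨h.meas.comp_meas hf.measurable, by rw [He_comp h.meas hf]; exact h.fin⟩

omit [Countable A] in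
lemma FE.of_finite [Finite A] {ξ : X → A} (h : Meas ξ) : FE μ ξ := ⟨h, He_fin h⟩

lemma FE.unit : FE μ fun _ : X => () := FE.of_finite (Meas.const _)

lemma FE.piFinset {ι : Type*} {ξ : ι → X → A} (h : ∀ i, FE μ (ξ i)) (K : Finset ι) :
    FE μ fun x (i : K) => ξ i x := by
  induction K using Finset.induction_on with
  | empty => exact FE.unit.of_le fun _ _ _ => funext fun i => absurd i.2 (Finset.notMem_empty _)
  | insert a K _ ih =>
    refine ((h a).pair ih).of_le fun x y e => funext fun i => ?_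
    rcases Finset.mem_insert.1 i.2 with h1 | h1
    · rw [h1]; exact congrArg Prod.fst e
    · exact congrFun (congrArg Prod.snd e) ⟨i, h1⟩

lemma FE.pi {ι : Type*} [Finite ι] {ξ : ι → X → A} (h : ∀ i, FE μ (ξ i)) :
    FE μ fun x i => ξ i x := by
  have := Fintype.ofFinite ι
  exact (FE.piFinset h Finset.univ).of_le fun x y e => funext fun i =>
    congrFun e ⟨i, Finset.mem_univ _⟩

lemma FE.resE {ξ : X → A} (h : FE μ ξ) {E : Set X} (hE : MeasurableSet E) : FE μ (resE E ξ) := by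
  have : Meas fun x => x ∈ E := Meas.of_le ((Meas.const ()).resE hE) fun x y e => by
    by_cases hx : x ∈ E <;> by_cases hy : y ∈ E <;> simp_all [Pool.Agent.Lib.MP_572a3e_an.resE]
  refine (h.pair (FE.of_finite this)).of_le fun x y e => ?_
  simp only [Pool.Agent.Lib.MP_572a3e_an.pair, Prod.mk.injEq] at e
  simp only [Pool.Agent.Lib.MP_572a3e_an.resE, e.1, e.2]

omit [Countable A] in
lemma H_nonneg (ξ : X → A) : 0 ≤ H μ ξ := tsum_nonneg fun _ => nml_nonneg _

lemma H_unit : H μ (fun _ : X => ()) = 0 := by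
  simp [H]

lemma H_mono {ξ : X → A} {η : X → B} (h : FE μ η) (h' : Le ξ η) : H μ ξ ≤ H μ η := by
  rw [H_eq h.meas, H_eq (h.of_le h').meas]
  exact toReal_mono h.fin (He_mono h')

lemma H_congr {ξ : X → A} {η : X → B} (h : FE μ η) (h' : Le ξ η) (h'' : Le η ξ) :
    H μ ξ = H μ η := le_antisymm (H_mono h h') (H_mono (h.of_le h') h'')

lemma H_submod {ξ : X → A} {η : X → B} {ζ : X → C} (hξ : FE μ ξ) (hη : FE μ η)
    (h1 : Le ζ ξ) (h2 : Le ζ η) : H μ (pair ξ η) + H μ ζ ≤ H μ ξ + H μ η := by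
  rw [H_eq hξ.meas, H_eq hη.meas, H_eq (hξ.pair hη).meas, H_eq (hξ.of_le h1).meas,
    ← toReal_add (hξ.pair hη).fin (hξ.of_le h1).fin, ← toReal_add hξ.fin hη.fin]
  exact toReal_mono (add_ne_top.2 ⟨hξ.fin, hη.fin⟩) (He_submod hξ.meas hη.meas h1 h2)

lemma H_pair_le {ξ : X → A} {η : X → B} (hξ : FE μ ξ) (hη : FE μ η) :
    H μ (pair ξ η) ≤ H μ ξ + H μ η := by
  have := H_submod (ζ := fun _ => ()) hξ hη (fun _ _ _ => rfl) fun _ _ _ => rfl
  rwa [H_unit, add_zero] at this

lemma tendsto_H_of_He {D : ℕ → Type*} [∀ n, Countable (D n)] {ξ : ∀ n, X → D n}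
    (h : ∀ n, Meas (ξ n)) (h0 : Tendsto (fun n => He μ (ξ n)) atTop (𝓝 0)) :
    Tendsto (fun n => H μ (ξ n)) atTop (𝓝 0) := by
  simp only [fun n => H_eq (μ := μ) (h n)]
  exact (tendsto_toReal zero_ne_top).comp h0

variable {S : Type*} [Fintype S] [MulAction (FreeGroup S) X]

def sh (g : FreeGroup S) (ξ : X → A) : X → A := fun x => ξ (g • x)

noncomputable def F2 (S : Type*) [Fintype S] [MulAction (FreeGroup S) X] (μ : Measure X)
    (ξ : X → A) : ℝ :=
  (1 - 2 * Fintype.card S) * H μ ξ + ∑ s : S, H μ (pair ξ (sh (of s) ξ))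

variable (hT : ∀ g : FreeGroup S, MeasurePreserving (fun x : X => g • x) μ μ)
include hT

omit [Fintype S] in
lemma FE.sh {ξ : X → A} (h : FE μ ξ) (g : FreeGroup S) : FE μ (sh g ξ) := h.comp (hT g)

omit [Fintype S] [Countable A] [IsProbabilityMeasure μ] in
lemma H_sh {ξ : X → A} (h : FE μ ξ) (g : FreeGroup S) : H μ (sh g ξ) = H μ ξ :=
  H_comp h.meas (hT g)

lemma F_eq {ξ : X → A} (h : FE μ ξ) : F S μ ξ = F2 S μ ξ := by
  unfold F F2
  congr 1
  refine Finset.sum_congr rfl fun s _ => ?_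
  have h1 := h.pair (h.sh hT (of s))
  rw [← H_sh hT h1 (of s)⁻¹]
  refine H_congr (h1.sh hT _) (fun x y e => ?_) fun x y e => ?_
  · simp only [sh, pair, smul_inv_smul, Prod.mk.injEq] at e
    funext ⟨k, hk⟩
    rcases hk with rfl | rfl
    · simpa [obs] using e.2
    · exact e.1
  · simp only [sh, pair, smul_inv_smul, Prod.mk.injEq]
    exact ⟨congrFun e ⟨of s, Or.inr rfl⟩, by simpa [obs] using congrFun e ⟨1, Or.inl rfl⟩⟩

omit [IsProbabilityMeasure μ] [Countable A] in
lemma F2_congr_ae {ξ η : X → A} (h : ξ =ᵐ[μ] η) : F2 S μ ξ = F2 S μ η := by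
  unfold F2
  rw [H_congr_ae h]
  congr 1
  refine Finset.sum_congr rfl fun s _ => H_congr_ae ?_
  filter_upwards [h, (hT (of s)).quasiMeasurePreserving.ae h] with x h1 h2
  simp only [pair, sh, h1, h2]

variable [Nonempty S]

lemma F2_perturb {D : Type*} [Countable D] {ξ : X → A} {ξ' : X → B} {χ : X → C} {χ' : X → D}
    (hξ : FE μ ξ) (hχ : FE μ χ) (hχ' : FE μ χ') (h1 : Le ξ (pair ξ' χ)) (h2 : Le ξ' (pair ξ χ')) :
    F2 S μ ξ' ≤ F2 S μ ξ + (2 * Fintype.card S - 1) * H μ χ + 2 * Fintype.card S * H μ χ' := by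
  have hξ' := (hξ.pair hχ').of_le h2
  have e1 := (H_mono (hξ'.pair hχ) h1).trans (H_pair_le hξ' hχ)
  have e2 : ∀ s : S, H μ (pair ξ' (sh (of s) ξ')) ≤ H μ (pair ξ (sh (of s) ξ)) + 2 * H μ χ' := by
    intro s
    have k1 := hξ.pair (hξ.sh hT (of s))
    have k2 := hχ'.pair (hχ'.sh hT (of s))
    have k3 := H_pair_le hχ' (hχ'.sh hT (of s))
    rw [H_sh hT hχ'] at k3
    refine (H_mono (k1.pair k2) fun x y e => ?_).trans ((H_pair_le k1 k2).trans (by linarith))
    simp only [pair, sh, Prod.mk.injEq] at e ⊢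
    exact ⟨h2 _ _ (Prod.ext e.1.1 e.2.1), h2 _ _ (Prod.ext e.1.2 e.2.2)⟩
  have e3 := Finset.sum_le_sum fun s (_ : s ∈ Finset.univ) => e2 s
  simp only [Finset.sum_add_distrib, Finset.sum_const, Finset.card_univ, nsmul_eq_mul] at e3
  have hr : (1 : ℝ) ≤ Fintype.card S := by exact_mod_cast Fintype.card_pos
  unfold F2
  nlinarith

omit [Nonempty S] in
lemma F2_congr {ξ : X → A} {ξ' : X → B} (hξ : FE μ ξ) (h1 : Le ξ ξ') (h2 : Le ξ' ξ) :
    F2 S μ ξ' = F2 S μ ξ := by
  have key : ∀ s : S, H μ (pair ξ' (sh (of s) ξ')) = H μ (pair ξ (sh (of s) ξ)) := fun s =>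
    H_congr (hξ.pair (hξ.sh hT _))
      (fun x y e => Prod.ext (h2 _ _ (congrArg Prod.fst e)) (h2 _ _ (congrArg Prod.snd e)))
      (fun x y e => Prod.ext (h1 _ _ (congrArg Prod.fst e)) (h1 _ _ (congrArg Prod.snd e)))
  simp only [F2, key, H_congr hξ h2 h1]

omit [Nonempty S] in
lemma F2_split {ξ : X → A} {η : X → B} (hη : FE μ η) (h : Le ξ η) (l : S × Bool) :
    F2 S μ (pair η (sh (lt l) ξ)) ≤ F2 S μ η := by
  have hξ := hη.of_le h
  set η' := pair η (sh (lt l) ξ) with hη'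
  have h' : FE μ η' := hη.pair (hξ.sh hT _)
  have hle : Le η η' := fun x y e => congrArg Prod.fst e
  have e2 : ∀ s : S, H μ (pair η' (sh (of s) η')) ≤ H μ (pair η (sh (of s) η)) +
      (2 * (H μ η' - H μ η) - if s = l.1 then H μ η' - H μ η else 0) := by
    intro s
    have k1 := hη.pair (hη.sh hT (of s))
    have a1 := H_submod k1 h' (ζ := η) (fun x y e => congrArg Prod.fst e) hle
    have a2 := H_submod k1 (h'.sh hT (of s)) (ζ := sh (of s) η) (fun x y e => congrArg Prod.snd e)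
      (fun x y e => hle _ _ e)
    have a3 := H_submod (k1.pair h') (h'.sh hT (of s)) (ζ := sh (of s) η)
      (fun x y e => congrArg (fun p => p.1.2) e) (fun x y e => hle _ _ e)
    rw [H_sh hT hη, H_sh hT h'] at a2 a3
    split_ifs with hs
    · rcases l with ⟨s', _ | _⟩
      · subst hs
        refine (H_mono (k1.pair h') fun x y e => ?_).trans (by linarith)
        simp only [hη', pair, sh, Prod.mk.injEq, lt_false, inv_smul_smul] at e ⊢
        exact ⟨e.2, e.1.2, h _ _ e.1.1⟩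
      · subst hs
        refine (H_mono (k1.pair (h'.sh hT (of s))) fun x y e => ?_).trans (by linarith)
        simp only [hη', pair, sh, Prod.mk.injEq, lt_true] at e ⊢
        exact ⟨⟨e.1.1, h _ _ e.1.2⟩, e.2⟩
    · refine (H_mono ((k1.pair h').pair (h'.sh hT (of s))) fun x y e => ?_).trans (by linarith)
      exact congrArg (fun p => (p.1.2, p.2)) e
  have e3 := Finset.sum_le_sum fun s (_ : s ∈ Finset.univ) => e2 s
  simp only [Finset.sum_add_distrib, Finset.sum_sub_distrib, Finset.sum_const, Finset.card_univ,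
    nsmul_eq_mul, Finset.sum_ite_eq', Finset.mem_univ, if_true] at e3
  unfold F2
  linarith

variable [DecidableEq S]

lemma F2_split_finset {φ : X → A} {η : X → B} (hη : FE μ η) (h : Le φ η)
    (K : Finset (FreeGroup S))
    (hK : ∀ g ∈ K, g = 1 ∨ ∃ g' ∈ K, ∃ l, g = g' * lt l ∧ g'.norm < g.norm) :
    F2 S μ (pair η fun x (g : K) => φ (g.1 • x)) ≤ F2 S μ η := by
  have hφ := hη.of_le h
  induction K using Finset.induction_on_max_value (FreeGroup.norm (α := S)) with
  | empty =>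
    refine (F2_congr hT hη (fun x y e => congrArg Prod.fst e) fun x y e => ?_).le
    exact Prod.ext e (funext fun i => absurd i.2 (Finset.notMem_empty _))
  | insert g K hg hmax ih =>
    have hK' : ∀ k ∈ insert g K, k = 1 ∨ ∃ g' ∈ K, ∃ l, k = g' * lt l ∧ g'.norm < k.norm := by
      intro k hk
      refine (hK k hk).imp id fun ⟨g', h1, l, h2, h3⟩ => ⟨g', ?_, l, h2, h3⟩
      refine (Finset.mem_insert.1 h1).resolve_left fun e => ?_
      rcases Finset.mem_insert.1 hk with e' | e'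
      · rw [e, e'] at h3; exact lt_irrefl _ h3
      · have := hmax k e'; rw [e] at h3; omega
    refine le_trans ?_ (ih fun k hk => hK' k (Finset.mem_insert_of_mem hk))
    have h1 : FE μ (pair η fun x (g : K) => φ (g.1 • x)) :=
      hη.pair (FE.piFinset (ξ := fun g x => φ (g • x)) (fun g => hφ.sh hT g) K)
    rcases hK' g (Finset.mem_insert_self _ _) with rfl | ⟨g', h2, l, rfl, -⟩
    · refine (F2_congr hT h1 (fun x y e => ?_) fun x y e => ?_).le
      · simp only [pair, Prod.mk.injEq, funext_iff] at e ⊢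
        exact ⟨e.1, fun k => e.2 ⟨k.1, Finset.mem_insert_of_mem k.2⟩⟩
      · simp only [pair, Prod.mk.injEq, funext_iff] at e ⊢
        refine ⟨e.1, fun k => ?_⟩
        rcases Finset.mem_insert.1 k.2 with e' | e'
        · rw [e', one_smul, one_smul]; exact h _ _ e.1
        · exact e.2 ⟨k.1, e'⟩
    · refine le_trans (F2_congr hT (h1.pair ((hφ.sh hT g').sh hT (lt l))) (fun x y e => ?_)
        fun x y e => ?_).le (F2_split hT h1 (ξ := sh g' φ) (fun x y e => ?_) l)
      · simp only [pair, sh, Prod.mk.injEq, funext_iff, smul_smul] at e ⊢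
        exact ⟨⟨e.1, fun k => e.2 ⟨k.1, Finset.mem_insert_of_mem k.2⟩⟩,
          e.2 ⟨_, Finset.mem_insert_self _ _⟩⟩
      · simp only [pair, sh, Prod.mk.injEq, funext_iff, smul_smul] at e ⊢
        refine ⟨e.1.1, fun k => ?_⟩
        rcases Finset.mem_insert.1 k.2 with e' | e'
        · rw [e']; exact e.2
        · exact e.1.2 ⟨k.1, e'⟩
      · exact congrFun (congrArg Prod.snd e) ⟨g', h2⟩

omit hT in
def pat (S : Type*) [DecidableEq S] [MulAction (FreeGroup S) X] (R : ℕ) (ξ : X → A) :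
    X → Ball S R → A := fun x g => ξ (g.1 • x)

omit [Nonempty S] in
lemma FE.pat {ξ : X → A} (h : FE μ ξ) (R : ℕ) : FE μ (pat S R ξ) :=
  FE.pi (ξ := fun (g : Ball S R) x => ξ (g.1 • x)) fun g => h.sh hT g.1

omit hT [MeasurableSpace X] [Countable A] [Fintype S] [Nonempty S] in
lemma le_pat (ξ : X → A) (R : ℕ) : Le ξ (pat S R ξ) := fun x y e => by
  simpa [pat, ctr] using congrFun e (ctr R)

omit hT [MeasurableSpace X] [Countable A] [Countable B] [Fintype S] [Nonempty S] in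
lemma pat_mono {ξ : X → A} {η : X → B} (h : Le ξ η) {R R' : ℕ} (hR : R ≤ R') :
    Le (pat S R ξ) (pat S R' η) := fun _ _ e =>
  funext fun g => h _ _ (congrFun e ⟨g.1, g.2.trans hR⟩)

omit hT [MeasurableSpace X] [Countable A] [Countable B] [Fintype S] [Nonempty S] in
lemma pat_pat {ξ : X → A} {η : X → B} {R R' : ℕ} (h : Le ξ (pat S R η)) :
    Le (pat S R' ξ) (pat S (R + R') η) := fun _ _ e =>
  funext fun g => h _ _ (funext fun k => by
    simpa only [pat, mul_smul] using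
      congrFun e ⟨k.1 * g.1, (FreeGroup.norm_mul_le _ _).trans (add_le_add k.2 g.2)⟩)

lemma F2_pat_le {φ : X → A} {η : X → B} (hη : FE μ η) (h : Le φ η) {R : ℕ}
    (h' : Le η (pat S R φ)) : F2 S μ (pat S R φ) ≤ F2 S μ η := by
  have hφ := hη.of_le h
  refine le_trans (F2_congr hT (hφ.pat hT R) (fun x y e => ?_) fun x y e => ?_).ge
    (F2_split_finset hT hη h (finite_ball R).toFinset fun g hg => ?_)
  · exact funext fun g => congrFun (congrArg Prod.snd e) ⟨g.1, (finite_ball R).mem_toFinset.2 g.2⟩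
  · exact Prod.ext (h' _ _ e) (funext fun g =>
      congrFun e ⟨g.1, (finite_ball R).mem_toFinset.1 g.2⟩)
  · by_cases h1 : g = 1
    · exact Or.inl h1
    · obtain ⟨g', l, e, h2⟩ := decomp h1
      simp only [Set.Finite.mem_toFinset, Set.mem_ofPred_eq] at hg ⊢
      exact Or.inr ⟨g', by omega, l, e, h2⟩

lemma F2_pat_anti {φ : X → A} (hφ : FE μ φ) : Antitone fun R => F2 S μ (pat S R φ) :=
  fun _ _ h => F2_pat_le hT (hφ.pat hT _) (le_pat _ _) (pat_mono (fun _ _ e => e) h)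

lemma F_obs_ball {φ : X → A} (hφ : FE μ φ) (R : ℕ) :
    F S μ (obs {g : FreeGroup S | g.norm ≤ R} φ) = F2 S μ (pat S R φ) := by
  have := (finite_ball (S := S) R).to_subtype
  have h1 : Le (obs {g : FreeGroup S | g.norm ≤ R} φ) (pat S R φ) := fun x y e =>
    funext fun g => congrFun e ⟨g.1⁻¹, by rw [norm_inv_eq]; exact g.2⟩
  have h2 : Le (pat S R φ) (obs {g : FreeGroup S | g.norm ≤ R} φ) := fun x y e =>
    funext fun g => by
      simpa [obs, pat] using congrFun e ⟨g.1⁻¹, by simpa [norm_inv_eq] using g.2⟩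
  rw [F_eq hT ((hφ.pat hT R).of_le h1), F2_congr hT (hφ.pat hT R) h2 h1]

end Pool.Agent.Lib.MP_572a3e_an
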