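import Mathlib

namespace Pool.Agent.Lib.MP_572a3e_an

open MeasureTheory

/-- Shannon entropy of an observable -/
noncomputable def H {X A : Type*} [MeasurableSpace X] (μ : Measure X) (φ : X → A) : ℝ :=
  ∑' a, Real.negMulLog (μ.real (φ ⁻¹' {a}))

/-- the observable `φ^{T,K}` -/
def obs {G X A : Type*} [Group G] [MulAction G X] (K : Set G) (φ : X → A) : X → K → A :=
  fun x k => φ ((k : G)⁻¹ • x)

/-- the quantity `F_μ(T,φ)` -/
noncomputable def F (S : Type*) {X A : Type*} [Fintype S] [MeasurableSpace X]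
    [MulAction (FreeGroup S) X] (μ : Measure X) (φ : X → A) : ℝ :=
  (1 - 2 * Fintype.card S) * H μ φ + ∑ s : S, H μ (obs {1, FreeGroup.of s} φ)

/-- generating observable with finite Shannon entropy -/
def FinGen (G : Type*) {X A : Type*} [Group G] [MeasurableSpace X] [MulAction G X]
    (μ : Measure X) (φ : X → A) : Prop :=
  (∀ a, MeasurableSet (φ ⁻¹' {a})) ∧
  (Summable fun a => Real.negMulLog (μ.real (φ ⁻¹' {a}))) ∧
  ∀ s, MeasurableSet s → ∃ t,
    MeasurableSet[⨆ g : G, MeasurableSpace.comap (fun x => φ (g • x)) ⊤] t ∧ s =ᵐ[μ] t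

end Pool.Agent.Lib.MP_572a3e_an
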