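import Pool.Agent.Lib.MP_572a3e_an.Defs
import Pool.Agent.Lib.MP_572a3e_an.Count

namespace Pool.Agent.Lib.MP_572a3e_an

open MeasureTheory Filter Topology Real ENNReal Classical

variable {X Y A B C : Type*} [MeasurableSpace X] [MeasurableSpace Y] {μ : Measure X}
  {ν : Measure Y}

def Meas (ξ : X → A) : Prop := ∀ s : Set A, MeasurableSet (ξ ⁻¹' s)

lemma Meas.of_fiber [Countable A] {ξ : X → A} (h : ∀ a, MeasurableSet (ξ ⁻¹' {a})) : Meas ξ := by
  let : MeasurableSpace A := ⊤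
  exact fun s => measurable_to_countable' h (by trivial)

lemma Meas.comp {ξ : X → A} (h : Meas ξ) (f : A → B) : Meas fun x => f (ξ x) :=
  fun s => h (f ⁻¹' s)

lemma Meas.comp_meas {ξ : X → A} (h : Meas ξ) {f : Y → X} (hf : Measurable f) :
    Meas fun y => ξ (f y) := fun s => hf (h s)

lemma Meas.measurable {ξ : X → A} (h : Meas ξ) [MeasurableSpace B] (f : A → B) :
    Measurable fun x => f (ξ x) := fun s _ => h (f ⁻¹' s)

lemma Meas.set {ξ : X → A} (h : Meas ξ) (p : A → Prop) : MeasurableSet {x | p (ξ x)} :=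
  h {a | p a}

lemma Meas.pair [Countable A] [Countable B] {ξ : X → A} {η : X → B} (h : Meas ξ) (h' : Meas η) :
    Meas (pair ξ η) := Meas.of_fiber fun a => by
  have : Pool.Agent.Lib.MP_572a3e_an.pair ξ η ⁻¹' {a} = ξ ⁻¹' {a.1} ∩ η ⁻¹' {a.2} := by
    ext x; simp [Pool.Agent.Lib.MP_572a3e_an.pair, Prod.ext_iff]
  rw [this]; exact (h _).inter (h' _)

lemma Meas.pi {ι : Type*} [Finite ι] [Countable A] {ξ : ι → X → A} (h : ∀ i, Meas (ξ i)) :
    Meas fun x i => ξ i x := Meas.of_fiber fun a => by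
  have : (fun x i => ξ i x) ⁻¹' {a} = ⋂ i, ξ i ⁻¹' {a i} := by
    ext x; simp [funext_iff]
  rw [this]; exact MeasurableSet.iInter fun i => h i _

lemma Meas.const (a : A) : Meas fun _ : X => a := fun s => by
  by_cases h : a ∈ s <;> simp [h]

/-- `ξ` is coarser than `η` -/
def Le (ξ : X → A) (η : X → B) : Prop := ∀ x y, η x = η y → ξ x = ξ y

omit [MeasurableSpace X] in
lemma Le.exists [Nonempty X] {ξ : X → A} {η : X → B} (h : Le ξ η) :
    ∃ f : B → A, ∀ x, ξ x = f (η x) := by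
  have : Nonempty A := ⟨ξ (Classical.arbitrary X)⟩
  obtain ⟨e, he⟩ := (Function.factorsThrough_iff (f := η) ξ).1 fun x y => h x y
  exact ⟨e, congrFun he⟩

lemma Meas.of_le {ξ : X → A} {η : X → B} (hη : Meas η) (h : Le ξ η) : Meas ξ := by
  intro s
  have : ξ ⁻¹' s = η ⁻¹' (η '' (ξ ⁻¹' s)) := by
    ext x
    refine ⟨fun hx => ⟨x, hx, rfl⟩, fun ⟨y, hy, e⟩ => ?_⟩
    rw [Set.mem_preimage, ← h _ _ e]; exact hy
  rw [this]; exact hη _

lemma lintegral_obs [Countable A] {ξ : X → A} (h : Meas ξ) (f : A → ℝ≥0∞) :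
    ∫⁻ x, f (ξ x) ∂μ = ∑' a, f a * μ (ξ ⁻¹' {a}) := by
  let : MeasurableSpace A := ⊤
  have hm : Measurable ξ := fun s _ => h s
  rw [← lintegral_map measurable_from_top hm, lintegral_countable']
  exact tsum_congr fun a => by rw [Measure.map_apply hm (by trivial)]

lemma ae_pos [Countable A] (μ : Measure X) (ξ : X → A) : ∀ᵐ x ∂μ, μ (ξ ⁻¹' {ξ x}) ≠ 0 := by
  rw [ae_iff]
  have : {x | ¬ μ (ξ ⁻¹' {ξ x}) ≠ 0} = ξ ⁻¹' {a | μ (ξ ⁻¹' {a}) = 0} := by ext x; simp
  rw [this, measure_preimage_eq_zero_iff_of_countable (Set.to_countable _)]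
  exact fun a ha => ha

noncomputable def cost (t : ℝ≥0∞) : ℝ≥0∞ := ENNReal.ofReal (-log t.toReal)

lemma cost_mul {s t : ℝ≥0∞} (hs : s ≠ 0) (hs1 : s ≤ 1) (ht : t ≠ 0) (ht1 : t ≤ 1) :
    cost (s * t) = cost s + cost t := by
  have hs' : s ≠ ∞ := ne_top_of_le_ne_top one_ne_top hs1
  have ht' : t ≠ ∞ := ne_top_of_le_ne_top one_ne_top ht1
  have h1 : s.toReal ≤ 1 := by simpa using toReal_mono one_ne_top hs1
  have h2 : t.toReal ≤ 1 := by simpa using toReal_mono one_ne_top ht1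
  unfold cost
  rw [toReal_mul, Real.log_mul (toReal_pos hs hs').ne' (toReal_pos ht ht').ne', neg_add,
    ofReal_add (neg_nonneg.2 (Real.log_nonpos toReal_nonneg h1))
      (neg_nonneg.2 (Real.log_nonpos toReal_nonneg h2))]

lemma cost_anti {s t : ℝ≥0∞} (hs : s ≠ 0) (hst : s ≤ t) (ht : t ≠ ∞) : cost t ≤ cost s :=
  ofReal_le_ofReal (neg_le_neg (Real.log_le_log (toReal_pos hs (ne_top_of_le_ne_top ht hst))
    (toReal_mono ht hst)))

lemma cost_gibbs {p q : ℝ≥0∞} (hp : p ≠ 0) (hp1 : p ≤ 1) (hq : q ≠ 0) (hq1 : q ≤ 1) :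
    cost p + 1 ≤ cost q + q / p := by
  have hp' : p ≠ ∞ := ne_top_of_le_ne_top one_ne_top hp1
  have hq' : q ≠ ∞ := ne_top_of_le_ne_top one_ne_top hq1
  have h1 : p.toReal ≤ 1 := by simpa using toReal_mono one_ne_top hp1
  have h2 : q.toReal ≤ 1 := by simpa using toReal_mono one_ne_top hq1
  have h3 := toReal_pos hp hp'
  have h4 := toReal_pos hq hq'
  unfold cost
  rw [← ofReal_one, ← ofReal_add (neg_nonneg.2 (Real.log_nonpos toReal_nonneg h1)) zero_le_one,
    ← ofReal_toReal (ENNReal.div_ne_top hq' hp), ← ofReal_add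
      (neg_nonneg.2 (Real.log_nonpos toReal_nonneg h2)) toReal_nonneg, toReal_div]
  refine ofReal_le_ofReal ?_
  have := Real.log_le_sub_one_of_pos (div_pos h4 h3)
  rw [Real.log_div h4.ne' h3.ne'] at this
  linarith

/-- entropy with values in the extended nonnegative reals -/
noncomputable def He (μ : Measure X) (ξ : X → A) : ℝ≥0∞ := ∫⁻ x, cost (μ (ξ ⁻¹' {ξ x})) ∂μ

variable [IsProbabilityMeasure μ] [IsProbabilityMeasure ν]

lemma He_eq [Countable A] {ξ : X → A} (h : Meas ξ) :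
    He μ ξ = ∑' a, ENNReal.ofReal (negMulLog (μ.real (ξ ⁻¹' {a}))) := by
  rw [He, lintegral_obs h fun a => cost (μ (ξ ⁻¹' {a}))]
  refine tsum_congr fun a => ?_
  rw [cost, negMulLog, neg_mul, ← mul_neg, ofReal_mul measureReal_nonneg, mul_comm,
    ofReal_measureReal]
  rfl

lemma nml_nonneg (s : Set X) : 0 ≤ negMulLog (μ.real s) :=
  negMulLog_nonneg measureReal_nonneg measureReal_le_one

lemma H_eq [Countable A] {ξ : X → A} (h : Meas ξ) : H μ ξ = (He μ ξ).toReal := by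
  rw [He_eq h, tsum_toReal_eq fun _ => ofReal_ne_top]
  exact tsum_congr fun a => (toReal_ofReal (nml_nonneg _)).symm

lemma He_ne_top [Countable A] {ξ : X → A} (h : Meas ξ)
    (hs : Summable fun a => negMulLog (μ.real (ξ ⁻¹' {a}))) : He μ ξ ≠ ∞ := by
  rw [He_eq h, ← ofReal_tsum_of_nonneg (fun _ => nml_nonneg _) hs]
  exact ofReal_ne_top

lemma He_mono [Countable B] {ξ : X → A} {η : X → B} (h : Le ξ η) : He μ ξ ≤ He μ η := by
  refine lintegral_mono_ae ?_
  filter_upwards [ae_pos μ η] with x hx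
  exact cost_anti hx (measure_mono fun y hy => h _ _ hy) (measure_ne_top _ _)

lemma gibbs [Countable A] {ξ : X → A} (h : Meas ξ) (q : A → ℝ≥0∞) (hq : ∑' a, q a ≤ 1)
    (hq0 : ∀ᵐ x ∂μ, q (ξ x) ≠ 0) : He μ ξ ≤ ∫⁻ x, cost (q (ξ x)) ∂μ := by
  have h1 : ∫⁻ x, q (ξ x) / μ (ξ ⁻¹' {ξ x}) ∂μ ≤ 1 := by
    rw [lintegral_obs h fun a => q a / μ (ξ ⁻¹' {a})]
    refine le_trans (ENNReal.tsum_le_tsum fun a => ?_) hq
    rw [mul_comm]
    exact ENNReal.mul_div_le
  have h2 : ∫⁻ x, (cost (μ (ξ ⁻¹' {ξ x})) + 1) ∂μ ≤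
      ∫⁻ x, (cost (q (ξ x)) + q (ξ x) / μ (ξ ⁻¹' {ξ x})) ∂μ := by
    refine lintegral_mono_ae ?_
    filter_upwards [ae_pos μ ξ, hq0] with x hx hx'
    exact cost_gibbs hx prob_le_one hx' ((ENNReal.le_tsum _).trans hq)
  rw [lintegral_add_right _ measurable_const,
    lintegral_add_left (h.measurable fun a => cost (q a))] at h2
  simp only [lintegral_const, measure_univ, mul_one] at h2
  exact (ENNReal.add_le_add_iff_right one_ne_top).1 (h2.trans (by gcongr))

omit [IsProbabilityMeasure μ] in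
lemma tsum_fiber [Countable A] {ξ : X → A} (h : Meas ξ) (p : A → Prop) :
    ∑' a, (if p a then μ (ξ ⁻¹' {a}) else 0) = μ {x | p (ξ x)} := by
  have := lintegral_obs (μ := μ) h fun a => if p a then 1 else 0
  simp only [ite_mul, one_mul, zero_mul] at this
  rw [← this, ← lintegral_indicator_one (h.set p)]
  refine lintegral_congr fun x => ?_
  simp [Set.indicator_apply]

lemma He_submod [Countable A] [Countable B] {ξ : X → A} {η : X → B} {ζ : X → C}
    (hξ : Meas ξ) (hη : Meas η) (h1 : Le ζ ξ) (h2 : Le ζ η) :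
    He μ (pair ξ η) + He μ ζ ≤ He μ ξ + He μ η := by
  have : Nonempty X := nonempty_of_isProbabilityMeasure μ
  obtain ⟨f1, hf1⟩ := h1.exists
  obtain ⟨f2, hf2⟩ := h2.exists
  have hζ := hξ.of_le h1
  let q : A × B → ℝ≥0∞ := fun c => μ (ξ ⁻¹' {c.1}) / μ (ζ ⁻¹' {f1 c.1}) *
    if f2 c.2 = f1 c.1 then μ (η ⁻¹' {c.2}) else 0
  have hq : ∑' c, q c ≤ 1 := by
    rw [ENNReal.tsum_prod']
    simp only [q, ENNReal.tsum_mul_left]
    have e : ∀ a, ∑' b, (if f2 b = f1 a then μ (η ⁻¹' {b}) else 0) = μ (ζ ⁻¹' {f1 a}) := by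
      intro a
      rw [tsum_fiber hη fun b => f2 b = f1 a]
      congr 1
      ext x; simp [hf2]
    simp only [e]
    have := tsum_fiber (μ := μ) hξ fun _ => True
    simp only [if_true, Set.ofPred_true, measure_univ] at this
    rw [← this]
    refine ENNReal.tsum_le_tsum fun a => ?_
    rw [mul_comm]
    exact ENNReal.mul_div_le
  have hq' : ∀ x, q (pair ξ η x) = μ (ξ ⁻¹' {ξ x}) / μ (ζ ⁻¹' {ζ x}) * μ (η ⁻¹' {η x}) := by
    intro x
    simp only [q, pair, ← hf1, ← hf2, if_true]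
  have hle : ∀ x, μ (ξ ⁻¹' {ξ x}) ≤ μ (ζ ⁻¹' {ζ x}) :=
    fun x => measure_mono fun y hy => h1 _ _ hy
  have g := gibbs (μ := μ) (hξ.pair hη) q hq (by
    filter_upwards [ae_pos μ ξ, ae_pos μ η] with x hx hx'
    rw [hq']
    exact mul_ne_zero (ENNReal.div_ne_zero.2 ⟨hx, measure_ne_top _ _⟩) hx')
  refine (add_le_add g le_rfl).trans (le_of_eq ?_)
  rw [He, He, He, ← lintegral_add_right _ (hζ.measurable fun c => cost (μ (ζ ⁻¹' {c}))),
    ← lintegral_add_right _ (hη.measurable fun c => cost (μ (η ⁻¹' {c})))]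
  refine lintegral_congr_ae ?_
  filter_upwards [ae_pos μ ξ, ae_pos μ η] with x hx hx'
  have hz : μ (ζ ⁻¹' {ζ x}) ≠ 0 := fun h => hx (le_zero_iff.1 (h ▸ hle x))
  have k1 : μ (ξ ⁻¹' {ξ x}) / μ (ζ ⁻¹' {ζ x}) ≠ 0 :=
    ENNReal.div_ne_zero.2 ⟨hx, measure_ne_top _ _⟩
  have k2 : μ (ξ ⁻¹' {ξ x}) / μ (ζ ⁻¹' {ζ x}) ≤ 1 :=
    ENNReal.div_le_of_le_mul (by simpa using hle x)
  have k3 := cost_mul k1 k2 hz prob_le_one
  rw [ENNReal.div_mul_cancel hz (measure_ne_top _ _)] at k3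
  rw [hq', cost_mul k1 k2 hx' prob_le_one, k3]
  ring

lemma He_pair_le [Countable A] [Countable B] {ξ : X → A} {η : X → B}
    (hξ : Meas ξ) (hη : Meas η) : He μ (pair ξ η) ≤ He μ ξ + He μ η :=
  le_self_add.trans (He_submod (ζ := fun _ => ()) hξ hη (fun _ _ _ => rfl) fun _ _ _ => rfl)

omit [IsProbabilityMeasure μ] [IsProbabilityMeasure ν] in
lemma H_comp {ξ : X → A} (h : Meas ξ) {f : Y → X} (hf : MeasurePreserving f ν μ) :
    H ν (fun y => ξ (f y)) = H μ ξ :=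
  tsum_congr fun a => by
    rw [← hf.measureReal_preimage (h _).nullMeasurableSet]; rfl

lemma He_comp [Countable A] {ξ : X → A} (h : Meas ξ) {f : Y → X} (hf : MeasurePreserving f ν μ) :
    He ν (fun y => ξ (f y)) = He μ ξ := by
  rw [He_eq h, He_eq (h.comp_meas hf.measurable)]
  exact tsum_congr fun a => by
    rw [← hf.measureReal_preimage (h _).nullMeasurableSet]; rfl

omit [IsProbabilityMeasure μ] in
lemma H_congr_ae {ξ η : X → A} (h : ξ =ᵐ[μ] η) : H μ ξ = H μ η :=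
  tsum_congr fun a => by rw [measureReal_congr (h.preimage {a})]

/-- restriction of an observable to a set -/
noncomputable def resE (E : Set X) (ξ : X → A) : X → Option A :=
  fun x => if x ∈ E then some (ξ x) else none

lemma Meas.resE [Countable A] {ξ : X → A} (h : Meas ξ) {E : Set X} (hE : MeasurableSet E) :
    Meas (resE E ξ) := Meas.of_fiber fun a => by
  cases a with
  | none =>
    have : Pool.Agent.Lib.MP_572a3e_an.resE E ξ ⁻¹' {none} = Eᶜ := by
      ext x; simp [Pool.Agent.Lib.MP_572a3e_an.resE]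
    rw [this]; exact hE.compl
  | some a =>
    have : Pool.Agent.Lib.MP_572a3e_an.resE E ξ ⁻¹' {some a} = E ∩ ξ ⁻¹' {a} := by
      ext x; simp [Pool.Agent.Lib.MP_572a3e_an.resE]
    rw [this]; exact hE.inter (h _)

lemma tsum_opt (q : Option A → ℝ≥0∞) : ∑' o, q o = q none + ∑' a, q (some a) := by
  rw [ENNReal.tsum_eq_add_tsum_ite none]
  congr 1
  have := (Option.some_injective A).tsum_eq (f := fun o => if o = none then 0 else q o) (by
    intro o ho
    cases o with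
    | none => simp at ho
    | some a => exact ⟨a, rfl⟩)
  simp only [reduceCtorEq, if_false] at this
  rw [this]
  exact tsum_congr fun o => by split_ifs <;> rfl

lemma He_resE [Countable A] {ξ : X → A} (h : Meas ξ) {E : Set X} (hE : MeasurableSet E)
    (q : A → ℝ≥0∞) (hq : ∑' a, q a ≤ 1) (hq0 : ∀ᵐ x ∂μ, q (ξ x) ≠ 0) {l : ℝ≥0∞} (hl0 : l ≠ 0)
    (hl1 : l < 1) :
    He μ (resE E ξ) ≤ ∫⁻ x in E, cost (q (ξ x)) ∂μ + cost l * μ E + cost (1 - l) := by
  have g := gibbs (μ := μ) (h.resE hE) (fun o => o.elim (1 - l) fun a => l * q a) (by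
    rw [tsum_opt]
    simp only [Option.elim, ENNReal.tsum_mul_left]
    calc 1 - l + l * ∑' a, q a ≤ 1 - l + l * 1 := by gcongr
      _ = 1 := by rw [mul_one, tsub_add_cancel_of_le hl1.le]) (by
    filter_upwards [hq0] with x hx
    simp only [resE]
    split_ifs
    · exact mul_ne_zero hl0 hx
    · exact (tsub_pos_of_lt hl1).ne')
  refine g.trans ?_
  rw [← lintegral_indicator hE, ← lintegral_indicator_const hE, ← lintegral_add_right _
    (measurable_const.indicator hE)]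
  conv_rhs => rw [← mul_one (cost (1 - l)), ← measure_univ (μ := μ), ← lintegral_const,
    ← lintegral_add_right _ measurable_const]
  refine lintegral_mono_ae ?_
  filter_upwards [hq0] with x hx
  simp only [resE, Set.indicator_apply]
  split_ifs
  · simp only [Option.elim]
    rw [cost_mul hl0 hl1.le hx ((ENNReal.le_tsum _).trans hq), add_comm]
    exact le_self_add
  · simp

lemma tendsto_cost : Tendsto (fun l : ℝ≥0∞ => cost (1 - l)) (𝓝 0) (𝓝 0) := by
  have h1 : Tendsto (fun l : ℝ≥0∞ => (1 - l).toReal) (𝓝 0) (𝓝 1) := by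
    have := (tendsto_toReal (a := 1 - 0) (by simp)).comp
      (ENNReal.Tendsto.sub (tendsto_const_nhds (x := (1 : ℝ≥0∞))) tendsto_id (Or.inl one_ne_top))
    simpa [Function.comp_def] using this
  have h2 := ((Real.continuousAt_log one_ne_zero).tendsto.comp h1).neg
  simpa [cost] using ENNReal.tendsto_ofReal h2

lemma tendsto_He_resE [Countable A] {ξ : ℕ → X → A} (h : ∀ n, Meas (ξ n)) {E : ℕ → Set X}
    (hE : ∀ n, MeasurableSet (E n)) (hE0 : Tendsto (fun n => μ (E n)) atTop (𝓝 0))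
    (q : A → ℝ≥0∞) (hq : ∑' a, q a ≤ 1) (hq0 : ∀ n, ∀ᵐ x ∂μ, q (ξ n x) ≠ 0)
    (hc : Tendsto (fun n => ∫⁻ x in E n, cost (q (ξ n x)) ∂μ) atTop (𝓝 0)) :
    Tendsto (fun n => He μ (resE (E n) (ξ n))) atTop (𝓝 0) := by
  rw [ENNReal.tendsto_nhds_zero]
  intro ε hε
  have h2 : 0 < ε / 2 := ENNReal.half_pos hε.ne'
  have h1 : ∀ᶠ l in 𝓝[>] (0 : ℝ≥0∞), cost (1 - l) ≤ ε / 2 ∧ l < 1 :=
    (((ENNReal.tendsto_nhds_zero.1 tendsto_cost) _ h2).and
      (eventually_lt_nhds zero_lt_one)).filter_mono nhdsWithin_le_nhds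
  obtain ⟨l, ⟨hl1, hl2⟩, hl3⟩ := (h1.and self_mem_nhdsWithin).exists
  have h3 := hc.add (ENNReal.Tendsto.const_mul (a := cost l) hE0 (Or.inr ofReal_ne_top))
  simp only [mul_zero, add_zero] at h3
  filter_upwards [ENNReal.tendsto_nhds_zero.1 h3 _ h2] with n hn
  refine (He_resE (h n) (hE n) q hq (hq0 n) (ne_of_gt hl3) hl2).trans ?_
  rw [← ENNReal.add_halves ε]
  gcongr

lemma tendsto_He_resE_fix [Countable A] {ξ : X → A} (h : Meas ξ) (hf : He μ ξ ≠ ∞)
    {E : ℕ → Set X} (hE : ∀ n, MeasurableSet (E n))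
    (hE0 : Tendsto (fun n => μ (E n)) atTop (𝓝 0)) :
    Tendsto (fun n => He μ (resE (E n) ξ)) atTop (𝓝 0) := by
  refine tendsto_He_resE (fun _ => h) hE hE0 (fun a => μ (ξ ⁻¹' {a})) ?_ (fun _ => ae_pos μ ξ)
    (tendsto_setLIntegral_zero hf hE0)
  have := tsum_fiber (μ := μ) h fun _ => True
  simp only [if_true, Set.ofPred_true, measure_univ] at this
  exact this.le

lemma tendsto_He_resE_fin [Finite A] {ξ : ℕ → X → A} (h : ∀ n, Meas (ξ n))
    {E : ℕ → Set X} (hE : ∀ n, MeasurableSet (E n))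
    (hE0 : Tendsto (fun n => μ (E n)) atTop (𝓝 0)) :
    Tendsto (fun n => He μ (resE (E n) (ξ n))) atTop (𝓝 0) := by
  have := Fintype.ofFinite A
  refine tendsto_He_resE h hE hE0 (fun _ => (Fintype.card A : ℝ≥0∞)⁻¹) ?_ (fun _ => by simp) ?_
  · rw [tsum_fintype]
    simp only [Finset.sum_const, Finset.card_univ, nsmul_eq_mul]
    exact ENNReal.mul_inv_le_one _
  · simp only [lintegral_const, MeasurableSet.univ, Measure.restrict_apply, Set.univ_inter]
    simpa using ENNReal.Tendsto.const_mul (a := cost (Fintype.card A : ℝ≥0∞)⁻¹) hE0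
      (Or.inr ofReal_ne_top)

lemma He_fin [Finite A] {ξ : X → A} (h : Meas ξ) : He μ ξ ≠ ∞ := by
  have := Fintype.ofFinite A
  exact He_ne_top h (summable_of_hasFiniteSupport (Set.toFinite _))

lemma tsum_list {L : Type*} [Fintype L] (t : ℝ≥0∞) :
    ∑' w : List L, t ^ w.length = ∑' n : ℕ, (Fintype.card L * t) ^ n := by
  rw [← List.equivSigmaTuple.symm.tsum_eq, ENNReal.tsum_sigma']
  refine tsum_congr fun n => ?_
  simp [List.equivSigmaTuple, mul_pow]

lemma He_norm {S : Type*} [DecidableEq S] [Fintype S] [Nonempty S] {ξ : X → FreeGroup S}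
    (h : Meas ξ) (hi : ∫⁻ x, (ξ x).norm ∂μ ≠ ∞) : He μ ξ ≠ ∞ := by
  set c : ℝ≥0∞ := (Fintype.card (S × Bool) : ℝ≥0∞) with hc
  have hc0 : c ≠ 0 := by simp [hc]
  have hc1 : c ≠ ∞ := natCast_ne_top _
  have hc2 : 1 ≤ c := by rw [hc]; exact_mod_cast Fintype.card_pos
  have ht0 : c⁻¹ * 2⁻¹ ≠ 0 := by simp [hc1]
  have ht1 : c⁻¹ * 2⁻¹ ≤ 1 := mul_le_one' (ENNReal.inv_le_one.2 hc2) (by simp)
  have g := gibbs (μ := μ) h (fun g => 2⁻¹ * (c⁻¹ * 2⁻¹) ^ g.norm) (by
    rw [ENNReal.tsum_mul_left]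
    have := tsum_comp_le_tsum_of_injective (FreeGroup.toWord_injective (α := S))
      fun w => (c⁻¹ * 2⁻¹) ^ w.length
    rw [tsum_list, ← hc, ← mul_assoc, ENNReal.mul_inv_cancel hc0 hc1, one_mul,
      ENNReal.tsum_geometric, ENNReal.one_sub_inv_two, inv_inv] at this
    calc _ ≤ (2⁻¹ : ℝ≥0∞) * 2 := by gcongr; exact this
      _ = 1 := ENNReal.inv_mul_cancel (by simp) (by simp)) (by simp [hc1])
  have e : ∀ n : ℕ, cost (2⁻¹ * (c⁻¹ * 2⁻¹) ^ n) = cost 2⁻¹ + n * cost (c⁻¹ * 2⁻¹) := by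
    intro n
    rw [cost_mul (by simp) (by simp) (pow_ne_zero _ ht0) (pow_le_one' ht1 _)]
    congr 1
    induction n with
    | zero => simp [cost]
    | succ n ih =>
      rw [pow_succ, cost_mul (pow_ne_zero _ ht0) (pow_le_one' ht1 _) ht0 ht1, ih]
      push_cast; ring
  simp only [e] at g
  rw [lintegral_add_left measurable_const, lintegral_mul_const' (cost _) _ ofReal_ne_top] at g
  refine ne_top_of_le_ne_top ?_ g
  simp only [lintegral_const, measure_univ, mul_one]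
  exact ENNReal.add_ne_top.2 ⟨ofReal_ne_top, ENNReal.mul_ne_top hi ofReal_ne_top⟩

end Pool.Agent.Lib.MP_572a3e_an
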