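import Pool.Agent.Lib.MP_572a3e_an.Struct

namespace Pool.Agent.Lib.MP_572a3e_an

open FreeGroup Sum Classical Finset

lemma card_small (α : Type*) [Fintype α] (D : ℕ) {t : ℝ} (ht : 1 ≤ t) :
    (#{K : Finset α | #K ≤ D} : ℝ) ≤ t ^ D * Real.exp (Fintype.card α / t) := by
  have ht0 : 0 < t := by linarith
  calc (#{K : Finset α | #K ≤ D} : ℝ) = ∑ K ∈ {K : Finset α | #K ≤ D}, (1 : ℝ) := by simp
    _ ≤ ∑ K ∈ {K : Finset α | #K ≤ D}, t ^ D * ∏ _i ∈ K, t⁻¹ := by
      refine sum_le_sum fun K hK => ?_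
      have hK := (mem_filter.1 hK).2
      rw [prod_const, inv_pow, ← div_eq_mul_inv, one_le_div (by positivity)]
      exact pow_le_pow_right₀ ht hK
    _ ≤ ∑ K ∈ (univ : Finset α).powerset, t ^ D * ∏ _i ∈ K, t⁻¹ :=
      sum_le_sum_of_subset_of_nonneg (fun K _ => by simp) fun _ _ _ => by positivity
    _ = t ^ D * ∏ _i : α, (1 + t⁻¹) := by rw [← mul_sum, prod_one_add]
    _ ≤ t ^ D * Real.exp (Fintype.card α / t) := by
      gcongr
      refine (Real.prod_one_add_le_exp_sum _ fun _ => by positivity).trans (le_of_eq ?_)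
      simp [div_eq_mul_inv]

variable {S V : Type*} [DecidableEq S] [Fintype S] [Fintype V]
  (a : S → V → FreeGroup S) (b : S × Bool → V → FreeGroup S) (g : S → V → Option V)

def sysOf (τ : S → Equiv.Perm V) : Sys S V := ⟨FreeGroup.lift τ, a, b⟩

noncomputable def Pp (m : ℕ) : Finset (S × (V ⊕ Fin m) × (V ⊕ Fin m)) :=
  ({t : S × V × V | g t.1 t.2.2 = some t.2.1} : Finset _).image (emap inl)

noncomputable def Jn : ℕ := #{t : S × V | g t.1 t.2 = none}

lemma card_Pp (m : ℕ) : Fintype.card S * Fintype.card V ≤ #(Pp g m) + Jn g := by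
  have h1 : #{t : S × V | ¬ g t.1 t.2 = none} ≤ #{t : S × V × V | g t.1 t.2.2 = some t.2.1} := by
    refine card_le_card_of_surjOn (fun t => (t.1, t.2.2)) ?_
    rintro ⟨u, w⟩ h
    obtain ⟨v, hv⟩ := Option.ne_none_iff_exists'.1 (mem_filter.1 h).2
    exact ⟨(u, v, w), by simpa using hv, rfl⟩
  have h2 := card_filter_add_card_filter_not (s := univ) (fun t : S × V => g t.1 t.2 = none)
  rw [Pp, card_image_of_injective _ (by
    rintro ⟨s, p, q⟩ ⟨s', p', q'⟩ h
    simpa [emap] using h), Jn]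
  simp only [card_univ, Fintype.card_prod] at h2
  omega

def Valid (m : ℕ) (τ : S → Equiv.Perm V)
    (D : Finset ((S × (V ⊕ Fin m) × (V ⊕ Fin m)) ⊕ (S × V × V))) : Prop :=
  ∃ E : Set (S × (V ⊕ Fin m) × (V ⊕ Fin m)), (∀ e, e ∈ E ↔ e ∈ Pp g m ∨ inl e ∈ D) ∧
    Folded E ∧ (∀ s v w, inr (s, v, w) ∈ D → w = τ s v) ∧
    ∀ s v, (∃ w, inr (s, v, w) ∈ D) ∨ PG E (a s v) (inl v) (inl (τ s v))

lemma Valid.unique {m : ℕ} {τ τ' : S → Equiv.Perm V}
    {D : Finset ((S × (V ⊕ Fin m) × (V ⊕ Fin m)) ⊕ (S × V × V))}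
    (h : Valid a g m τ D) (h' : Valid a g m τ' D) : τ = τ' := by
  obtain ⟨E, h1, h2, h3, h4⟩ := h
  obtain ⟨E', h1', -, h3', h4'⟩ := h'
  obtain rfl : E = E' := Set.ext fun e => (h1 e).trans (h1' e).symm
  ext s v
  rcases h4 s v with ⟨w, h⟩ | h
  · rw [← h3 _ _ _ h, ← h3' _ _ _ h]
  · rcases h4' s v with ⟨w, h'⟩ | h'
    · rw [← h3 _ _ _ h', ← h3' _ _ _ h']
    · exact inl_injective (h.det h2 h')

/-- models with a structure of size `m` -/
def Str (m : ℕ) (τ : S → Equiv.Perm V) : Prop :=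
  ∃ E : Finset (S × (V ⊕ Fin m) × (V ⊕ Fin m)),
    Folded (E : Set (S × (V ⊕ Fin m) × (V ⊕ Fin m))) ∧
    (∀ i, ∃ v g, PG (E : Set (S × (V ⊕ Fin m) × (V ⊕ Fin m))) g (inl v) (inr i)) ∧
    Pp g m ⊆ E ∧
    (∀ s v, (sysOf a b τ).g3 s v → PG (E : Set (S × (V ⊕ Fin m) × (V ⊕ Fin m))) (a s v)
      (inl v) (inl (τ s v))) ∧ E.card ≤ m + (sysOf a b τ).E3.card

lemma Str.many {m : ℕ} {τ : S → Equiv.Perm V} (h : Str a b g m τ) :
    m.factorial ≤ #(({D : Finset ((S × (V ⊕ Fin m) × (V ⊕ Fin m)) ⊕ (S × V × V)) |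
      #D ≤ Jn g + m} : Finset _).bipartiteAbove (Valid a g m) τ) := by
  obtain ⟨E, h1, h2, h3, h4, h5⟩ := h
  let L0 : Finset (S × V × V) :=
    ({t : S × V | ¬ (sysOf a b τ).g3 t.1 t.2} : Finset _).image fun t => (t.1, t.2, τ t.1 t.2)
  let Eπ : Equiv.Perm (Fin m) → Finset (S × (V ⊕ Fin m) × (V ⊕ Fin m)) :=
    fun π => E.image (emap (Sum.map id π))
  have hP : ∀ π, Pp g m ⊆ Eπ π := by
    intro π e he
    refine mem_image.2 ⟨e, h3 he, ?_⟩
    obtain ⟨t, -, rfl⟩ := mem_image.1 he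
    rfl
  have hF : ∀ π, Folded (Eπ π : Set (S × (V ⊕ Fin m) × (V ⊕ Fin m))) := by
    intro π
    simp only [Eπ, coe_image]
    refine h1.image _ (Sum.map id π.symm) fun e _ => ?_
    simp [emap, Sum.map_map]
  have hm : ∀ π : Equiv.Perm (Fin m), ∀ e ∈ (E : Set (S × (V ⊕ Fin m) × (V ⊕ Fin m))),
      emap (Sum.map id π) e ∈ (Eπ π : Set (S × (V ⊕ Fin m) × (V ⊕ Fin m))) :=
    fun π e he => mem_coe.2 (mem_image_of_mem _ he)
  have hiff : ∀ π e, e ∈ (Eπ π : Set (S × (V ⊕ Fin m) × (V ⊕ Fin m))) ↔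
      e ∈ Pp g m ∨ inl e ∈ (Eπ π \ Pp g m).disjSum L0 := by
    intro π e
    simp only [mem_coe, inl_mem_disjSum, mem_sdiff]
    have := @hP π e
    tauto
  rw [← Fintype.card_fin m, ← Fintype.card_perm, Fintype.card_fin, ← card_univ]
  refine card_le_card_of_injOn (fun π => (Eπ π \ Pp g m).disjSum L0) (fun π _ => ?_) ?_
  · simp only [bipartiteAbove, mem_coe, mem_filter, mem_univ, true_and]
    refine ⟨?_, Eπ π, hiff π, hF π, ?_, fun s v => ?_⟩
    · rw [card_disjSum, card_sdiff_of_subset (hP π)]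
      have e1 : #(Eπ π) ≤ #E := card_image_le
      have e2 : #L0 ≤ #{t : S × V | ¬ (sysOf a b τ).g3 t.1 t.2} := card_image_le
      have e3 := card_filter_add_card_filter_not (s := univ)
        (fun t : S × V => (sysOf a b τ).g3 t.1 t.2)
      have e4 := card_Pp g m
      have e5 := card_le_card (hP π)
      simp only [card_univ, Fintype.card_prod] at e3
      simp only [Sys.E3] at h5
      omega
    · intro s v w hw
      simp only [inr_mem_disjSum, L0, mem_image, Prod.mk.injEq] at hw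
      obtain ⟨t, -, rfl, rfl, rfl⟩ := hw
      rfl
    · by_cases h : (sysOf a b τ).g3 s v
      · exact Or.inr ((h4 s v h).map (Sum.map id π) (hm π))
      · exact Or.inl ⟨τ s v, inr_mem_disjSum.2 (mem_image.2 ⟨(s, v), by simpa using h, rfl⟩)⟩
  · intro π _ π' _ h
    have e : (Eπ π : Set (S × (V ⊕ Fin m) × (V ⊕ Fin m))) = Eπ π' :=
      Set.ext fun e => by rw [hiff, hiff]; simp only at h; rw [h]
    ext i
    obtain ⟨v, k, hk⟩ := h2 i
    have k1 := hk.map _ (hm π)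
    have k2 := hk.map _ (hm π')
    rw [e] at k1
    have := k1.det (hF π') k2
    simp only [Sum.map_inr, inr.injEq] at this
    rw [this]

lemma card_Str (m : ℕ) {t : ℝ} (ht : 1 ≤ t) :
    (#{τ : S → Equiv.Perm V | Str a b g m τ} : ℝ) * m.factorial ≤ t ^ (Jn g + m) *
      Real.exp ((Fintype.card S * ((Fintype.card V + m) ^ 2 + Fintype.card V ^ 2)) / t) := by
  have h1 := card_mul_le_card_mul (s := {τ : S → Equiv.Perm V | Str a b g m τ})
    (t := {D : Finset ((S × (V ⊕ Fin m) × (V ⊕ Fin m)) ⊕ (S × V × V)) | #D ≤ Jn g + m})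
    (Valid a g m) (m := m.factorial) (n := 1)
    (fun τ hτ => Str.many a b g (mem_filter.1 hτ).2) (fun D _ => card_le_one.2 fun τ h τ' h' =>
      Valid.unique a g (mem_filter.1 h).2 (mem_filter.1 h').2)
  have h2 := card_small ((S × (V ⊕ Fin m) × (V ⊕ Fin m)) ⊕ (S × V × V)) (Jn g + m) ht
  rw [mul_one] at h1
  refine le_trans (by exact_mod_cast h1) (h2.trans (le_of_eq ?_))
  simp only [Fintype.card_sum, Fintype.card_prod, Fintype.card_fin]
  push_cast
  ring_nf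

theorem extra (m0 : ℕ) (hm0 : m0 ≤ Fintype.card V) [Nonempty V] [Nonempty S] {l : ℝ}
    (hl0 : 0 < l) (hl1 : l ≤ 1) (𝒯 : Finset (S → Equiv.Perm V))
    (h𝒯 : ∀ τ ∈ 𝒯, (∀ u w v, g u w = some v → (sysOf a b τ).g4 u v ∧
      (sysOf a b τ).step (u, true) v = w) ∧ (sysOf a b τ).cost ≤ m0) :
    (#𝒯 : ℝ) ≤ (5 * Fintype.card S * Fintype.card V / l) ^ Jn g *
      (5 * Fintype.card S / l ^ 2) ^ m0 * Real.exp (2 * l * Fintype.card V) := by
  have hsub : 𝒯 ⊆ (range (m0 + 1)).biUnion fun m => {τ : S → Equiv.Perm V | Str a b g m τ} := by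
    intro τ hτ
    obtain ⟨h1, h2⟩ := h𝒯 τ hτ
    obtain ⟨m, hm, E, e1, e2, e3, e4, e5⟩ := (sysOf a b τ).struct
    refine mem_biUnion.2 ⟨m, mem_range.2 (by omega), mem_filter.2 ⟨mem_univ _, E, e1, e2, ?_,
      fun s v h => ?_, e5⟩⟩
    · intro e he
      obtain ⟨⟨u, v, w⟩, ht, rfl⟩ := mem_image.1 he
      obtain ⟨k1, k2⟩ := h1 u w v (mem_filter.1 ht).2
      have := e3 u v k1
      rw [k2] at this
      exact this
    · simpa [sysOf] using e4 s v h
  set n : ℝ := (Fintype.card V : ℝ) with hn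
  set r : ℝ := (Fintype.card S : ℝ) with hr
  have hn1 : 1 ≤ n := by rw [hn]; exact_mod_cast Fintype.card_pos
  have hr1 : 1 ≤ r := by rw [hr]; exact_mod_cast Fintype.card_pos
  have ht : 1 ≤ 5 * r * n / l := by
    rw [one_le_div hl0]; nlinarith
  have ht2 : 1 ≤ 5 * r / l ^ 2 := by
    rw [one_le_div (by positivity)]; nlinarith
  have hb : ∀ m ∈ range (m0 + 1), (#{τ : S → Equiv.Perm V | Str a b g m τ} : ℝ) ≤
      (5 * r * n / l) ^ Jn g * (5 * r / l ^ 2) ^ m0 * Real.exp (l * n) *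
        ((l * n) ^ m / m.factorial) := by
    intro m hm
    have hm : m ≤ m0 := by simpa [Nat.lt_succ_iff] using hm
    have hmn : (m : ℝ) ≤ n := by rw [hn]; exact_mod_cast hm.trans hm0
    have h1 := card_Str a b g m ht
    rw [← hn, ← hr] at h1
    rw [← mul_div_assoc, le_div_iff₀ (by positivity)]
    refine h1.trans ?_
    have e1 : (5 * r * n / l) ^ (Jn g + m) =
        (5 * r * n / l) ^ Jn g * (5 * r / l ^ 2) ^ m * (l * n) ^ m := by
      rw [pow_add, mul_assoc (_ ^ _), ← mul_pow]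
      congr 2
      field_simp
    have e2 : r * ((n + m) ^ 2 + n ^ 2) / (5 * r * n / l) ≤ l * n := by
      rw [div_le_iff₀ (by positivity)]
      have : l * n * (5 * r * n / l) = r * (5 * n ^ 2) := by field_simp
      rw [this]
      have : (0 : ℝ) ≤ m := by positivity
      gcongr
      nlinarith
    rw [e1, mul_right_comm]
    gcongr
  calc (#𝒯 : ℝ) ≤ ∑ m ∈ range (m0 + 1), (#{τ : S → Equiv.Perm V | Str a b g m τ} : ℝ) := by
        exact_mod_cast (card_le_card hsub).trans card_biUnion_le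
    _ ≤ _ := sum_le_sum hb
    _ ≤ (5 * r * n / l) ^ Jn g * (5 * r / l ^ 2) ^ m0 * Real.exp (l * n) * Real.exp (l * n) := by
      rw [← mul_sum]
      gcongr
      exact Real.sum_le_exp_of_nonneg (by positivity) _
    _ = _ := by rw [mul_assoc, ← Real.exp_add]; ring_nf

end Pool.Agent.Lib.MP_572a3e_an
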