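import Pool.Agent.Lib.MP_572a3e_an.Main

namespace Pool.Agent.Lib.MP_572a3e_an

open MeasureTheory Filter Topology Real ENNReal Classical FreeGroup

variable {S X Y A B : Type*} [DecidableEq S] [MulAction (FreeGroup S) X]
  [MulAction (FreeGroup S) Y] [MeasurableSpace X] [MeasurableSpace Y]
  {μ : Measure X} {ν : Measure Y} [IsProbabilityMeasure μ] [IsProbabilityMeasure ν]
  [Fintype S] [Nonempty S] [Countable A] [Countable B]
  (hT : ∀ g : FreeGroup S, MeasurePreserving (fun x : X => g • x) μ μ)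
  (hU : ∀ g : FreeGroup S, MeasurePreserving (fun y : Y => g • y) ν ν)
  (hTf : ∀ᵐ x ∂μ, ∀ g : FreeGroup S, g • x = x → g = 1)
  (hUf : ∀ᵐ y ∂ν, ∀ g : FreeGroup S, g • y = y → g = 1)
  {Φ : X → Y} {Ψ : Y → X} (hΦ : MeasurePreserving Φ μ ν) (hΨ : MeasurePreserving Ψ ν μ)
  (hΨΦ : ∀ᵐ x ∂μ, Ψ (Φ x) = x) (hΦΨ : ∀ᵐ y ∂ν, Φ (Ψ y) = y)
  {α : FreeGroup S → X → FreeGroup S} {β : FreeGroup S → Y → FreeGroup S}
  (hα : ∀ g, ∀ᵐ x ∂μ, α g x • Φ x = Φ (g • x)) (hβ : ∀ g, ∀ᵐ y ∂ν, β g y • Ψ y = Ψ (g • y))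

include hT hU hTf hUf hΦ hΨ hΨΦ hΦΨ hα hβ in
theorem half (mα : ∀ g, Meas (α g)) (mβ : ∀ g, Meas (β g))
    (iα : ∀ g, ∫⁻ x, (α g x).norm ∂μ ≠ ∞) (iβ : ∀ g, ∫⁻ y, (β g y).norm ∂ν ≠ ∞)
    {φ : X → A} {ψ : Y → B} (hφ : FE μ φ) (hψ : FE ν ψ) (gφ : Gen S μ φ) (gψ : Gen S ν ψ)
    (ρ' : ℕ) {ε : ℝ} (hε : 0 < ε) : ∃ ρ, F2 S μ (pat S ρ φ) ≤ F2 S ν (pat S ρ' ψ) + ε := by
  have fα : ∀ g, FE μ (α g) := fun g => ⟨mα g, He_norm (mα g) (iα g)⟩
  have fβ : ∀ g, FE ν (β g) := fun g => ⟨mβ g, He_norm (mβ g) (iβ g)⟩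
  let θY := pair (pair (pat S ρ' ψ) fun y => φ (Ψ y))
    (pair (fun y s => α (of s) (Ψ y)) fun y l => β (lt l) y)
  have h1 : FE ν θY := ((hψ.pat hU ρ').pair (hφ.comp hΨ)).pair
    ((FE.pi fun s => (fα _).comp hΨ).pair (FE.pi fun l => fβ _))
  obtain ⟨R, hR⟩ := gi_ge hU (gψ.of_le (le_pat ψ ρ')) h1
    (fun x y e => congrArg (fun p => p.1.1) e) (ε := ε / 3) (by positivity)
  obtain ⟨ρ1, hρ1⟩ := main_lemma (fun s c => (c (ctr R)).2.1 s) (fun l c => (c (ctr R)).2.2 l)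
    hT hU hTf hUf hΦ hΨΦ hΦΨ (θ' := pat S R θY) (fun s => by
      filter_upwards [hα (of s), hΨΦ] with x h1 h2
      simpa [pat, ctr, θY, pair, h2] using h1) (fun l => by
      filter_upwards [hβ (lt l)] with x h1
      simpa [pat, ctr, θY, pair] using h1) (h1.pat hU R) (fun s => by
      rw [lintegral_congr_ae (g := fun x => ((α (of s) x).norm : ℝ≥0∞))]
      · exact iα _
      · filter_upwards [hΨΦ] with x h2
        simp [pat, ctr, θY, pair, h2]) (ε := ε / 3) (by positivity)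
  have i1 : Countable (((Ball S ρ' → B) × A) × (S → FreeGroup S) × (S × Bool → FreeGroup S)) :=
    inferInstance
  have h2 := ((h1.pat hU R).comp hΦ).pat hT ρ1
  obtain ⟨ρ, hρ⟩ := gi_le hT gφ (hφ.pair h2) (fun x y e => congrArg Prod.fst e) (ε := ε / 3)
    (by positivity)
  refine ⟨ρ, ?_⟩
  rw [F2_congr_ae hT (η := pair (fun x => φ (Ψ (Φ x))) (pat S ρ1 fun x => pat S R θY (Φ x)))
    (by filter_upwards [hΨΦ] with x h2; simp only [pair, h2]),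
    F2_congr hT h2 (fun x y e => congrArg Prod.snd e) fun x y e => Prod.ext
      (congrArg (fun p => p.1.2) (le_pat (S := S) θY R _ _
        (le_pat (fun y => pat S R θY (Φ y)) ρ1 _ _ e))) e] at hρ
  linarith

omit [IsProbabilityMeasure μ] [IsProbabilityMeasure ν] [Nonempty S] [DecidableEq S] in
include hT hUf hΦ hα in
lemma exists_meas [MeasurableEq Y] (hU : ∀ g : FreeGroup S, Measurable fun y : Y => g • y)
    (g : FreeGroup S) : ∃ α', Meas α' ∧ α g =ᵐ[μ] α' := by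
  let : MeasurableSpace (FreeGroup S) := ⊤
  have h1 : NullMeasurable (α g) μ := by
    refine measurable_to_countable' (β := NullMeasurableSpace X μ) fun k => ?_
    refine (measurableSet_eq_fun ((hU k).comp hΦ.measurable)
      (hΦ.measurable.comp (hT g).measurable)).nullMeasurableSet.congr ?_
    filter_upwards [hα g, hΦ.quasiMeasurePreserving.ae hUf] with x h1 h2
    refine propext ⟨fun h => ?_, fun h => ?_⟩
    · have h3 : k • Φ x = Φ (g • x) := h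
      have := h2 (k⁻¹ * α g x) (by rw [mul_smul, h1, ← h3, inv_smul_smul])
      exact (inv_mul_eq_one.1 this).symm
    · have h3 : α g x = k := h
      show k • Φ x = Φ (g • x)
      rw [← h3, h1]
  obtain ⟨α', h2, h3⟩ := h1.aemeasurable
  exact ⟨α', fun s => h2 trivial, h3⟩

omit [MulAction (FreeGroup S) X] [Fintype S] [Nonempty S] in
lemma lintegral_norm_ne {ξ ξ' : X → FreeGroup S} (h : ξ =ᵐ[μ] ξ') {p : ℝ≥0∞} (hp : 1 ≤ p)
    (hi : MemLp (fun x => ((ξ x).norm : ℝ)) p μ) : ∫⁻ x, (ξ' x).norm ∂μ ≠ ∞ := by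
  have := (hi.integrable hp).2
  rw [hasFiniteIntegral_iff_enorm] at this
  refine (lt_of_eq_of_lt (lintegral_congr_ae ?_) this).ne
  filter_upwards [h] with x hx
  rw [hx]; simp

include hT hU hTf hUf hΦ hΨ hΨΦ hΦΨ hα hβ in
theorem final [MeasurableEq X] [MeasurableEq Y] {p : ℝ≥0∞} (hp : 1 ≤ p)
    (iα : ∀ g, MemLp (fun x => ((α g x).norm : ℝ)) p μ)
    (iβ : ∀ g, MemLp (fun y => ((β g y).norm : ℝ)) p ν)
    {φ : X → A} {ψ : Y → B} (hφ : FinGen (FreeGroup S) μ φ) (hψ : FinGen (FreeGroup S) ν ψ) :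
    ∃ L : EReal,
      Tendsto (fun ρ : ℕ => (F S μ (obs {g : FreeGroup S | g.norm ≤ ρ} φ) : EReal)) atTop (𝓝 L) ∧
      Tendsto (fun ρ : ℕ => (F S ν (obs {g : FreeGroup S | g.norm ≤ ρ} ψ) : EReal)) atTop
        (𝓝 L) := by
  choose α' mα eα using exists_meas hT hUf hΦ hα fun g => (hU g).measurable
  choose β' mβ eβ using exists_meas hU hTf hΨ hβ fun g => (hT g).measurable
  have hα' : ∀ g, ∀ᵐ x ∂μ, α' g x • Φ x = Φ (g • x) := fun g => by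
    filter_upwards [hα g, eα g] with x h1 h2
    rw [← h2, h1]
  have hβ' : ∀ g, ∀ᵐ y ∂ν, β' g y • Ψ y = Ψ (g • y) := fun g => by
    filter_upwards [hβ g, eβ g] with x h1 h2
    rw [← h2, h1]
  have iα' := fun g => lintegral_norm_ne (eα g) hp (iα g)
  have iβ' := fun g => lintegral_norm_ne (eβ g) hp (iβ g)
  have mφ := Meas.of_fiber hφ.1
  have mψ := Meas.of_fiber hψ.1
  have fφ : FE μ φ := ⟨mφ, He_ne_top mφ hφ.2.1⟩
  have fψ : FE ν ψ := ⟨mψ, He_ne_top mψ hψ.2.1⟩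
  have gφ := Gen.of_gen mφ hT hφ.2.2
  have gψ := Gen.of_gen mψ hU hψ.2.2
  simp only [F_obs_ball hT fφ, F_obs_ball hU fψ]
  have t1 := tendsto_atTop_iInf (f := fun ρ : ℕ => (F2 S μ (pat S ρ φ) : EReal))
    fun _ _ h => EReal.coe_le_coe_iff.2 (F2_pat_anti hT fφ h)
  have t2 := tendsto_atTop_iInf (f := fun ρ : ℕ => (F2 S ν (pat S ρ ψ) : EReal))
    fun _ _ h => EReal.coe_le_coe_iff.2 (F2_pat_anti hU fψ h)
  have key : ∀ u v : ℕ → ℝ, (∀ n, ∀ ε > 0, ∃ m, u m ≤ v n + ε) →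
      ⨅ n, (u n : EReal) ≤ ⨅ n, (v n : EReal) := by
    intro u v h
    refine le_iInf fun n => le_of_forall_gt_imp_ge_of_dense fun c hc => ?_
    obtain ⟨d, h1, h2⟩ := EReal.lt_iff_exists_real_btwn.1 hc
    obtain ⟨m, hm⟩ := h n (d - v n) (sub_pos.2 (EReal.coe_lt_coe_iff.1 h1))
    refine (iInf_le _ m).trans (le_trans (EReal.coe_le_coe_iff.2 ?_) h2.le)
    linarith
  refine ⟨_, t1, le_antisymm (key _ _ fun n ε hε => ?_) (key _ _ fun n ε hε => ?_) ▸ t2⟩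
  · exact half hU hT hUf hTf hΨ hΦ hΦΨ hΨΦ hβ' hα' mβ mα iβ' iα' fψ fφ gψ gφ n hε
  · exact half hT hU hTf hUf hΦ hΨ hΨΦ hΦΨ hα' hβ' mα mβ iα' iβ' fφ fψ gφ gψ n hε

end Pool.Agent.Lib.MP_572a3e_an
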