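import Pool.Agent.Lib.MP_572a3e_an.Walk

namespace Pool.Agent.Lib.MP_572a3e_an

open FreeGroup Sum

variable {S W W' : Type*}

def edge : S × Bool → W → W → S × W × W
  | (s, true), p, q => (s, p, q)
  | (s, false), p, q => (s, q, p)

def emap (f : W → W') (e : S × W × W) : S × W' × W' := (e.1, f e.2.1, f e.2.2)

lemma edge_bar (l : S × Bool) (p q : W) : edge (bar l) q p = edge l p q := by
  rcases l with ⟨s, _ | _⟩ <;> rfl

lemma emap_edge (f : W → W') (l : S × Bool) (p q : W) :
    emap f (edge l p q) = edge l (f p) (f q) := by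
  rcases l with ⟨s, _ | _⟩ <;> rfl

lemma edge_inj {l : S × Bool} {p q p' q' : W} (h : edge l p q = edge l p' q') :
    p = p' ∧ q = q' := by
  rcases l with ⟨s, _ | _⟩ <;> simp_all [edge]

lemma emap_emap {W'' : Type*} (f : W → W') (g : W' → W'') (e : S × W × W) :
    emap g (emap f e) = emap (g ∘ f) e := rfl

def Folded (E : Set (S × W × W)) : Prop :=
  ∀ l p q q', edge l p q ∈ E → edge l p q' ∈ E → q = q'

def Path (E : Set (S × W × W)) : List (S × Bool) → W → W → Prop
  | [], p, q => p = q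
  | l :: w, p, q => ∃ p', Path E w p p' ∧ edge l p' q ∈ E

def PG (E : Set (S × W × W)) (g : FreeGroup S) (p q : W) : Prop :=
  ∃ w, FreeGroup.mk w = g ∧ Path E w p q

variable {E : Set (S × W × W)}

lemma Path.append {w w' : List (S × Bool)} {p q r : W} (h : Path E w p q) (h' : Path E w' q r) :
    Path E (w' ++ w) p r := by
  induction w' generalizing r with
  | nil => cases h'; exact h
  | cons l w' ih =>
    obtain ⟨p', h1, h2⟩ := h'
    exact ⟨p', ih h1, h2⟩

lemma Path.split {w w' : List (S × Bool)} {p r : W} (h : Path E (w' ++ w) p r) :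
    ∃ q, Path E w p q ∧ Path E w' q r := by
  induction w' generalizing r with
  | nil => exact ⟨r, h, rfl⟩
  | cons l w' ih =>
    obtain ⟨p', h1, h2⟩ := h
    obtain ⟨q, h3, h4⟩ := ih h1
    exact ⟨q, h3, p', h4, h2⟩

lemma Path.rev {w : List (S × Bool)} {p q : W} (h : Path E w p q) : Path E (invRev w) q p := by
  induction w generalizing q with
  | nil => exact Eq.symm h
  | cons l w ih =>
    obtain ⟨p', h1, h2⟩ := h
    rw [invRev_cons]
    refine Path.append (q := p') ?_ (ih h1)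
    exact ⟨q, rfl, (edge_bar l p' q).symm ▸ h2⟩

lemma Path.step (hE : Folded E) {w w' : List (S × Bool)} (hw : Red.Step w w') {p q : W}
    (h : Path E w p q) : Path E w' p q := by
  cases hw with
  | @not L₁ L₂ x b =>
    obtain ⟨r, h1, h2⟩ := h.split
    obtain ⟨p1, ⟨p2, h3, h4⟩, h5⟩ := h1
    have : edge (x, b) p1 p2 ∈ E := by
      rw [← edge_bar]; exact h4
    obtain rfl := hE _ _ _ _ this h5
    exact h3.append h2

lemma Path.red (hE : Folded E) {w w' : List (S × Bool)} (hw : Red w w') {p q : W}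
    (h : Path E w p q) : Path E w' p q := by
  induction hw with
  | refl => exact h
  | tail _ h2 ih => exact ih.step hE h2

lemma Path.mono {E' : Set (S × W × W)} (hE : E ⊆ E') {w : List (S × Bool)} {p q : W}
    (h : Path E w p q) : Path E' w p q := by
  induction w generalizing q with
  | nil => exact h
  | cons l w ih =>
    obtain ⟨p', h1, h2⟩ := h
    exact ⟨p', ih h1, hE h2⟩

lemma Path.map {E' : Set (S × W' × W')} (f : W → W') (hE : ∀ e ∈ E, emap f e ∈ E')
    {w : List (S × Bool)} {p q : W} (h : Path E w p q) : Path E' w (f p) (f q) := by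
  induction w generalizing q with
  | nil => exact congrArg f h
  | cons l w ih =>
    obtain ⟨p', h1, h2⟩ := h
    exact ⟨f p', ih h1, emap_edge f l p' q ▸ hE _ h2⟩

lemma PG.map {E' : Set (S × W' × W')} (f : W → W') (hE : ∀ e ∈ E, emap f e ∈ E')
    {g : FreeGroup S} {p q : W} (h : PG E g p q) : PG E' g (f p) (f q) := by
  obtain ⟨w, h1, h2⟩ := h
  exact ⟨w, h1, h2.map f hE⟩

lemma PG.one (p : W) : PG E 1 p p := ⟨[], rfl, rfl⟩

lemma PG.mul {g h : FreeGroup S} {p q r : W} (h1 : PG E g p q) (h2 : PG E h q r) :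
    PG E (h * g) p r := by
  obtain ⟨w, rfl, h1⟩ := h1
  obtain ⟨w', rfl, h2⟩ := h2
  exact ⟨w' ++ w, mul_mk.symm, h1.append h2⟩

lemma PG.inv {g : FreeGroup S} {p q : W} (h1 : PG E g p q) : PG E g⁻¹ q p := by
  obtain ⟨w, rfl, h1⟩ := h1
  exact ⟨invRev w, inv_mk.symm, h1.rev⟩

lemma PG.edge {l : S × Bool} {p q : W} (h : edge l p q ∈ E) : PG E (lt l) p q :=
  ⟨[l], rfl, p, rfl, h⟩

lemma PG.toWord [DecidableEq S] (hE : Folded E) {g : FreeGroup S} {p q : W} (h : PG E g p q) :
    Path E g.toWord p q := by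
  obtain ⟨w, rfl, h1⟩ := h
  rw [toWord_mk]
  exact h1.red hE reduce.red

lemma PG.det (hE : Folded E) {g : FreeGroup S} {p q q' : W} (h : PG E g p q) (h' : PG E g p q') :
    q = q' := by
  classical
  have := (h.inv.mul h').toWord hE
  simpa [Path] using this

lemma PG.of_mem (hE : Folded E) {u : S} {p q : W} (h : PG E (of u) p q) : (u, p, q) ∈ E := by
  classical
  have := h.toWord hE
  rw [toWord_of] at this
  obtain ⟨p', h1, h2⟩ := this
  cases h1
  exact h2

lemma Folded.image (hE : Folded E) (f : W → W') (g : W' → W)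
    (hg : ∀ e ∈ E, emap g (emap f e) = e) : Folded (emap f '' E) := by
  rintro l p q q' ⟨e, he, h1⟩ ⟨e', he', h2⟩
  have h3 := hg e he
  have h4 := hg e' he'
  rw [h1, emap_edge] at h3
  rw [h2, emap_edge] at h4
  have h5 := hE l _ _ _ (h3 ▸ he) (h4 ▸ he')
  rw [← h3, emap_edge] at h1
  rw [← h4, emap_edge] at h2
  rw [← (edge_inj h1).2, ← (edge_inj h2).2, h5]

section fold
open Classical
variable {V I : Type*}

/-- interior vertices -/
noncomputable def Itr (E : Finset (S × (V ⊕ I) × (V ⊕ I))) : Finset I :=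
  (E.image (·.2.1) ∪ E.image (·.2.2)).toRight

lemma mem_Itr {E : Finset (S × (V ⊕ I) × (V ⊕ I))} {i : I} :
    i ∈ Itr E ↔ ∃ e ∈ E, e.2.1 = inr i ∨ e.2.2 = inr i := by
  simp only [Itr, Finset.mem_toRight, Finset.mem_union, Finset.mem_image]
  constructor
  · rintro (⟨e, h1, h2⟩ | ⟨e, h1, h2⟩)
    · exact ⟨e, h1, Or.inl h2⟩
    · exact ⟨e, h1, Or.inr h2⟩
  · rintro ⟨e, h1, h2 | h2⟩
    · exact Or.inl ⟨e, h1, h2⟩
    · exact Or.inr ⟨e, h1, h2⟩

lemma fold_step (π : V ⊕ I → V) (E0 : Finset (S × (V ⊕ I) × (V ⊕ I))) {l : S × Bool}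
    {p q1 : V ⊕ I} {i : I} (h1 : edge l p q1 ∈ E0) (h2 : edge l p (inr i) ∈ E0)
    (hne : q1 ≠ inr i) (hπ : π q1 = π (inr i)) :
    ∃ r : V ⊕ I → V ⊕ I, (∀ v, r (inl v) = inl v) ∧ (∀ x, π (r x) = π x) ∧
      (E0.image (emap r)).card < E0.card ∧
      (Itr E0).card ≤ (Itr (E0.image (emap r))).card + 1 := by
  refine ⟨Function.update id (inr i) q1, fun v => by simp, fun x => ?_, ?_, ?_⟩
  · by_cases hx : x = inr i
    · subst hx; simp [hπ]
    · simp [Function.update_of_ne hx]
  · refine lt_of_le_of_ne Finset.card_image_le fun h => ?_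
    have := Finset.card_image_iff.1 h h1 h2 (by
      rw [emap_edge, emap_edge]; simp [Function.update_of_ne hne])
    exact hne (edge_inj this).2
  · refine le_trans (Finset.card_le_card (t := insert i _) fun j hj => ?_)
      (Finset.card_insert_le i _)
    by_cases hji : j = i
    · simp [hji]
    · refine Finset.mem_insert_of_mem (mem_Itr.2 ?_)
      obtain ⟨e, he, h⟩ := mem_Itr.1 hj
      refine ⟨_, Finset.mem_image_of_mem _ he, ?_⟩
      have hji' : (inr j : V ⊕ I) ≠ inr i := by simpa using hji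
      rcases h with h | h
      · left; simp [emap, h, Function.update_of_ne hji']
      · right; simp [emap, h, Function.update_of_ne hji']

lemma fold (π : V ⊕ I → V) (hπ : ∀ v, π (inl v) = v) (Γ : Set (S × V × V)) (hΓ : Folded Γ)
    (n : ℕ) : ∀ E0 : Finset (S × (V ⊕ I) × (V ⊕ I)), E0.card = n → (∀ e ∈ E0, emap π e ∈ Γ) →
      ∃ q : V ⊕ I → V ⊕ I, (∀ v, q (inl v) = inl v) ∧
        Folded (E0.image (emap q) : Set (S × (V ⊕ I) × (V ⊕ I))) ∧
        (E0.image (emap q)).card + (Itr E0).card ≤ E0.card + (Itr (E0.image (emap q))).card := by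
  induction n using Nat.strong_induction_on with
  | _ n ih =>
    intro E0 hn hE
    by_cases hF : Folded (E0 : Set (S × (V ⊕ I) × (V ⊕ I)))
    · have : E0.image (emap id) = E0 := Finset.image_id' 
      exact ⟨id, fun _ => rfl, by rw [this]; exact hF, by rw [this]⟩
    · simp only [Folded, not_forall] at hF
      obtain ⟨l, p, q1, q2, h1, h2, hne⟩ := hF
      have hp : π q1 = π q2 := hΓ l (π p) _ _ (emap_edge π l p q1 ▸ hE _ h1)
        (emap_edge π l p q2 ▸ hE _ h2)
      have : ∃ r : V ⊕ I → V ⊕ I, (∀ v, r (inl v) = inl v) ∧ (∀ x, π (r x) = π x) ∧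
          (E0.image (emap r)).card < E0.card ∧
          (Itr E0).card ≤ (Itr (E0.image (emap r))).card + 1 := by
        rcases q2 with v2 | i2
        · rcases q1 with v1 | i1
          · rw [hπ, hπ] at hp; exact absurd (congrArg inl hp) hne
          · exact fold_step π E0 h2 h1 (Ne.symm hne) hp.symm
        · exact fold_step π E0 h1 h2 hne hp
      obtain ⟨r, hr1, hr2, hr3, hr4⟩ := this
      obtain ⟨q, hq1, hq2, hq3⟩ := ih _ (hn ▸ hr3) (E0.image (emap r)) rfl (by
        intro e he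
        obtain ⟨e', he', rfl⟩ := Finset.mem_image.1 he
        have : emap π (emap r e') = emap π e' := by simp [emap, hr2]
        rw [this]; exact hE _ he')
      have e1 : (E0.image (emap r)).image (emap q) = E0.image (emap (q ∘ r)) := by
        rw [Finset.image_image]; rfl
      rw [e1] at hq2 hq3
      exact ⟨q ∘ r, fun v => by simp [hr1, hq1], hq2, by omega⟩

lemma fold' (π : V ⊕ I → V) (hπ : ∀ v, π (inl v) = v) (Γ : Set (S × V × V)) (hΓ : Folded Γ)
    (E0 : Finset (S × (V ⊕ I) × (V ⊕ I))) (hE : ∀ e ∈ E0, emap π e ∈ Γ) :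
      ∃ (q : V ⊕ I → V ⊕ I) (E : Finset (S × (V ⊕ I) × (V ⊕ I))), (∀ v, q (inl v) = inl v) ∧
        (∀ e, e ∈ E ↔ ∃ e0 ∈ E0, emap q e0 = e) ∧
        Folded (E : Set (S × (V ⊕ I) × (V ⊕ I))) ∧
        E.card + (Itr E0).card ≤ E0.card + (Itr E).card := by
  obtain ⟨q, h1, h2, h3⟩ := fold π hπ Γ hΓ _ E0 rfl hE
  exact ⟨q, _, h1, fun e => Finset.mem_image, h2, h3⟩

/-- the path graph of a word -/
noncomputable def Ew : List (S × Bool) → (ℕ → W) → Finset (S × W × W)
  | [], _ => ∅
  | l :: w, f => insert (edge l (f w.length) (f (w.length + 1))) (Ew w f)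

lemma card_Ew (w : List (S × Bool)) (f : ℕ → W) : (Ew w f).card ≤ w.length := by
  induction w with
  | nil => simp [Ew]
  | cons l w ih => exact (Finset.card_insert_le _ _).trans (by simpa using ih)

lemma mem_Ew {w : List (S × Bool)} {f : ℕ → W} {e : S × W × W} :
    e ∈ Ew w f ↔ ∃ l w', l :: w' <:+ w ∧ e = edge l (f w'.length) (f (w'.length + 1)) := by
  induction w with
  | nil => simp [Ew]
  | cons l w ih =>
    simp only [Ew, Finset.mem_insert, ih, List.suffix_cons_iff]
    constructor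
    · rintro (h | ⟨l', w', h1, h2⟩)
      · exact ⟨l, w, Or.inl rfl, h⟩
      · exact ⟨l', w', Or.inr h1, h2⟩
    · rintro ⟨l', w', h1 | h1, h2⟩
      · obtain ⟨rfl, rfl⟩ := List.cons.inj h1
        exact Or.inl h2
      · exact Or.inr ⟨l', w', h1, h2⟩

lemma path_Ew {w w' : List (S × Bool)} (f : ℕ → W) (h : w' <:+ w) :
    Path (Ew w f : Set (S × W × W)) w' (f 0) (f w'.length) := by
  induction w' with
  | nil => rfl
  | cons l w' ih =>
    exact ⟨_, ih ((List.suffix_cons l w').trans h), mem_Ew.2 ⟨l, w', h, rfl⟩⟩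

lemma edge_vert (l : S × Bool) (p q x : W) :
    ((edge l p q).2.1 = x ∨ (edge l p q).2.2 = x) ↔ (p = x ∨ q = x) := by
  rcases l with ⟨s, _ | _⟩ <;> simp [edge, or_comm]

end fold

end Pool.Agent.Lib.MP_572a3e_an
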