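import Pool.Agent.Lib.MP_572a3e_an.Bowen

namespace Pool.Agent.Lib.MP_572a3e_an

open MeasureTheory Filter Topology Real ENNReal Classical FreeGroup

variable {X A B C : Type*} [MeasurableSpace X] {μ : Measure X} [IsProbabilityMeasure μ]
  {S : Type*} [DecidableEq S] [MulAction (FreeGroup S) X]

/-- approximable by finite patterns -/
def Appr (S : Type*) [DecidableEq S] [MulAction (FreeGroup S) X] (μ : Measure X) (φ : X → A)
    (ξ : X → B) : Prop :=
  ∀ ε : ℝ≥0∞, ε ≠ 0 → ∃ (R : ℕ) (η : X → B), Le η (pat S R φ) ∧ μ {x | η x ≠ ξ x} ≤ ε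

lemma Appr.of_le {φ : X → A} {ξ : X → B} {ξ' : X → C} (h : Appr S μ φ ξ) (h' : Le ξ' ξ) :
    Appr S μ φ ξ' := by
  have : Nonempty X := nonempty_of_isProbabilityMeasure μ
  obtain ⟨f, hf⟩ := h'.exists
  intro ε hε
  obtain ⟨R, η, h1, h2⟩ := h ε hε
  refine ⟨R, fun x => f (η x), fun x y e => congrArg f (h1 x y e),
    le_trans (measure_mono fun x hx => ?_) h2⟩
  intro e
  exact hx (by simp only [hf, e])

omit [IsProbabilityMeasure μ] in
lemma Appr.pi {ι : Type*} [Finite ι] {φ : X → A} {ξ : ι → X → B} (h : ∀ i, Appr S μ φ (ξ i)) :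
    Appr S μ φ fun x i => ξ i x := by
  intro ε hε
  obtain ⟨δ, hδ, h1⟩ := ENNReal.exists_pos_sum_of_countable hε ι
  choose R η h2 h3 using fun i => h i (δ i) (by simpa using (hδ i).ne')
  have := Fintype.ofFinite ι
  refine ⟨Finset.univ.sup R, fun x i => η i x, fun x y e => funext fun i => h2 i _ _
    (pat_mono (fun _ _ e => e) (Finset.le_sup (Finset.mem_univ i)) _ _ e), ?_⟩
  refine le_trans (measure_mono (t := ⋃ i, {x | η i x ≠ ξ i x}) fun x hx => ?_)
    ((measure_iUnion_le _).trans ((ENNReal.tsum_le_tsum h3).trans h1.le))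
  simpa [funext_iff] using hx

omit [IsProbabilityMeasure μ] in
lemma Appr.limit {φ : X → A} {ξ : X → B}
    (h : ∀ ε : ℝ≥0∞, ε ≠ 0 → ∃ ξ', Appr S μ φ ξ' ∧ μ {x | ξ' x ≠ ξ x} ≤ ε) : Appr S μ φ ξ := by
  intro ε hε
  have h2 : ε / 2 ≠ 0 := (ENNReal.half_pos hε).ne'
  obtain ⟨ξ', h3, h4⟩ := h _ h2
  obtain ⟨R, η, h5, h6⟩ := h3 _ h2
  refine ⟨R, η, h5, le_trans (measure_mono (t := {x | η x ≠ ξ' x} ∪ {x | ξ' x ≠ ξ x})
    fun x hx => ?_) ((measure_union_le _ _).trans ?_)⟩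
  · by_contra hc
    simp only [Set.mem_union, Set.mem_ofPred_eq, not_or, not_not] at hc
    exact hx (hc.1.trans hc.2)
  · rw [← ENNReal.add_halves ε]; gcongr

lemma tendsto_measure_zero {E : ℕ → Set X} (hE : ∀ n, MeasurableSet (E n))
    (h : ∀ᵐ x ∂μ, ∀ᶠ n in atTop, x ∉ E n) : Tendsto (fun n => μ (E n)) atTop (𝓝 0) := by
  have := tendsto_measure_of_ae_tendsto_indicator_of_isFiniteMeasure atTop (μ := μ)
    MeasurableSet.empty hE (by simpa using h)
  simpa using this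

def Gen (S : Type*) [DecidableEq S] [MulAction (FreeGroup S) X] (μ : Measure X) (φ : X → A) :
    Prop := ∀ s, MeasurableSet s → Appr S μ φ fun x => x ∈ s

@[reducible] def apprSigma (S : Type*) [DecidableEq S] [MulAction (FreeGroup S) X] (μ : Measure X)
    [IsProbabilityMeasure μ] (φ : X → A) : MeasurableSpace X :=
    { MeasurableSet' := fun s => MeasurableSet s ∧ Appr S μ φ fun x => x ∈ s
      measurableSet_empty := ⟨MeasurableSet.empty, fun ε _ =>
        ⟨0, fun x => x ∈ (∅ : Set X), fun _ _ _ => rfl, by simp⟩⟩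
      measurableSet_compl := fun s hs => ⟨hs.1.compl, hs.2.of_le fun x y e => by
        simp only [Set.mem_compl_iff, e]⟩
      measurableSet_iUnion := fun s hs => ⟨MeasurableSet.iUnion fun i => (hs i).1, by
        refine Appr.limit fun ε hε => ?_
        have h1 := tendsto_measure_zero (μ := μ) (E := fun n => (⋃ i, s i) \ ⋃ i : Fin n, s i)
          (fun n => (MeasurableSet.iUnion fun i => (hs i).1).diff
            (MeasurableSet.iUnion fun i => (hs i).1)) (ae_of_all _ fun x => by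
              by_cases hx : x ∈ ⋃ i, s i
              · obtain ⟨i, hi⟩ := Set.mem_iUnion.1 hx
                filter_upwards [eventually_gt_atTop i] with n hn h
                exact h.2 (Set.mem_iUnion.2 ⟨⟨i, hn⟩, hi⟩)
              · exact Eventually.of_forall fun n h => hx h.1)
        obtain ⟨n, hn⟩ := (ENNReal.tendsto_nhds_zero.1 h1 ε (pos_iff_ne_zero.2 hε)).exists
        refine ⟨fun x => x ∈ ⋃ i : Fin n, s i, (Appr.pi fun i : Fin n => (hs i).2).of_le
          fun x y e => ?_, le_trans (measure_mono fun x hx => ?_) hn⟩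
        · simp only [Set.mem_iUnion, fun i => congrFun e i]
        · by_contra hc
          refine hx (propext ⟨fun h => ?_, fun h => by_contra fun h' => hc ⟨h, h'⟩⟩)
          obtain ⟨i, hi⟩ := Set.mem_iUnion.1 h
          exact Set.mem_iUnion.2 ⟨i, hi⟩⟩ }

lemma Gen.of_gen {φ : X → A} (hφ : Meas φ)
    (hT : ∀ g : FreeGroup S, MeasurePreserving (fun x : X => g • x) μ μ)
    (h : ∀ s, MeasurableSet s → ∃ t, MeasurableSet[⨆ g : FreeGroup S,
      MeasurableSpace.comap (fun x => φ (g • x)) ⊤] t ∧ s =ᵐ[μ] t) : Gen S μ φ := by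
  have hm : (⨆ g : FreeGroup S, MeasurableSpace.comap (fun x => φ (g • x)) ⊤) ≤
      apprSigma S μ φ := by
    refine iSup_le fun g => ?_
    rintro _ ⟨u, -, rfl⟩
    refine ⟨(hT g).measurable (hφ u), fun ε _ => ⟨g.norm, fun x => φ (g • x) ∈ u, fun x y e => ?_, by simp⟩⟩
    have := congrFun e ⟨g, le_rfl⟩
    simp only [pat] at this
    simp only [this]
  intro s hs
  obtain ⟨t, h1, h2⟩ := h s hs
  refine Appr.limit fun ε _ => ⟨_, (hm t h1).2, le_trans (le_of_eq ?_) zero_le⟩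
  exact ae_iff.1 h2.symm

omit [IsProbabilityMeasure μ] in
lemma Gen.of_le {φ : X → A} {φ' : X → B} (h : Gen S μ φ) (h' : Le φ φ') : Gen S μ φ' := by
  intro s hs ε hε
  obtain ⟨R, η, h1, h2⟩ := h s hs ε hε
  exact ⟨R, η, fun x y e => h1 _ _ (pat_mono h' le_rfl _ _ e), h2⟩

lemma Gen.appr [Finite B] {φ : X → A} (h : Gen S μ φ) {ξ : X → B} (hξ : Meas ξ) :
    Appr S μ φ ξ :=
  (Appr.pi fun b => h _ (hξ {b})).of_le fun x y e => by
    have := congrFun e (ξ y)
    simpa using this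

lemma exists_exhaust (A : Type*) [Countable A] :
    ∃ K : ℕ → Finset A, ∀ a, ∀ᶠ n in atTop, a ∈ K n := by
  obtain ⟨f, hf⟩ := exists_injective_nat A
  refine ⟨fun n => ((Set.finite_lt_nat n).preimage hf.injOn).toFinset, fun a => ?_⟩
  filter_upwards [eventually_gt_atTop (f a)] with n hn
  simpa using hn

noncomputable def trunc (K : Finset A) (a : A) : Option K :=
  if h : a ∈ K then some ⟨a, h⟩ else none

lemma trunc_inj {K : Finset A} {a b : A} (h : trunc K a = trunc K b) (ha : a ∈ K) : a = b := by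
  unfold trunc at h
  split_ifs at h
  simpa using h

omit [MeasurableSpace X] in
lemma resE_congr {E : Set X} {ξ : X → A} {x y : X} (h : x ∈ E ↔ y ∈ E) (h' : ξ x = ξ y) :
    resE E ξ x = resE E ξ y := by simp only [resE, h, h']

variable [Countable A] [Countable B] [Fintype S]
  (hT : ∀ g : FreeGroup S, MeasurePreserving (fun x : X => g • x) μ μ)
include hT

lemma approx_fin {φ : X → A} (hφ : FE μ φ) (h : Gen S μ φ) [Finite C] {ξ : X → C} (hξ : Meas ξ)
    {ε : ℝ≥0∞} (hε : ε ≠ 0) : ∃ (R : ℕ) (η : X → C), Le η (pat S R φ) ∧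
      μ {x | η x ≠ ξ x} ≤ ε ∧ He μ (resE {x | η x ≠ ξ x} η) ≤ ε := by
  choose R η h1 h2 using fun n : ℕ => h.appr hξ (n : ℝ≥0∞)⁻¹ (by simp)
  have h3 : Tendsto (fun n => μ {x | η n x ≠ ξ x}) atTop (𝓝 0) :=
    tendsto_of_tendsto_of_tendsto_of_le_of_le tendsto_const_nhds ENNReal.tendsto_inv_nat_nhds_zero
      (fun _ => zero_le) h2
  have hη : ∀ n, Meas (η n) := fun n => (hφ.pat hT _).meas.of_le (h1 n)
  have h4 := tendsto_He_resE_fin hη (fun n => ((hη n).pair hξ).set fun p => p.1 ≠ p.2) h3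
  obtain ⟨n, h5, h6⟩ := ((ENNReal.tendsto_nhds_zero.1 h3 ε (pos_iff_ne_zero.2 hε)).and
    (ENNReal.tendsto_nhds_zero.1 h4 ε (pos_iff_ne_zero.2 hε))).exists
  exact ⟨R n, η n, h1 n, h5, h6⟩

lemma approx {φ : X → A} (hφ : FE μ φ) (h : Gen S μ φ) {θ : X → B} (hθ : FE μ θ) {ε : ℝ}
    (hε : 0 < ε) : ∃ (K : Finset B) (R : ℕ) (η : X → Option K), Le η (pat S R φ) ∧
      H μ (resE {x | η x ≠ trunc K (θ x)} η) ≤ ε ∧
      H μ (resE {x | η x ≠ trunc K (θ x) ∨ θ x ∉ K} θ) ≤ ε := by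
  obtain ⟨K, hK⟩ := exists_exhaust B
  choose R η h1 h2 h3 using fun n : ℕ => approx_fin hT hφ h (hθ.meas.comp (trunc (K n)))
    (ε := (n : ℝ≥0∞)⁻¹) (by simp)
  have hη : ∀ n, Meas (η n) := fun n => (hφ.pat hT _).meas.of_le (h1 n)
  have m1 : ∀ n, MeasurableSet {x | η n x ≠ trunc (K n) (θ x)} :=
    fun n => ((hη n).pair hθ.meas).set fun p => p.1 ≠ trunc (K n) p.2
  have m2 : ∀ n, MeasurableSet {x | θ x ∉ K n} := fun n => hθ.meas.set fun p => p ∉ K n
  have t1 : Tendsto (fun n => μ {x | η n x ≠ trunc (K n) (θ x)}) atTop (𝓝 0) :=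
    tendsto_of_tendsto_of_tendsto_of_le_of_le tendsto_const_nhds ENNReal.tendsto_inv_nat_nhds_zero
      (fun _ => zero_le) h2
  have t2 := tendsto_measure_zero (μ := μ) m2 (ae_of_all _ fun x => by simpa using hK (θ x))
  have t3 : Tendsto (fun n => μ {x | η n x ≠ trunc (K n) (θ x) ∨ θ x ∉ K n}) atTop (𝓝 0) := by
    have := t1.add t2
    rw [add_zero] at this
    exact tendsto_of_tendsto_of_tendsto_of_le_of_le tendsto_const_nhds this (fun _ => zero_le)
      fun n => measure_union_le _ _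
  have t4 := tendsto_H_of_He (fun n => hθ.meas.resE ((m1 n).union (m2 n)))
    (tendsto_He_resE_fix hθ.meas hθ.fin (fun n => (m1 n).union (m2 n)) t3)
  have t5 := tendsto_H_of_He (μ := μ) (fun n => (hη n).resE (m1 n))
    (tendsto_of_tendsto_of_tendsto_of_le_of_le tendsto_const_nhds ENNReal.tendsto_inv_nat_nhds_zero
      (fun _ => zero_le) h3)
  obtain ⟨n, h5, h6⟩ := ((t5.eventually_le_const hε).and (t4.eventually_le_const hε)).exists
  exact ⟨K n, R n, η n, h1 n, h5, h6⟩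

omit hT [MeasurableSpace X] [Countable B] in
lemma le_res {K : Finset B} {θ : X → B} {η : X → Option K} {x y : X} (e1 : η x = η y)
    (e2 : resE {x | η x ≠ trunc K (θ x) ∨ θ x ∉ K} θ x =
      resE {x | η x ≠ trunc K (θ x) ∨ θ x ∉ K} θ y) : θ x = θ y := by
  simp only [resE, Set.mem_ofPred_eq] at e2
  split_ifs at e2 with h1 h2
  · simpa using e2
  · rename_i h3
    simp only [not_or, not_not] at h1 h3
    exact trunc_inj (h1.1.symm.trans (e1.trans h3.1)) h1.2

variable [Nonempty S]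

lemma gi_le {φ : X → A} (h : Gen S μ φ) {θ : X → B} (hθ : FE μ θ) (hle : Le φ θ) {ε : ℝ}
    (hε : 0 < ε) : ∃ R, F2 S μ (pat S R φ) ≤ F2 S μ θ + ε := by
  have hφ := hθ.of_le hle
  have hr : (1 : ℝ) ≤ Fintype.card S := by exact_mod_cast Fintype.card_pos
  obtain ⟨K, R, η, h1, h2, h3⟩ := approx hT hφ h hθ (ε := ε / (4 * Fintype.card S))
    (by positivity)
  have hη := (hφ.pat hT R).of_le h1
  have m1 : MeasurableSet {x | η x ≠ trunc K (θ x)} :=
    (hη.meas.pair hθ.meas).set fun p => p.1 ≠ trunc K p.2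
  have m2 : MeasurableSet {x | η x ≠ trunc K (θ x) ∨ θ x ∉ K} :=
    (hη.meas.pair hθ.meas).set fun p => p.1 ≠ trunc K p.2 ∨ p.2 ∉ K
  have k1 := F2_perturb hT (ξ' := pair φ η) hθ (hθ.resE m2) (hη.resE m1)
    (fun x y e => le_res (η := η) (congrArg Prod.snd (congrArg Prod.fst e)) (congrArg Prod.snd e)) (fun x y e => by
      simp only [pair, Prod.mk.injEq, resE, Set.mem_ofPred_eq] at e ⊢
      refine ⟨hle _ _ e.1, ?_⟩
      obtain ⟨e1, e2⟩ := e
      split_ifs at e2 with h4 h5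
      · simpa using e2
      · rename_i h6
        simp only [not_not] at h4 h6
        rw [h4, h6, e1])
  have k2 := F2_pat_le hT (hφ.pair hη) (φ := φ) (fun x y e => congrArg Prod.fst e) (R := R)
    fun x y e => Prod.ext (le_pat φ R _ _ e) (h1 _ _ e)
  refine ⟨R, k2.trans (k1.trans ?_)⟩
  have e : ε = 4 * Fintype.card S * (ε / (4 * Fintype.card S)) := by field_simp
  have := H_nonneg (μ := μ) (resE {x | η x ≠ trunc K (θ x) ∨ θ x ∉ K} θ)
  rw [add_assoc]
  nlinarith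

lemma gi_ge {φ : X → A} (h : Gen S μ φ) {θ : X → B} (hθ : FE μ θ) (hle : Le φ θ) {ε : ℝ}
    (hε : 0 < ε) : ∃ R, F2 S μ (pat S R θ) ≤ F2 S μ φ + ε := by
  have hφ := hθ.of_le hle
  have hr : (1 : ℝ) ≤ Fintype.card S := by exact_mod_cast Fintype.card_pos
  obtain ⟨K, R, η, h1, -, h3⟩ := approx hT hφ h hθ (ε := ε / (2 * Fintype.card S))
    (by positivity)
  have hη := (hφ.pat hT R).of_le h1
  have m2 : MeasurableSet {x | η x ≠ trunc K (θ x) ∨ θ x ∉ K} :=
    (hη.meas.pair hθ.meas).set fun p => p.1 ≠ trunc K p.2 ∨ p.2 ∉ K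
  set χ := resE {x | η x ≠ trunc K (θ x) ∨ θ x ∉ K} θ with hχ
  have hχ' : FE μ χ := hθ.resE m2
  have k1 := F2_perturb hT (ξ' := pair φ χ) hφ FE.unit hχ'
    (fun x y e => congrArg (fun p => p.1.1) e) fun x y e => e
  have k2 := F2_pat_le hT (hφ.pair hχ') (φ := pair φ χ) (fun x y e => e) (le_pat _ R)
  have k3 := F2_pat_le hT ((hφ.pair hχ').pat hT R) (φ := θ) (fun x y e =>
    le_res (h1 _ _ (pat_mono (fun _ _ e => congrArg Prod.fst e) le_rfl _ _ e))
      (congrArg Prod.snd (le_pat _ _ _ _ e))) (R := R + R) (pat_pat fun x y e => by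
        have e1 := le_pat _ _ _ _ e
        have e2 := h1 _ _ (pat_mono hle le_rfl _ _ e)
        refine Prod.ext (hle _ _ e1) ?_
        exact resE_congr (by simp only [Set.mem_ofPred_eq, e1, e2]) e1)
  refine ⟨R + R, k3.trans (k2.trans (k1.trans ?_))⟩
  rw [H_unit, mul_zero, add_zero]
  rw [le_div_iff₀ (by positivity)] at h3
  linarith

end Pool.Agent.Lib.MP_572a3e_an
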