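import Pool.Agent.Lib.MP_572a3e_an.Gen
import Pool.Agent.Lib.MP_572a3e_an.Asym

namespace Pool.Agent.Lib.MP_572a3e_an

open MeasureTheory Filter Topology Real ENNReal Classical FreeGroup

variable {X : Type*} [MeasurableSpace X] {μ : Measure X} [IsProbabilityMeasure μ]

lemma mass_eq {Ω B : Type*} [Fintype Ω] {Θ : X → Ω} (h : Meas Θ) (f : Ω → B) (b : B) :
    mass (fun ω => μ.real (Θ ⁻¹' {ω})) f b = μ.real ((fun x => f (Θ x)) ⁻¹' {b}) := by
  rw [mass, sum_measureReal_preimage_singleton _ fun _ _ => h _]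
  congr 1
  ext x; simp

lemma Hw_eq {Ω B : Type*} [Fintype Ω] [Fintype B] {Θ : X → Ω} (h : Meas Θ) (f : Ω → B) :
    Hw (fun ω => μ.real (Θ ⁻¹' {ω})) f = H μ fun x => f (Θ x) := by
  simp only [Hw, H, tsum_fintype, mass_eq h]

lemma sum_eq_lintegral {Ω : Type*} [Fintype Ω] {Θ : X → Ω} (h : Meas Θ) (f : Ω → ℕ) :
    ∑ ω, μ.real (Θ ⁻¹' {ω}) * f ω = (∫⁻ x, f (Θ x) ∂μ).toReal := by
  rw [lintegral_obs h fun ω => f ω, tsum_fintype, toReal_sum fun _ _ =>
    ENNReal.mul_ne_top (natCast_ne_top _) (measure_ne_top _ _)]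
  exact Finset.sum_congr rfl fun ω _ => by simp [measureReal_def, mul_comm]

variable {S : Type*} [DecidableEq S] {A : Type*}
  (a : S → A → FreeGroup S) (b : S × Bool → A → FreeGroup S) (ρ : ℕ)

noncomputable def zsel (u : S) (p : Ball S ρ → A) : Option A :=
  if h : ∃ c, ∀ ω, res ρ ω = p → (cfg a b).g4 u ω ∧ (cfg a b).step (u, true) ω 1 = c then
    some h.choose else none

noncomputable def lsel (s : S) (p : Ball S ρ → A) : ℕ :=
  if ∀ ω, res ρ ω = p → (cfg a b).g5 s ω then 0 else (a s (p (ctr ρ))).norm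

lemma zsel_spec (u : S) (ω : FreeGroup S → A) (c : A) (h : zsel a b ρ u (res ρ ω) = some c) :
    (cfg a b).g4 u ω ∧ (cfg a b).step (u, true) ω 1 = c := by
  unfold zsel at h
  split_ifs at h with h1
  rw [← Option.some.inj h]
  exact h1.choose_spec ω rfl

lemma lsel_spec (s : S) (ω : FreeGroup S → A) (h : ¬ (cfg a b).g5 s ω) :
    (a s (ω 1)).norm ≤ lsel a b ρ s (res ρ ω) := by
  unfold lsel
  rw [if_neg fun h1 => h (h1 ω rfl)]
  rfl

variable [Fintype S] [Nonempty S] [Fintype A] [MulAction (FreeGroup S) X]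
  (hT : ∀ g : FreeGroup S, MeasurePreserving (fun x : X => g • x) μ μ)

include hT in
theorem meas_ineq {y : X → A} (hy : Meas y)
    (hm : ∑ s, (∫⁻ x, lsel a b ρ s (pat S ρ y x) ∂μ).toReal < 1) {l : ℝ} (hl0 : 0 < l)
    (hl1 : l ≤ 1) :
    F2 S μ (pat S ρ y) ≤ (1 - 2 * Fintype.card S) * H μ y +
      ∑ u, H μ (pair y fun x => zsel a b ρ u (pat S ρ y x)) +
      ∑ u, ∑ c, negMulLog (max (μ.real (y ⁻¹' {c}) -
        μ.real ((fun x => zsel a b ρ u (pat S ρ y x)) ⁻¹' {some c})) 0)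
      + (∑ u, ∑ c, max (μ.real (y ⁻¹' {c}) -
        μ.real ((fun x => zsel a b ρ u (pat S ρ y x)) ⁻¹' {some c})) 0) *
        (1 + Real.log (5 * Fintype.card S / l))
      + (∑ s, (∫⁻ x, lsel a b ρ s (pat S ρ y x) ∂μ).toReal) * Real.log (5 * Fintype.card S / l ^ 2)
      + 2 * l := by
  have hη := ((FE.of_finite (μ := μ) hy).pat hT ρ).meas
  let Θ : X → (Ball S ρ → A) × (S → Ball S ρ → A) :=
    pair (pat S ρ y) fun x s => pat S ρ y (of s • x)
  have hΘ : Meas Θ := hη.pair (Meas.pi fun s => hη.comp_meas (hT _).measurable)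
  have e1 : ∀ s, ∑ ω, μ.real (Θ ⁻¹' {ω}) * lsel a b ρ s ω.1 =
      (∫⁻ x, lsel a b ρ s (pat S ρ y x) ∂μ).toReal :=
    fun s => sum_eq_lintegral hΘ fun ω => lsel a b ρ s ω.1
  have := weight_ineq a b (zsel a b ρ) (lsel a b ρ) (zsel_spec a b ρ) (lsel_spec a b ρ)
    (fun ω => μ.real (Θ ⁻¹' {ω})) (fun _ => measureReal_nonneg)
    (by rw [sum_measureReal_preimage_singleton _ fun _ _ => hΘ _]; simp)
    Prod.fst (fun s ω => ω.2 s) (fun s => ?_) (fun s ω h => ?_) (by simpa only [e1] using hm)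
    hl0 hl1
  · simp only [e1, Hw_eq hΘ, mass_eq hΘ] at this
    have e2 : (fun x => (Θ x).1 (ctr ρ)) = y := by funext x; simp [Θ, pair, pat, ctr]
    have e3 : ∀ u, (fun x => pair (fun ω : (Ball S ρ → A) × (S → Ball S ρ → A) => ω.1 (ctr ρ))
        (zsel a b ρ u ∘ Prod.fst) (Θ x)) = pair y fun x => zsel a b ρ u (pat S ρ y x) := by
      intro u; funext x; simp [Θ, pair, pat, ctr]
    simp only [e2, e3] at this
    exact this
  · funext p
    rw [mass_eq hΘ, mass_eq hΘ]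
    exact (hT (of s)).measureReal_preimage (hη {p}).nullMeasurableSet
  · obtain ⟨x, hx⟩ : (Θ ⁻¹' {ω}).Nonempty := by
      by_contra hc
      rw [Set.not_nonempty_iff_eq_empty] at hc
      exact h (by simp [hc])
    rw [← (show Θ x = ω from hx)]
    intro g g' e
    simp [Θ, pair, pat, e, mul_smul]

omit [Fintype S] [Nonempty S] [Fintype A] [DecidableEq S] in
lemma link_q {y y' : X → A} {z : X → Option A} (hz : Meas z)
    (h1 : ∀ c, μ.real (y ⁻¹' {c}) = μ.real (y' ⁻¹' {c}))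
    (h2 : ∀ᵐ x ∂μ, ∀ c, z x = some c → c = y' x) (c : A) :
    max (μ.real (y ⁻¹' {c}) - μ.real (z ⁻¹' {some c})) 0 =
      μ.real (resE (z ⁻¹' {none}) y' ⁻¹' {some c}) := by
  have e1 := measureReal_inter_add_sdiff (μ := μ) (s := y' ⁻¹' {c}) (hz {none})
  have e2 : μ.real (y' ⁻¹' {c} \ z ⁻¹' {none}) = μ.real (z ⁻¹' {some c}) := by
    refine measureReal_congr ?_
    filter_upwards [h2] with x hx
    refine propext ⟨fun h => ?_, fun h => ⟨(hx c h).symm, fun h' => ?_⟩⟩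
    · obtain ⟨c', hc'⟩ := Option.ne_none_iff_exists'.1 h.2
      have := hx c' hc'
      rw [h.1] at this
      exact this ▸ hc'
    · exact absurd ((show z x = none from h').symm.trans (show z x = some c from h)) (by simp)
  have e3 : resE (z ⁻¹' {none}) y' ⁻¹' {some c} = y' ⁻¹' {c} ∩ z ⁻¹' {none} := by
    ext x; simp [resE, and_comm]
  rw [e3, h1, ← e1, e2, add_sub_cancel_right, max_eq_left measureReal_nonneg]

omit [Fintype S] [Nonempty S] [DecidableEq S] in
lemma sum_nml_le (ξ : X → Option A) :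
    ∑ c, negMulLog (μ.real (ξ ⁻¹' {some c})) ≤ H μ ξ := by
  rw [H, tsum_fintype, Fintype.sum_option]
  linarith [nml_nonneg (μ := μ) (ξ ⁻¹' {none})]

omit [Fintype S] [Nonempty S] [DecidableEq S] in
lemma sum_res {ξ : X → A} (h : Meas ξ) {E : Set X} (hE : MeasurableSet E) :
    ∑ c, μ.real (resE E ξ ⁻¹' {some c}) = μ.real E := by
  rw [← Finset.sum_image (s := Finset.univ) (g := some)
    (f := fun o => μ.real (resE E ξ ⁻¹' {o})) (Option.some_injective A).injOn,
    sum_measureReal_preimage_singleton _ fun _ _ => h.resE hE _]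
  congr 1
  ext x
  by_cases hx : x ∈ E <;> simp [resE, hx]

end Pool.Agent.Lib.MP_572a3e_an
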