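import Pool.Agent.Lib.MP_572a3e_an.Link

namespace Pool.Agent.Lib.MP_572a3e_an

open MeasureTheory Filter Topology Real ENNReal Classical FreeGroup

variable {S C : Type*} [DecidableEq S]

def aO (a : C → FreeGroup S) : Option C → FreeGroup S := fun o => o.elim 1 a

def io (K : Finset C) : Option K → Option C := Option.map Subtype.val

lemma io_inj (K : Finset C) : Function.Injective (io K) :=
  Option.map_injective Subtype.val_injective

lemma io_trunc {K : Finset C} {c : C} (h : c ∈ K) : io K (trunc K c) = some c := by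
  simp [io, trunc, h]

lemma io_trunc' {K : Finset C} {c : C} (h : c ∉ K) : io K (trunc K c) = none := by
  simp [io, trunc, h]

variable (a : S → C → FreeGroup S) (b : S × Bool → C → FreeGroup S)

def aK (K : Finset C) : S → Option K → FreeGroup S := fun s o => aO (a s) (io K o)
def bK (K : Finset C) : S × Bool → Option K → FreeGroup S := fun s o => aO (b s) (io K o)

omit [DecidableEq S] in
lemma hom_K (K : Finset C) : (cfg (aK a K) (bK b K)).Hom
    (cfg (fun s => aO (a s)) fun l => aO (b l)) fun ω g => io K (ω g) :=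
  ⟨fun _ _ => rfl, fun _ _ => rfl, fun _ _ => rfl⟩

variable {X : Type*} [MulAction (FreeGroup S) X] (θ : X → C)

def sysX : Sys S X :=
  ⟨MulAction.toPermHom (FreeGroup S) X, fun s x => a s (θ x), fun l x => b l (θ x)⟩

omit [DecidableEq S] in
lemma hom_X : (sysX a b θ).Hom (cfg (fun s => aO (a s)) fun l => aO (b l))
    fun x g => some (θ (g • x)) :=
  ⟨fun g x => by funext k; simp [sysX, cfg, mul_smul], fun _ _ => by simp [sysX, cfg, aO],
    fun _ _ => by simp [sysX, cfg, aO]⟩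

lemma ev_FD [Finite S] {K : ℕ → Finset C} (hK : ∀ c, ∀ᶠ n in atTop, c ∈ K n) {β : Type*}
    {f : (FreeGroup S → Option C) → β} (hf : FD f) (x : X) :
    ∀ᶠ n in atTop, ∀ ω : FreeGroup S → Option (K n),
      res n ω = pat S n (fun x => trunc (K n) (θ x)) x →
      f (fun g => io (K n) (ω g)) = f fun g => some (θ (g • x)) := by
  obtain ⟨R, hR⟩ := hf fun g => some (θ (g • x))
  have h1 : ∀ᶠ n in atTop, ∀ g : Ball S R, θ (g.1 • x) ∈ K n := eventually_all.2 fun g => hK _
  filter_upwards [h1, eventually_ge_atTop R] with n h1 h2 ω hω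
  refine hR _ fun g hg => ?_
  have := congrFun hω ⟨g, hg.trans h2⟩
  simp only [res, pat] at this
  rw [this, io_trunc (h1 ⟨g, hg⟩)]

lemma ev_z [Finite S] {K : ℕ → Finset C} (hK : ∀ c, ∀ᶠ n in atTop, c ∈ K n) {u : S} {x : X}
    (h : (sysX a b θ).g4 u x) : ∀ᶠ n in atTop,
      zsel (aK a (K n)) (bK b (K n)) n u (pat S n (fun x => trunc (K n) (θ x)) x) ≠ none := by
  have f1 := (FD.g4 (fun s => aO (a s)) (fun l => aO (b l)) u).comp₂
    (FD.eval.step (fun s => aO (a s)) (fun l => aO (b l)) (u, true)) Prod.mk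
  filter_upwards [ev_FD θ hK f1 x] with n hn
  rw [zsel, dif_pos]
  · simp
  have key : ∀ ω, res n ω = pat S n (fun x => trunc (K n) (θ x)) x →
      (cfg (aK a (K n)) (bK b (K n))).g4 u ω ∧
      io (K n) ((cfg (aK a (K n)) (bK b (K n))).step (u, true) ω 1) =
        (cfg (fun s => aO (a s)) fun l => aO (b l)).step (u, true)
          (fun g => some (θ (g • x))) 1 := by
    intro ω hω
    have := hn ω hω
    simp only [Prod.mk.injEq] at this
    rw [← (hom_K a b (K n)).g4, ← (hom_X a b θ).g4, ← (hom_K a b (K n)).step] at this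
    exact ⟨this.1 ▸ h, this.2⟩
  refine ⟨(cfg (aK a (K n)) (bK b (K n))).step (u, true) (fun g => trunc (K n) (θ (g • x))) 1,
    fun ω hω => ⟨(key ω hω).1, io_inj _ ((key ω hω).2.trans (key _ rfl).2.symm)⟩⟩

lemma ev_l [Finite S] {K : ℕ → Finset C} (hK : ∀ c, ∀ᶠ n in atTop, c ∈ K n) {s : S} {x : X}
    (h : (sysX a b θ).g5 s x) : ∀ᶠ n in atTop,
      lsel (aK a (K n)) (bK b (K n)) n s (pat S n (fun x => trunc (K n) (θ x)) x) = 0 := by
  filter_upwards [ev_FD θ hK (FD.g5 (fun s => aO (a s)) (fun l => aO (b l)) s) x] with n hn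
  rw [lsel, if_pos]
  intro ω hω
  have := hn ω hω
  rw [← (hom_K a b (K n)).g5, ← (hom_X a b θ).g5] at this
  exact this ▸ h

lemma lsel_le (K : Finset C) (n : ℕ) (s : S) (x : X) :
    lsel (aK a K) (bK b K) n s (pat S n (fun x => trunc K (θ x)) x) ≤ (a s (θ x)).norm := by
  unfold lsel
  split_ifs
  · exact Nat.zero_le _
  · by_cases h : θ x ∈ K
    · simp [aK, pat, ctr, io_trunc h, aO]
    · simp [aK, pat, ctr, io_trunc' h, aO]

lemma zsel_val (K : Finset C) (n : ℕ) (u : S) (x : X) (c : Option K)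
    (h : zsel (aK a K) (bK b K) n u (pat S n (fun x => trunc K (θ x)) x) = some c) :
    c = trunc K (θ (b (u, true) (θ x) • x)) := by
  obtain ⟨h1, h2⟩ := zsel_spec (aK a K) (bK b K) n u (fun g => trunc K (θ (g • x))) c h
  by_cases hx : θ x ∈ K
  · rw [← h2]
    simp [Sys.step, cfg, bK, io_trunc hx, aO]
  · have := h1.2.2
    simp only [cfg, bK, one_smul, io_trunc' hx, aO, Option.elim, toWord_one, prd] at this
    exact absurd this (one_ne_of u)

variable {Y : Type*} [MulAction (FreeGroup S) Y] [MeasurableSpace X] [MeasurableSpace Y]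
  {μ : Measure X} {ν : Measure Y} [IsProbabilityMeasure μ] [IsProbabilityMeasure ν]
  [Fintype S] [Nonempty S] [Countable C]
  (hT : ∀ g : FreeGroup S, MeasurePreserving (fun x : X => g • x) μ μ)
  (hU : ∀ g : FreeGroup S, MeasurePreserving (fun y : Y => g • y) ν ν)
  (hTf : ∀ᵐ x ∂μ, ∀ g : FreeGroup S, g • x = x → g = 1)
  (hUf : ∀ᵐ y ∂ν, ∀ g : FreeGroup S, g • y = y → g = 1)
  {Φ : X → Y} {Ψ : Y → X} (hΦ : MeasurePreserving Φ μ ν) (hΨ : MeasurePreserving Ψ ν μ)
  (hΨΦ : ∀ᵐ x ∂μ, Ψ (Φ x) = x) (hΦΨ : ∀ᵐ y ∂ν, Φ (Ψ y) = y)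
  {θ' : Y → C}
  (ha : ∀ s, ∀ᵐ x ∂μ, a s (θ' (Φ x)) • Φ x = Φ (of s • x))
  (hb : ∀ l, ∀ᵐ y ∂ν, b l (θ' y) • Ψ y = Ψ (lt l • y))

omit [IsProbabilityMeasure μ] [IsProbabilityMeasure ν] [Nonempty S] [Countable C] in
include hT hU hTf hUf hΦ hΨΦ hΦΨ ha hb in
lemma ae_good : ∀ᵐ x ∂μ, (∀ u, (sysX a b fun x => θ' (Φ x)).g4 u x) ∧
    (∀ u, (sysX a b fun x => θ' (Φ x)).g5 u x) ∧
    ∀ l, Φ (b l (θ' (Φ x)) • x) = lt l • Φ x := by
  let Q : X → Prop := fun x => (∀ g : FreeGroup S, g • x = x → g = 1) ∧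
    (∀ g : FreeGroup S, g • Φ x = Φ x → g = 1) ∧ Ψ (Φ x) = x ∧
    (∀ s, a s (θ' (Φ x)) • Φ x = Φ (of s • x)) ∧ ∀ l, Φ (b l (θ' (Φ x)) • x) = lt l • Φ x
  have hQ : ∀ᵐ x ∂μ, Q x := by
    filter_upwards [hTf, hΦ.quasiMeasurePreserving.ae hUf, hΨΦ, ae_all_iff.2 ha,
      hΦ.quasiMeasurePreserving.ae (ae_all_iff.2 hb), hΦ.quasiMeasurePreserving.ae
      (ae_all_iff.2 fun l => (hU (lt l)).quasiMeasurePreserving.ae hΦΨ)] with x h1 h2 h3 h4 h5 h6
    refine ⟨h1, h2, h3, h4, fun l => ?_⟩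
    rw [← h6 l, ← h5 l, h3]
  have hP : ∀ᵐ x ∂μ, ∀ g : FreeGroup S, Q (g • x) :=
    ae_all_iff.2 fun g => (hT g).quasiMeasurePreserving.ae hQ
  filter_upwards [hP] with x hx
  have k0 : ∀ v, (∀ g : FreeGroup S, Q (g • v)) → Q v := fun v h => by simpa using h 1
  have k1 : ∀ (g : FreeGroup S) v, (∀ g : FreeGroup S, Q (g • v)) →
      ∀ k : FreeGroup S, Q (k • (sysX a b fun x => θ' (Φ x)).T g v) := fun g v h k => by
    simpa [sysX, smul_smul] using h (k * g)
  have k2 : ∀ v w, (∀ g : FreeGroup S, Q (g • v)) → (∀ g : FreeGroup S, Q (g • w)) →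
      Φ v = Φ w → v = w := fun v w hv hw e => by
    rw [← (k0 v hv).2.2.1, e, (k0 w hw).2.2.1]
  exact ⟨fun u => Sys.ag4 _ (MulAction.toPermHom (FreeGroup S) Y) Φ _ k1 k2
      (fun g v h => (k0 v h).1 g) (fun g v h => (k0 v h).2.1 g) (fun g v h => (k0 v h).2.2.2.1 g)
      (fun g v h => (k0 v h).2.2.2.2 g) u x hx,
    fun u => Sys.ag5 _ (MulAction.toPermHom (FreeGroup S) Y) Φ _ k1 k2
      (fun g v h => (k0 v h).1 g) (fun g v h => (k0 v h).2.1 g) (fun g v h => (k0 v h).2.2.2.1 g)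
      (fun g v h => (k0 v h).2.2.2.2 g) u x hx, (k0 x hx).2.2.2.2⟩

include hT hU hTf hUf hΦ hΨΦ hΦΨ ha hb in
theorem main_lemma (hθ' : FE ν θ') (hi : ∀ s, ∫⁻ x, (a s (θ' (Φ x))).norm ∂μ ≠ ∞) {ε : ℝ}
    (hε : 0 < ε) : ∃ ρ, F2 S μ (pat S ρ fun x => θ' (Φ x)) ≤ F2 S ν θ' + ε := by
  have hg := ae_good a b hT hU hTf hUf hΦ hΨΦ hΦΨ ha hb
  obtain ⟨K, hK⟩ := exists_exhaust C
  set θ : X → C := fun x => θ' (Φ x) with hθdef
  have hθ : FE μ θ := hθ'.comp hΦ
  let θu : S → X → C := fun u x => θ' (of u • Φ x)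
  have hθu : ∀ u, FE μ (θu u) := fun u => (hθ'.sh hU (of u)).comp hΦ
  let y : ∀ n, X → Option (K n) := fun n x => trunc (K n) (θ x)
  have hy : ∀ n, Meas (y n) := fun n => hθ.meas.comp _
  have hη : ∀ n, FE μ (pat S n (y n)) := fun n => (FE.of_finite (hy n)).pat hT n
  let z : ∀ n, S → X → Option (Option (K n)) :=
    fun n u x => zsel (aK a (K n)) (bK b (K n)) n u (pat S n (y n) x)
  have hz : ∀ n u, Meas (z n u) := fun n u => (hη n).meas.comp _
  have hzv : ∀ n u, ∀ᵐ x ∂μ, ∀ c, z n u x = some c → c = trunc (K n) (θu u x) := by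
    intro n u
    filter_upwards [hg] with x hx c hc
    rw [zsel_val a b θ _ _ _ _ _ hc]
    simp only [hθdef, hx.2.2, θu, lt_true]
  have tE : ∀ u, Tendsto (fun n => μ (z n u ⁻¹' {none})) atTop (𝓝 0) := fun u =>
    tendsto_measure_zero (fun n => hz n u _) (by
      filter_upwards [hg] with x hx
      exact ev_z a b θ hK (hx.1 u))
  have tE' : ∀ u, Tendsto (fun n => μ.real (z n u ⁻¹' {none})) atTop (𝓝 0) := fun u =>
    (tendsto_toReal zero_ne_top).comp (tE u)
  have tH : ∀ u, Tendsto (fun n => H μ (resE (z n u ⁻¹' {none}) (θu u))) atTop (𝓝 0) := fun u =>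
    tendsto_H_of_He (fun n => (hθu u).meas.resE (hz n u _))
      (tendsto_He_resE_fix (hθu u).meas (hθu u).fin (fun n => hz n u _) (tE u))
  have m2 : ∀ n, MeasurableSet {x | θ x ∉ K n} := fun n => hθ.meas.set fun p => p ∉ K n
  have tχ : Tendsto (fun n => H μ (resE {x | θ x ∉ K n} θ)) atTop (𝓝 0) :=
    tendsto_H_of_He (fun n => hθ.meas.resE (m2 n)) (tendsto_He_resE_fix hθ.meas hθ.fin m2
      (tendsto_measure_zero m2 (ae_of_all _ fun x => by simpa using hK (θ x))))
  have tl : ∀ s, Tendsto (fun n =>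
      (∫⁻ x, lsel (aK a (K n)) (bK b (K n)) n s (pat S n (y n) x) ∂μ).toReal) atTop (𝓝 0) := by
    intro s
    have := tendsto_lintegral_of_dominated_convergence (μ := μ) (f := fun _ => 0)
      (F := fun n x => lsel (aK a (K n)) (bK b (K n)) n s (pat S n (y n) x))
      (fun x => (a s (θ x)).norm) (fun n => (hη n).meas.measurable
        fun p => (lsel (aK a (K n)) (bK b (K n)) n s p : ℝ≥0∞))
      (fun n => ae_of_all _ fun x => Nat.cast_le.2 (lsel_le a b θ _ _ _ _)) (hi s) (by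
        filter_upwards [hg] with x hx
        refine tendsto_const_nhds.congr' ?_
        filter_upwards [ev_l a b θ hK (hx.2.1 s)] with n hn
        rw [hn, Nat.cast_zero])
    rw [lintegral_zero] at this
    exact (tendsto_toReal zero_ne_top).comp this
  have tl' := tendsto_finsetSum Finset.univ fun s _ => tl s
  obtain ⟨l, hl0, hl1, hl2⟩ : ∃ l : ℝ, 0 < l ∧ l ≤ 1 ∧ 2 * l < ε :=
    ⟨min 1 (ε / 4), by positivity, min_le_left _ _, by linarith [min_le_right 1 (ε / 4)]⟩
  have tall := ((((tχ.const_mul (4 * Fintype.card S : ℝ)).add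
    ((tendsto_finsetSum Finset.univ fun u _ => tH u).const_mul 2)).add
    ((tendsto_finsetSum Finset.univ fun u _ => tE' u).mul_const
      (1 + Real.log (5 * Fintype.card S / l)))).add
      (tl'.mul_const (Real.log (5 * Fintype.card S / l ^ 2)))).add_const (2 * l)
  simp only [Finset.sum_const_zero, mul_zero, zero_mul, add_zero, zero_add] at tall tl'
  obtain ⟨n, h1, h2⟩ := ((tall.eventually_lt_const hl2).and
    (tl'.eventually_lt_const zero_lt_one)).exists
  refine ⟨n, ?_⟩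
  have hr : (1 : ℝ) ≤ Fintype.card S := by exact_mod_cast Fintype.card_pos
  have hχ := hθ.resE (m2 n)
  have hle : ∀ x x', y n x = y n x' → resE {x | θ x ∉ K n} θ x = resE {x | θ x ∉ K n} θ x' →
      θ x = θ x' := by
    intro x x' e1 e2
    simp only [resE, Set.mem_ofPred_eq] at e2
    split_ifs at e2 with h3 h4
    · exact trunc_inj e1 h3
    · simpa using e2
  have k1 := F2_pat_le hT ((hη n).pair hχ) (φ := θ) (R := n) (fun x x' e =>
    hle _ _ (le_pat _ _ _ _ (congrArg Prod.fst e)) (congrArg Prod.snd e)) fun x x' e => by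
      have e1 := le_pat _ _ _ _ e
      exact Prod.ext (pat_mono (fun _ _ e => congrArg (trunc (K n)) e) le_rfl _ _ e)
        (resE_congr (by simp only [Set.mem_ofPred_eq, e1]) e1)
  have k2 := F2_perturb hT (ξ' := pair (pat S n (y n)) (resE {x | θ x ∉ K n} θ)) (hη n) FE.unit hχ
    (fun x y e => congrArg (fun p => p.1.1) e) fun x y e => e
  rw [H_unit, mul_zero, add_zero] at k2
  have k3 := meas_ineq (aK a (K n)) (bK b (K n)) n hT (hy n) h2 hl0 hl1
  have k4 : ∀ u c, max (μ.real (y n ⁻¹' {c}) - μ.real (z n u ⁻¹' {some c})) 0 =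
      μ.real (resE (z n u ⁻¹' {none}) (fun x => trunc (K n) (θu u x)) ⁻¹' {some c}) := by
    intro u
    refine link_q (hz n u) (fun c => ?_) (hzv n u)
    have m := (hθ'.meas.comp (trunc (K n)) {c}).nullMeasurableSet (μ := ν)
    exact (hΦ.measureReal_preimage m).trans (((hU (of u)).comp hΦ).measureReal_preimage m).symm
  have k5 : ∀ u, ∑ c, negMulLog (μ.real (resE (z n u ⁻¹' {none})
      (fun x => trunc (K n) (θu u x)) ⁻¹' {some c})) ≤ H μ (resE (z n u ⁻¹' {none}) (θu u)) := by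
    intro u
    refine (sum_nml_le _).trans (H_mono ((hθu u).resE (hz n u _)) fun x x' e => ?_)
    simp only [resE] at e ⊢
    split_ifs at e ⊢ <;> simp_all
  have k6 : ∀ u, H μ (pair (y n) (z n u)) ≤ H ν (pair θ' (sh (of u) θ')) +
      H μ (resE (z n u ⁻¹' {none}) (θu u)) := by
    intro u
    have f1 := hθ.pair (hθu u)
    have f2 := (hθu u).resE (hz n u {none})
    rw [← H_comp (hθ'.pair (hθ'.sh hU (of u))).meas hΦ]
    refine le_trans ?_ (H_pair_le f1 f2)
    rw [H_congr_ae (η := fun x => (trunc (K n) (θ x),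
      if resE (z n u ⁻¹' {none}) (θu u) x = none then some (trunc (K n) (θu u x)) else none))]
    · refine H_mono (f1.pair f2) fun x x' e => ?_
      simp only [pair, Prod.mk.injEq] at e
      have e1 : θ x = θ x' := e.1.1
      have e2 : θu u x = θu u x' := e.1.2
      simp only [e1, e2, e.2]
    · filter_upwards [hzv n u] with x hx
      refine Prod.ext rfl ?_
      simp only [pair, resE, Set.mem_preimage, Set.mem_singleton_iff]
      cases hc : z n u x with
      | none => simp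
      | some c => simp [hx c hc]
  have k7 := (H_mono ((FE.of_finite (hy n)).pair hχ) fun x x' e =>
    hle _ _ (congrArg Prod.fst e) (congrArg Prod.snd e)).trans
      (H_pair_le (FE.of_finite (hy n)) hχ)
  rw [show H μ θ = H ν θ' from H_comp hθ'.meas hΦ] at k7
  have k4' := fun u => sum_res (μ := μ) ((hθu u).meas.comp (trunc (K n))) (hz n u {none})
  simp only [z] at k4 k4'
  simp only [k4, k4'] at k3
  have k8 := Finset.sum_le_sum fun u (_ : u ∈ Finset.univ) => k5 u
  have k9 := Finset.sum_le_sum fun u (_ : u ∈ Finset.univ) => k6 u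
  rw [Finset.sum_add_distrib] at k9
  have k10 := H_nonneg (μ := μ) (resE {x | θ x ∉ K n} θ)
  have k11 : (1 - 2 * Fintype.card S : ℝ) * H μ (y n) ≤ (1 - 2 * Fintype.card S) * H ν θ' +
      2 * Fintype.card S * H μ (resE {x | θ x ∉ K n} θ) := by nlinarith
  simp only [z] at k8 k9 h1
  rw [F2.eq_1 S ν]
  linarith

end Pool.Agent.Lib.MP_572a3e_an
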