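import Pool.Agent.Lib.MP_572a3e_an.Fold

namespace Pool.Agent.Lib.MP_572a3e_an

open FreeGroup Sum Classical

variable {S V : Type*} [DecidableEq S] (Z : Sys S V)

namespace Sys

noncomputable def vert (t : S × V) (j : ℕ) : V ⊕ (S × V × ℕ) :=
  if j = 0 then inl t.2 else if j = (Z.a t.1 t.2).toWord.length then inl (Z.T (of t.1) t.2)
  else inr (t.1, t.2, j)

def proj : V ⊕ (S × V × ℕ) → V
  | inl v => v
  | inr (s, v, j) => pos Z.T Z.b ((Z.a s v).toWord.drop ((Z.a s v).toWord.length - j)) v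

lemma g3_pos {s : S} {v : V} (h : Z.g3 s v) : pos Z.T Z.b (Z.a s v).toWord v = Z.T (of s) v := by
  rw [pos_eq, h.2]

lemma g3_len {s : S} {v : V} (h : Z.g3 s v) : (Z.a s v).toWord.length ≠ 0 := by
  intro h0
  have h1 := h.2
  rw [List.length_eq_zero_iff.1 h0] at h1
  exact one_ne_of s h1

lemma proj_vert {s : S} {v : V} (h : Z.g3 s v) {w : List (S × Bool)}
    (hw : w <:+ (Z.a s v).toWord) : Z.proj (Z.vert (s, v) w.length) = pos Z.T Z.b w v := by
  unfold vert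
  split_ifs with h1 h2
  · rw [List.length_eq_zero_iff.1 h1]; rfl
  · rw [hw.eq_of_length h2, Z.g3_pos h]; rfl
  · simp only [proj]
    rw [← List.suffix_iff_eq_drop.1 hw]

def Gam : Set (S × V × V) := {e | Z.g1 (e.1, true) e.2.1 ∧ e.2.2 = Z.step (e.1, true) e.2.1}

omit [DecidableEq S] in
lemma edge_mem_Gam {l : S × Bool} {p q : V} :
    edge l p q ∈ Z.Gam ↔ Z.g1 l p ∧ q = Z.step l p := by
  rcases l with ⟨s, _ | _⟩
  · simp only [edge, Gam, Set.mem_ofPred_eq]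
    constructor
    · rintro ⟨h1, rfl⟩
      exact ⟨Z.g1_bar h1, (Z.g1_step h1).symm⟩
    · rintro ⟨h1, rfl⟩
      exact ⟨Z.g1_bar h1, (Z.g1_step h1).symm⟩
  · rfl

omit [DecidableEq S] in
lemma folded_Gam : Folded Z.Gam := fun _ _ _ _ h1 h2 =>
  (Z.edge_mem_Gam.1 h1).2.trans (Z.edge_mem_Gam.1 h2).2.symm

variable {W : Type*} {E : Set (S × W × W)} (ι : V → W)

lemma g4_mem (hE : Folded E) (h3 : ∀ s v, Z.g3 s v → PG E (Z.a s v) (ι v) (ι (Z.T (of s) v)))
    {u : S} {v : V} (h : Z.g4 u v) : (u, ι v, ι (Z.step (u, true) v)) ∈ E := by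
  have key : ∀ w, al Z.T (fun l _ => lt l) Z.g3T w v →
      PG E (prd Z.T (fun l _ => lt l) Z.aT w v) (ι v) (ι (Z.T (FreeGroup.mk w) v)) := by
    intro w
    induction w with
    | nil => intro _; simpa [prd, ← one_eq_mk] using PG.one _
    | cons l w ih =>
      intro hw
      obtain ⟨h1, h2⟩ := hw
      simp only [prd, mk_cons, _root_.map_mul, Equiv.Perm.mul_apply]
      refine (ih h2).mul ?_
      rw [pos_lt] at h1 ⊢
      generalize Z.T (FreeGroup.mk w) v = v' at h1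
      rcases l with ⟨s, _ | _⟩
      · have := (h3 _ _ h1).inv
        simpa [aT, lt_false] using this
      · exact h3 _ _ h1
  have := key _ h.2.1
  rw [h.2.2, mk_toWord] at this
  exact this.of_mem hE

lemma g4L_path (h4 : ∀ u v, Z.g4 u v → (u, ι v, ι (Z.step (u, true) v)) ∈ E)
    {w : List (S × Bool)} {v : V} (h : al Z.T Z.b Z.g4L w v) :
    PG E (FreeGroup.mk w) (ι v) (ι (pos Z.T Z.b w v)) := by
  induction w with
  | nil => exact PG.one _
  | cons l w ih =>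
    obtain ⟨h1, h2⟩ := h
    rw [mk_cons]
    refine (ih h2).mul (PG.edge ?_)
    show edge l _ (ι (Z.step l _)) ∈ E
    generalize pos Z.T Z.b w v = v' at h1
    rcases l with ⟨s, _ | _⟩
    · have := h4 _ _ h1.2
      have e : Z.step (s, true) (Z.step (s, false) v') = v' := Z.g1_step h1.1
      rw [e] at this
      exact this
    · exact h4 _ _ h1

omit [DecidableEq S] in
lemma al_suf {c : S × Bool → V → FreeGroup S} {P : S × Bool → V → Prop}
    {w w' : List (S × Bool)} {v : V} (h : al Z.T c P w v) (hs : w' <:+ w) : al Z.T c P w' v := by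
  induction w with
  | nil => rw [List.suffix_nil.1 hs]; trivial
  | cons l0 w ih =>
    rcases List.suffix_cons_iff.1 hs with h1 | h1
    · rw [h1]; exact h
    · exact ih h.2 h1

variable [Fintype S] [Fintype V]

noncomputable def E3 : Finset (S × V) := Finset.univ.filter fun t => Z.g3 t.1 t.2

noncomputable def E0 : Finset (S × (V ⊕ (S × V × ℕ)) × (V ⊕ (S × V × ℕ))) :=
  Z.E3.biUnion fun t => Ew (Z.a t.1 t.2).toWord (Z.vert t)

noncomputable def cost : ℕ := ∑ t : S × V, if Z.g5 t.1 t.2 then 0 else (Z.a t.1 t.2).norm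

lemma card_E0 : Z.E0.card ≤ (Itr Z.E0).card + Z.E3.card := by
  have h1 : Z.E0.card ≤ ∑ t ∈ Z.E3, (Z.a t.1 t.2).toWord.length :=
    Finset.card_biUnion_le.trans (Finset.sum_le_sum fun t _ => card_Ew _ _)
  have h2 : (Z.E3.sigma fun t => Finset.Ioo 0 (Z.a t.1 t.2).toWord.length).card
      ≤ (Itr Z.E0).card := by
    refine Finset.card_le_card_of_injOn (fun x => (x.1.1, x.1.2, x.2)) ?_ ?_
    · rintro ⟨⟨s, v⟩, j⟩ hx
      simp only [Finset.coe_sigma, Set.mem_sigma_iff, Finset.mem_coe, Finset.mem_Ioo] at hx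
      obtain ⟨hx1, hx2, hx3⟩ := hx
      refine Finset.mem_coe.2 (mem_Itr.2 ?_)
      set w := (Z.a s v).toWord with hw
      have hlt : w.length - (j + 1) < w.length := by omega
      have hs : w[w.length - (j + 1)] :: w.drop (w.length - (j + 1) + 1) <:+ w := by
        rw [← List.drop_eq_getElem_cons hlt]; exact List.drop_suffix _ _
      refine ⟨_, Finset.mem_biUnion.2 ⟨(s, v), hx1, mem_Ew.2 ⟨_, _, hs, rfl⟩⟩, ?_⟩
      rw [edge_vert]
      left
      have : (w.drop (w.length - (j + 1) + 1)).length = j := by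
        rw [List.length_drop]; omega
      rw [this, vert, if_neg hx2.ne', if_neg hx3.ne]
    · rintro ⟨⟨s, v⟩, j⟩ _ ⟨⟨s', v'⟩, j'⟩ _ h
      simp only [Prod.mk.injEq] at h
      obtain ⟨rfl, rfl, rfl⟩ := h
      rfl
  rw [Finset.card_sigma] at h2
  have h3 : ∑ t ∈ Z.E3, (Z.a t.1 t.2).toWord.length ≤
      ∑ t ∈ Z.E3, ((Finset.Ioo 0 (Z.a t.1 t.2).toWord.length).card + 1) :=
    Finset.sum_le_sum fun t _ => by rw [Nat.card_Ioo]; omega
  rw [Finset.sum_add_distrib] at h3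
  simp only [Finset.sum_const, smul_eq_mul, mul_one] at h3
  omega

lemma E0_Gam : ∀ e ∈ Z.E0, emap Z.proj e ∈ Z.Gam := by
  intro e he
  obtain ⟨⟨s, v⟩, ht, he⟩ := Finset.mem_biUnion.1 he
  have h3 : Z.g3 s v := (Finset.mem_filter.1 ht).2
  obtain ⟨l, w', hs, rfl⟩ := mem_Ew.1 he
  rw [emap_edge, Z.proj_vert h3 ((List.suffix_cons l w').trans hs)]
  have := Z.proj_vert h3 hs
  rw [List.length_cons] at this
  rw [this, edge_mem_Gam]
  exact ⟨al_suffix _ h3.1 hs, rfl⟩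

theorem struct0 : ∃ E : Finset (S × (V ⊕ (S × V × ℕ)) × (V ⊕ (S × V × ℕ))),
    Folded (E : Set (S × (V ⊕ (S × V × ℕ)) × (V ⊕ (S × V × ℕ)))) ∧ (Itr E).card ≤ Z.cost ∧
    (∀ i ∈ Itr E, ∃ v g, PG (E : Set (S × (V ⊕ (S × V × ℕ)) × (V ⊕ (S × V × ℕ)))) g
      (inl v) (inr i)) ∧
    (∀ s v, Z.g3 s v → PG (E : Set (S × (V ⊕ (S × V × ℕ)) × (V ⊕ (S × V × ℕ)))) (Z.a s v)
      (inl v) (inl (Z.T (of s) v))) ∧ E.card ≤ (Itr E).card + Z.E3.card := by
  obtain ⟨q, E, hq1, hE, hq2, hq3⟩ :=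
    fold' Z.proj (fun _ => rfl) Z.Gam Z.folded_Gam Z.E0 Z.E0_Gam
  have hpath : ∀ s v, Z.g3 s v → ∀ w, w <:+ (Z.a s v).toWord →
      PG (E : Set (S × (V ⊕ (S × V × ℕ)) × (V ⊕ (S × V × ℕ)))) (FreeGroup.mk w) (inl v)
        (q (Z.vert (s, v) w.length)) := by
    intro s v h3 w hw
    have := (path_Ew (Z.vert (s, v)) hw).map (E' := (E : Set _)) q (fun e he => by
      refine Finset.mem_coe.2 ((hE _).2 ⟨e, ?_, rfl⟩)
      exact Finset.mem_biUnion.2 ⟨(s, v), Finset.mem_filter.2 ⟨Finset.mem_univ _, h3⟩, he⟩)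
    rw [show Z.vert (s, v) 0 = inl v by simp [vert], hq1] at this
    exact ⟨w, rfl, this⟩
  have h3 : ∀ s v, Z.g3 s v → PG (E : Set (S × (V ⊕ (S × V × ℕ)) × (V ⊕ (S × V × ℕ))))
      (Z.a s v) (inl v) (inl (Z.T (of s) v)) := by
    intro s v h3
    have := hpath s v h3 _ (List.suffix_refl _)
    rw [mk_toWord, vert, if_neg (Z.g3_len h3), if_pos rfl, hq1] at this
    exact this
  have hI : ∀ i ∈ Itr E, ∃ s v w, Z.g3 s v ∧ w <:+ (Z.a s v).toWord ∧
      q (Z.vert (s, v) w.length) = inr i := by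
    intro i hi
    obtain ⟨e, he, h⟩ := mem_Itr.1 hi
    obtain ⟨e0, he0, rfl⟩ := (hE _).1 he
    obtain ⟨⟨s, v⟩, ht, he0⟩ := Finset.mem_biUnion.1 he0
    obtain ⟨l, w', hs, rfl⟩ := mem_Ew.1 he0
    rw [emap_edge, edge_vert] at h
    rcases h with h | h
    · exact ⟨s, v, w', (Finset.mem_filter.1 ht).2, (List.suffix_cons l w').trans hs, h⟩
    · exact ⟨s, v, l :: w', (Finset.mem_filter.1 ht).2, hs, h⟩
  refine ⟨E, hq2, ?_, fun i hi => ?_, h3, ?_⟩
  · have h1 : (Itr E).map ⟨inr, inr_injective⟩ ⊆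
        ((Finset.univ.filter fun t : S × V => ¬ Z.g5 t.1 t.2).sigma
          fun t => Finset.Ioc 0 (Z.a t.1 t.2).norm).image fun x => q (Z.vert x.1 x.2) := by
      intro x hx
      obtain ⟨i, hi, rfl⟩ := Finset.mem_map.1 hx
      obtain ⟨s, v, w, h1, h2, h4⟩ := hI i hi
      refine Finset.mem_image.2 ⟨⟨(s, v), w.length⟩, ?_, h4⟩
      simp only [Finset.mem_sigma, Finset.mem_filter, Finset.mem_univ, true_and, Finset.mem_Ioc]
      refine ⟨fun h5 => ?_, Nat.pos_of_ne_zero fun h0 => ?_, h2.length_le⟩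
      · have h6 := Z.g4L_path inl (fun u v h => Z.g4_mem inl hq2 h3 h) (Z.al_suf h5.2 h2)
        have := (hpath s v h1 w h2).det hq2 h6
        rw [h4] at this
        cases this
      · rw [h0, show Z.vert (s, v) 0 = inl v by simp [vert], hq1] at h4
        cases h4
    have h2 := (Finset.card_le_card h1).trans Finset.card_image_le
    rw [Finset.card_map, Finset.card_sigma, Finset.sum_filter] at h2
    refine h2.trans (le_of_eq (Finset.sum_congr rfl fun t _ => ?_))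
    split_ifs <;> simp
  · obtain ⟨s, v, w, h1, h2, h4⟩ := hI i hi
    exact ⟨v, _, h4 ▸ hpath s v h1 w h2⟩
  · have := Z.card_E0
    omega

theorem struct : ∃ m ≤ Z.cost, ∃ E : Finset (S × (V ⊕ Fin m) × (V ⊕ Fin m)),
    Folded (E : Set (S × (V ⊕ Fin m) × (V ⊕ Fin m))) ∧
    (∀ i, ∃ v g, PG (E : Set (S × (V ⊕ Fin m) × (V ⊕ Fin m))) g (inl v) (inr i)) ∧
    (∀ u v, Z.g4 u v → (u, inl v, inl (Z.step (u, true) v)) ∈ E) ∧
    (∀ s v, Z.g3 s v → PG (E : Set (S × (V ⊕ Fin m) × (V ⊕ Fin m))) (Z.a s v)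
      (inl v) (inl (Z.T (of s) v))) ∧ E.card ≤ m + Z.E3.card := by
  obtain ⟨E, h1, h2, h3, h4, h5⟩ := Z.struct0
  let e := (Itr E).equivFin
  let f : V ⊕ (S × V × ℕ) → V ⊕ Fin (Itr E).card := fun x =>
    match x with
    | inl v => inl v
    | inr i => if h : i ∈ Itr E then inr (e ⟨i, h⟩) else inl i.2.1
  let g : V ⊕ Fin (Itr E).card → V ⊕ (S × V × ℕ) := Sum.map id fun j => (e.symm j).1
  have hgf : ∀ x, (∀ i, x = inr i → i ∈ Itr E) → g (f x) = x := by
    rintro (v | i) h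
    · rfl
    · simp [f, g, h i rfl]
  have hg : ∀ e ∈ (E : Set (S × (V ⊕ (S × V × ℕ)) × (V ⊕ (S × V × ℕ)))),
      emap g (emap f e) = e := by
    rintro ⟨s, p, q⟩ he
    simp only [emap]
    rw [hgf p fun i hi => mem_Itr.2 ⟨_, he, Or.inl hi⟩,
      hgf q fun i hi => mem_Itr.2 ⟨_, he, Or.inr hi⟩]
  have hF : Folded ((E.image (emap f) : Finset _) :
      Set (S × (V ⊕ Fin (Itr E).card) × (V ⊕ Fin (Itr E).card))) := by
    rw [Finset.coe_image]; exact h1.image f g hg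
  have hm : ∀ e ∈ (E : Set (S × (V ⊕ (S × V × ℕ)) × (V ⊕ (S × V × ℕ)))),
      emap f e ∈ ((E.image (emap f) : Finset _) :
      Set (S × (V ⊕ Fin (Itr E).card) × (V ⊕ Fin (Itr E).card))) :=
    fun e he => Finset.mem_coe.2 (Finset.mem_image_of_mem _ he)
  have h6 : ∀ s v, Z.g3 s v → PG ((E.image (emap f) : Finset _) :
      Set (S × (V ⊕ Fin (Itr E).card) × (V ⊕ Fin (Itr E).card))) (Z.a s v)
      (inl v) (inl (Z.T (of s) v)) := fun s v h => (h4 s v h).map f hm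
  refine ⟨_, h2, E.image (emap f), hF, fun i => ?_, fun u v h => Z.g4_mem inl hF h6 h, h6,
    Finset.card_image_le.trans h5⟩
  obtain ⟨v, g, h⟩ := h3 _ (e.symm i).2
  refine ⟨v, g, ?_⟩
  have := h.map f hm
  simpa [f] using this

end Sys

end Pool.Agent.Lib.MP_572a3e_an
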