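import Mathlib

namespace Pool.Agent.Lib.MP_572a3e_an

open FreeGroup

variable {S : Type*}

/-- a set with a free group action and candidate cocycles -/
structure Sys (S V : Type*) where
  T : FreeGroup S →* Equiv.Perm V
  a : S → V → FreeGroup S
  b : S × Bool → V → FreeGroup S

/-- the group element of a letter -/
def lt (l : S × Bool) : FreeGroup S := FreeGroup.mk [l]

/-- the inverse letter -/
def bar (l : S × Bool) : S × Bool := (l.1, !l.2)

lemma lt_true (s : S) : lt (s, true) = of s := rfl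

lemma lt_bar (l : S × Bool) : lt (bar l) = (lt l)⁻¹ := by
  simp [lt, bar, inv_mk, invRev]

lemma lt_false (s : S) : lt (s, false) = (of s)⁻¹ := lt_bar (s, true)

lemma mk_cons (l : S × Bool) (w : List (S × Bool)) : FreeGroup.mk (l :: w) = lt l * mk w := by
  simp [lt, mul_mk]

lemma bar_bar (l : S × Bool) : bar (bar l) = l := by simp [bar]

section walk
variable {V : Type*} (T : FreeGroup S →* Equiv.Perm V)

def pos (c : S × Bool → V → FreeGroup S) : List (S × Bool) → V → V
  | [], v => v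
  | l :: w, v => T (c l (pos c w v)) (pos c w v)

def prd (c d : S × Bool → V → FreeGroup S) : List (S × Bool) → V → FreeGroup S
  | [], _ => 1
  | l :: w, v => d l (pos T c w v) * prd c d w v

def al (c : S × Bool → V → FreeGroup S) (P : S × Bool → V → Prop) : List (S × Bool) → V → Prop
  | [], _ => True
  | l :: w, v => P l (pos T c w v) ∧ al c P w v

lemma pos_eq (c : S × Bool → V → FreeGroup S) (w : List (S × Bool)) (v : V) :
    pos T c w v = T (prd T c c w v) v := by
  induction w with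
  | nil => simp [pos, prd]
  | cons l w ih => simp only [pos, prd, _root_.map_mul, Equiv.Perm.mul_apply]; rw [← ih]

lemma pos_lt (w : List (S × Bool)) (v : V) :
    pos T (fun l _ => lt l) w v = T (FreeGroup.mk w) v := by
  induction w with
  | nil => simp [pos, ← one_eq_mk]
  | cons l w ih => simp only [pos, mk_cons, _root_.map_mul, Equiv.Perm.mul_apply, ih]

lemma al_suffix {c : S × Bool → V → FreeGroup S} {P : S × Bool → V → Prop}
    {w : List (S × Bool)} {v : V} (h : al T c P w v) {l : S × Bool} {w' : List (S × Bool)}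
    (hs : l :: w' <:+ w) : P l (pos T c w' v) := by
  induction w with
  | nil => simp at hs
  | cons l0 w ih =>
    rcases List.suffix_cons_iff.1 hs with h1 | h1
    · obtain ⟨rfl, rfl⟩ := List.cons.inj h1
      exact h.1
    · exact ih h.2 h1

lemma al_of_forall {c : S × Bool → V → FreeGroup S} {P : S × Bool → V → Prop}
    {w : List (S × Bool)} {v : V} (h : ∀ l w', P l (pos T c w' v)) : al T c P w v := by
  induction w with
  | nil => trivial
  | cons l0 w ih => exact ⟨h _ _, ih⟩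

variable {V' : Type*} (T' : FreeGroup S →* Equiv.Perm V') (π : V → V')
  (hπ : ∀ g v, π (T g v) = T' g (π v))
include hπ

lemma pos_nat (c : S × Bool → V' → FreeGroup S) (w : List (S × Bool)) (v : V) :
    π (pos T (fun l v => c l (π v)) w v) = pos T' c w (π v) := by
  induction w with
  | nil => rfl
  | cons l w ih => simp only [pos, hπ, ih]

lemma prd_nat (c d : S × Bool → V' → FreeGroup S) (w : List (S × Bool)) (v : V) :
    prd T (fun l v => c l (π v)) (fun l v => d l (π v)) w v = prd T' c d w (π v) := by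
  induction w with
  | nil => rfl
  | cons l w ih => simp only [prd, pos_nat T T' π hπ, ih]

lemma al_nat (c : S × Bool → V' → FreeGroup S) (P : S × Bool → V' → Prop)
    (w : List (S × Bool)) (v : V) :
    al T (fun l v => c l (π v)) (fun l v => P l (π v)) w v = al T' c P w (π v) := by
  induction w with
  | nil => rfl
  | cons l w ih => simp only [al, pos_nat T T' π hπ, ih]

end walk

namespace Sys
variable [DecidableEq S] {V : Type*} (Z : Sys S V)

def step (l : S × Bool) (v : V) : V := Z.T (Z.b l v) v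

def g1 (l : S × Bool) (v : V) : Prop := Z.b (bar l) (Z.step l v) * Z.b l v = 1

def g3 (s : S) (v : V) : Prop :=
  al Z.T Z.b Z.g1 (Z.a s v).toWord v ∧ prd Z.T Z.b Z.b (Z.a s v).toWord v = of s

def aT : S × Bool → V → FreeGroup S
  | (s, true), v => Z.a s v
  | (s, false), v => (Z.a s (Z.T (of s)⁻¹ v))⁻¹

def g3T : S × Bool → V → Prop
  | (s, true), v => Z.g3 s v
  | (s, false), v => Z.g3 s (Z.T (of s)⁻¹ v)

def g4 (u : S) (v : V) : Prop :=
  Z.g1 (u, true) v ∧ al Z.T (fun l _ => lt l) Z.g3T (Z.b (u, true) v).toWord v ∧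
    prd Z.T (fun l _ => lt l) Z.aT (Z.b (u, true) v).toWord v = of u

def g4L : S × Bool → V → Prop
  | (u, true), v => Z.g4 u v
  | (u, false), v => Z.g1 (u, false) v ∧ Z.g4 u (Z.step (u, false) v)

def g5 (s : S) (v : V) : Prop := Z.g3 s v ∧ al Z.T Z.b Z.g4L (Z.a s v).toWord v

omit [DecidableEq S] in
lemma g1_step {l : S × Bool} {v : V} (h : Z.g1 l v) : Z.step (bar l) (Z.step l v) = v := by
  have : Z.step (bar l) (Z.step l v) = Z.T (Z.b (bar l) (Z.step l v) * Z.b l v) v := by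
    simp [step]
  rw [this, h]; simp

omit [DecidableEq S] in
lemma g1_bar {l : S × Bool} {v : V} (h : Z.g1 l v) : Z.g1 (bar l) (Z.step l v) := by
  unfold g1
  rw [bar_bar, Z.g1_step h]
  exact mul_eq_one_comm.1 h

/-- morphisms -/
structure Hom {V' : Type*} (Z' : Sys S V') (π : V → V') : Prop where
  T : ∀ g v, π (Z.T g v) = Z'.T g (π v)
  a : ∀ s v, Z.a s v = Z'.a s (π v)
  b : ∀ l v, Z.b l v = Z'.b l (π v)

section nat
variable {Z} {V' : Type*} {Z' : Sys S V'} {π : V → V'} (h : Z.Hom Z' π)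
include h

omit [DecidableEq S] in
lemma Hom.step (l : S × Bool) (v : V) : π (Z.step l v) = Z'.step l (π v) := by
  simp only [Sys.step, h.T, h.b]

omit [DecidableEq S] in
lemma Hom.g1 (l : S × Bool) (v : V) : Z.g1 l v = Z'.g1 l (π v) := by
  simp only [Sys.g1, h.b, h.step]

omit [DecidableEq S] in
lemma Hom.b' : Z.b = fun l v => Z'.b l (π v) := by funext l v; exact h.b l v

lemma Hom.g3 (s : S) (v : V) : Z.g3 s v = Z'.g3 s (π v) := by
  have e1 : Z.g1 = fun l v => Z'.g1 l (π v) := by funext l v; exact h.g1 l v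
  simp only [Sys.g3]
  rw [e1, h.b', al_nat Z.T Z'.T π h.T, prd_nat Z.T Z'.T π h.T, h.a]

omit [DecidableEq S] in
lemma Hom.aT : Z.aT = fun l v => Z'.aT l (π v) := by
  funext l v
  rcases l with ⟨s, _ | _⟩ <;> simp only [Sys.aT, h.a, h.T]

lemma Hom.g3T : Z.g3T = fun l v => Z'.g3T l (π v) := by
  funext l v
  rcases l with ⟨s, _ | _⟩ <;> simp only [Sys.g3T, h.g3, h.T]

lemma Hom.g4 (u : S) (v : V) : Z.g4 u v = Z'.g4 u (π v) := by
  simp only [Sys.g4]
  rw [h.g1, h.aT, h.g3T, h.b, al_nat Z.T Z'.T π h.T (fun l _ => lt l),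
    prd_nat Z.T Z'.T π h.T (fun l _ => lt l)]

lemma Hom.g4L : Z.g4L = fun l v => Z'.g4L l (π v) := by
  funext l v
  rcases l with ⟨s, _ | _⟩ <;> simp only [Sys.g4L, h.g4, h.g1, h.step]

lemma Hom.g5 (s : S) (v : V) : Z.g5 s v = Z'.g5 s (π v) := by
  simp only [Sys.g5]
  rw [h.g3, h.g4L, h.b', al_nat Z.T Z'.T π h.T, h.a]

end nat

section allgood
variable {Y : Type*} (U : FreeGroup S →* Equiv.Perm Y) (κ : V → Y) (P : V → Prop)
  (hP : ∀ g v, P v → P (Z.T g v))
  (hinj : ∀ v w, P v → P w → κ v = κ w → v = w)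
  (hTf : ∀ g v, P v → Z.T g v = v → g = 1)
  (hUf : ∀ g v, P v → U g (κ v) = κ v → g = 1)
  (ha : ∀ s v, P v → U (Z.a s v) (κ v) = κ (Z.T (of s) v))
  (hb : ∀ l v, P v → κ (Z.T (Z.b l v) v) = U (lt l) (κ v))

omit [DecidableEq S] in
include hP hinj hTf hb in
lemma ag1 (l : S × Bool) (v : V) (hv : P v) : Z.g1 l v := by
  apply hTf _ v hv
  have h1 : P (Z.step l v) := hP _ _ hv
  apply hinj _ _ (hP _ _ hv) hv
  have : Z.T (Z.b (bar l) (Z.step l v) * Z.b l v) v
      = Z.T (Z.b (bar l) (Z.step l v)) (Z.step l v) := by simp [step]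
  rw [this, hb _ _ h1, step, hb _ _ hv, lt_bar]
  simp

omit [DecidableEq S] in
include hP in
lemma P_pos (c : S × Bool → V → FreeGroup S) (w : List (S × Bool)) (v : V) (hv : P v) :
    P (pos Z.T c w v) := by
  rw [pos_eq]; exact hP _ _ hv

omit [DecidableEq S] in
include hP hb in
lemma κ_pos (w : List (S × Bool)) (v : V) (hv : P v) :
    κ (pos Z.T Z.b w v) = U (FreeGroup.mk w) (κ v) := by
  induction w with
  | nil => simp [pos, ← one_eq_mk]
  | cons l w ih =>
    simp only [pos, mk_cons, _root_.map_mul, Equiv.Perm.mul_apply]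
    rw [hb _ _ (Z.P_pos P hP _ _ _ hv), ih]

include hP hinj hTf ha hb in
lemma ag3 (s : S) (v : V) (hv : P v) : Z.g3 s v := by
  refine ⟨al_of_forall _ fun l w => Z.ag1 U κ P hP hinj hTf hb l _ (Z.P_pos P hP _ _ _ hv), ?_⟩
  have h1 := Z.κ_pos U κ P hP hb (Z.a s v).toWord v hv
  rw [mk_toWord, ha _ _ hv, pos_eq] at h1
  have h2 := hinj _ _ (hP _ _ hv) (hP _ _ hv) h1
  have h3 := hTf ((of s)⁻¹ * prd Z.T Z.b Z.b (Z.a s v).toWord v) v hv (by simp [h2])
  rw [inv_mul_eq_one] at h3
  exact h3.symm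

omit [DecidableEq S] in
include hP ha in
lemma U_prd (w : List (S × Bool)) (v : V) (hv : P v) :
    U (prd Z.T (fun l _ => lt l) Z.aT w v) (κ v) = κ (Z.T (FreeGroup.mk w) v) := by
  induction w with
  | nil => simp [prd, ← one_eq_mk]
  | cons l w ih =>
    simp only [prd, mk_cons, _root_.map_mul, Equiv.Perm.mul_apply, ih, pos_lt]
    have hw : P (Z.T (FreeGroup.mk w) v) := hP _ _ hv
    generalize Z.T (FreeGroup.mk w) v = v' at hw
    rcases l with ⟨s, _ | _⟩
    · simp only [aT, lt_false]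
      have := ha s _ (hP (of s)⁻¹ _ hw)
      rw [_root_.map_inv U, Equiv.Perm.inv_eq_iff_eq, this]
      simp
    · simp only [aT, lt_true]
      exact ha _ _ hw

include hP hinj hTf hUf ha hb in
lemma ag4 (u : S) (v : V) (hv : P v) : Z.g4 u v := by
  refine ⟨Z.ag1 U κ P hP hinj hTf hb _ _ hv, al_of_forall _ fun l w => ?_, ?_⟩
  · have := Z.P_pos P hP (fun l _ => lt l) w v hv
    rcases l with ⟨s, _ | _⟩
    · exact Z.ag3 U κ P hP hinj hTf ha hb _ _ (hP _ _ this)
    · exact Z.ag3 U κ P hP hinj hTf ha hb _ _ this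
  · have h1 := Z.U_prd U κ P hP ha (Z.b (u, true) v).toWord v hv
    rw [mk_toWord, hb _ _ hv, lt_true] at h1
    have h3 := hUf ((of u)⁻¹ * prd Z.T (fun l _ => lt l) Z.aT (Z.b (u, true) v).toWord v) v hv
      (by simp [h1])
    rw [inv_mul_eq_one] at h3
    exact h3.symm

include hP hinj hTf hUf ha hb in
lemma ag5 (s : S) (v : V) (hv : P v) : Z.g5 s v := by
  refine ⟨Z.ag3 U κ P hP hinj hTf ha hb _ _ hv, al_of_forall _ fun l w => ?_⟩
  have := Z.P_pos P hP Z.b w v hv
  rcases l with ⟨s, _ | _⟩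
  · exact ⟨Z.ag1 U κ P hP hinj hTf hb _ _ this,
      Z.ag4 U κ P hP hinj hTf hUf ha hb _ _ (hP _ _ this)⟩
  · exact Z.ag4 U κ P hP hinj hTf hUf ha hb _ _ this

end allgood
end Sys

section config
variable {A : Type*}

/-- the shift action on configurations -/
def shift (A : Type*) : FreeGroup S →* Equiv.Perm (FreeGroup S → A) where
  toFun h := ⟨fun ω g => ω (g * h), fun ω g => ω (g * h⁻¹), fun ω => by simp, fun ω => by simp⟩
  map_one' := by ext ω g; simp
  map_mul' h k := by ext ω g; simp [mul_assoc]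

@[simp] lemma shift_apply (h : FreeGroup S) (ω : FreeGroup S → A) (g : FreeGroup S) :
    shift A h ω g = ω (g * h) := rfl

/-- the system on configurations -/
def cfg (a : S → A → FreeGroup S) (b : S × Bool → A → FreeGroup S) : Sys S (FreeGroup S → A) :=
  ⟨shift A, fun s ω => a s (ω 1), fun l ω => b l (ω 1)⟩

variable [DecidableEq S]

/-- finitely determined functions of configurations -/
def FD {β : Type*} (f : (FreeGroup S → A) → β) : Prop :=
  ∀ ω, ∃ R : ℕ, ∀ ω', (∀ g : FreeGroup S, g.norm ≤ R → ω' g = ω g) → f ω' = f ω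

lemma FD.const {β : Type*} (c : β) : FD (fun _ : FreeGroup S → A => c) :=
  fun _ => ⟨0, fun _ _ => rfl⟩

lemma FD.bind {β γ : Type*} {h : (FreeGroup S → A) → γ} {f : γ → (FreeGroup S → A) → β}
    (hh : FD h) (hf : ∀ c, FD (f c)) : FD (fun ω => f (h ω) ω) := by
  intro ω
  obtain ⟨R1, h1⟩ := hh ω
  obtain ⟨R2, h2⟩ := hf (h ω) ω
  refine ⟨max R1 R2, fun ω' hω => ?_⟩
  show f (h ω') ω' = f (h ω) ω
  rw [h1 ω' fun g hg => hω g (hg.trans (le_max_left _ _)),
    h2 ω' fun g hg => hω g (hg.trans (le_max_right _ _))]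

lemma FD.comp {β γ : Type*} {h : (FreeGroup S → A) → γ} (hh : FD h) (f : γ → β) :
    FD (fun ω => f (h ω)) := hh.bind (f := fun c _ => f c) fun _ => FD.const _

lemma FD.comp₂ {β γ δ : Type*} {h : (FreeGroup S → A) → γ} {k : (FreeGroup S → A) → δ}
    (hh : FD h) (hk : FD k) (f : γ → δ → β) : FD (fun ω => f (h ω) (k ω)) :=
  hh.bind (f := fun c ω => f c (k ω)) fun c => hk.comp (f c)

lemma FD.eval : FD (fun ω : FreeGroup S → A => ω 1) :=
  fun _ => ⟨0, fun _ h => h 1 (by simp)⟩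

lemma FD.shift1 {β : Type*} {f : (FreeGroup S → A) → β} (hf : FD f) (k : FreeGroup S) :
    FD (fun ω => f (shift A k ω)) := by
  intro ω
  obtain ⟨R, h⟩ := hf (shift A k ω)
  refine ⟨R + k.norm, fun ω' hω => h _ fun g hg => ?_⟩
  exact hω _ ((norm_mul_le g k).trans (by omega))

lemma FD.shift {β : Type*} {f : (FreeGroup S → A) → β} {k : (FreeGroup S → A) → FreeGroup S}
    (hf : FD f) (hk : FD k) : FD (fun ω => f (shift A (k ω) ω)) :=
  hk.bind (f := fun c ω => f (Pool.Agent.Lib.MP_572a3e_an.shift A c ω)) fun c => hf.shift1 c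

lemma FD.prd0 {c : S × Bool → (FreeGroup S → A) → FreeGroup S} (hc : ∀ l, FD (c l))
    (w : List (S × Bool)) : FD (prd (Pool.Agent.Lib.MP_572a3e_an.shift A) c c w) := by
  induction w with
  | nil => exact FD.const _
  | cons l w ih =>
    have := ((hc l).shift ih).comp₂ ih (· * ·)
    intro ω
    simpa only [prd, pos_eq] using this ω

lemma FD.pos {β : Type*} {f : (FreeGroup S → A) → β} (hf : FD f)
    {c : S × Bool → (FreeGroup S → A) → FreeGroup S} (hc : ∀ l, FD (c l))
    (w : List (S × Bool)) :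
    FD (fun ω => f (pos (Pool.Agent.Lib.MP_572a3e_an.shift A) c w ω)) := by
  have := hf.shift (FD.prd0 hc w)
  intro ω
  simpa only [pos_eq] using this ω

lemma FD.prd {c d : S × Bool → (FreeGroup S → A) → FreeGroup S} (hc : ∀ l, FD (c l))
    (hd : ∀ l, FD (d l)) (w : List (S × Bool)) :
    FD (prd (Pool.Agent.Lib.MP_572a3e_an.shift A) c d w) := by
  induction w with
  | nil => exact FD.const _
  | cons l w ih => exact ((hd l).pos hc w).comp₂ ih (· * ·)

lemma FD.al {c : S × Bool → (FreeGroup S → A) → FreeGroup S} (hc : ∀ l, FD (c l))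
    {P : S × Bool → (FreeGroup S → A) → Prop} (hP : ∀ l, FD (P l)) (w : List (S × Bool)) :
    FD (al (Pool.Agent.Lib.MP_572a3e_an.shift A) c P w) := by
  induction w with
  | nil => exact FD.const _
  | cons l w ih => exact ((hP l).pos hc w).comp₂ ih (· ∧ ·)

variable (a : S → A → FreeGroup S) (b : S × Bool → A → FreeGroup S)

lemma FD.ca (s : S) : FD ((cfg a b).a s) := FD.eval.comp (a s)
lemma FD.cb (l : S × Bool) : FD ((cfg a b).b l) := FD.eval.comp (b l)

lemma FD.step {β : Type*} {f : (FreeGroup S → A) → β} (hf : FD f) (l : S × Bool) :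
    FD (fun ω => f ((cfg a b).step l ω)) := hf.shift (FD.cb a b l)

lemma FD.g1 (l : S × Bool) : FD ((cfg a b).g1 l) :=
  ((FD.cb a b (bar l)).step a b l).comp₂ (FD.cb a b l) (fun x y => x * y = 1)

lemma FD.g3 (s : S) : FD ((cfg a b).g3 s) :=
  (FD.ca a b s).bind (f := fun (c : FreeGroup S) ω => Pool.Agent.Lib.MP_572a3e_an.al (cfg a b).T (cfg a b).b
    (cfg a b).g1 c.toWord ω ∧
      Pool.Agent.Lib.MP_572a3e_an.prd (cfg a b).T (cfg a b).b (cfg a b).b c.toWord ω = of s)
    fun c => (FD.al (FD.cb a b) (FD.g1 a b) c.toWord).comp₂ (FD.prd0 (FD.cb a b) c.toWord)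
      (fun p x => p ∧ x = of s)

lemma FD.aT (l : S × Bool) : FD ((cfg a b).aT l) := by
  rcases l with ⟨s, _ | _⟩
  · exact ((FD.ca a b s).shift1 (of s)⁻¹).comp (·⁻¹)
  · exact FD.ca a b s

lemma FD.g3T (l : S × Bool) : FD ((cfg a b).g3T l) := by
  rcases l with ⟨s, _ | _⟩
  · exact (FD.g3 a b s).shift1 (of s)⁻¹
  · exact FD.g3 a b s

lemma FD.g4 (u : S) : FD ((cfg a b).g4 u) :=
  (FD.g1 a b (u, true)).comp₂ ((FD.cb a b (u, true)).bind
    (f := fun (c : FreeGroup S) ω => Pool.Agent.Lib.MP_572a3e_an.al (cfg a b).T (fun l _ => lt l)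
    (cfg a b).g3T c.toWord ω ∧
      Pool.Agent.Lib.MP_572a3e_an.prd (cfg a b).T (fun l _ => lt l) (cfg a b).aT c.toWord ω = of u)
    fun c => (FD.al (fun _ => FD.const _) (FD.g3T a b) c.toWord).comp₂
      (FD.prd (fun _ => FD.const _) (FD.aT a b) c.toWord)
      (fun p x => p ∧ x = of u)) (· ∧ ·)

lemma FD.g4L (l : S × Bool) : FD ((cfg a b).g4L l) := by
  rcases l with ⟨s, _ | _⟩
  · exact (FD.g1 a b (s, false)).comp₂ ((FD.g4 a b s).step a b (s, false)) (· ∧ ·)
  · exact FD.g4 a b s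

lemma FD.g5 (s : S) : FD ((cfg a b).g5 s) :=
  (FD.g3 a b s).comp₂ ((FD.ca a b s).bind
    (f := fun (c : FreeGroup S) ω => Pool.Agent.Lib.MP_572a3e_an.al (cfg a b).T (cfg a b).b
    (cfg a b).g4L c.toWord ω)
    fun c => FD.al (FD.cb a b) (FD.g4L a b) c.toWord) (· ∧ ·)

end config

end Pool.Agent.Lib.MP_572a3e_an
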